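import Mathlib

/-!
Zariski topology on `σ → k`, polynomial functions, irreducibility.
-/

set_option autoImplicit false

namespace Q35.EC

open MvPolynomial

theorem isClosed_ofClosed {X : Type*} (T : Set (Set X)) (h0 : ∅ ∈ T)
    (h1 : ∀ A ⊆ T, ⋂₀ A ∈ T) (h2 : ∀ A ∈ T, ∀ B ∈ T, A ∪ B ∈ T) (Z : Set X) :
    @IsClosed _ (TopologicalSpace.ofClosed T h0 h1 h2) Z ↔ Z ∈ T := by
  rw [← @isOpen_compl_iff _ Z (TopologicalSpace.ofClosed T h0 h1 h2)]
  change Zᶜᶜ ∈ T ↔ _
  rw [compl_compl]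

/-- The Zariski topology on the affine space `σ → k`: closed sets are the common zero sets of
polynomials. -/
@[reducible] def zariski (σ k : Type*) [Field k] : TopologicalSpace (σ → k) :=
  TopologicalSpace.ofClosed
    {Z | ∃ S : Set (MvPolynomial σ k), ∀ x, x ∈ Z ↔ ∀ f ∈ S, eval x f = 0}
    ⟨{1}, by intro x; simp⟩
    (by
      intro A hA
      refine ⟨{f | ∃ Z ∈ A, ∀ x ∈ Z, eval x f = 0}, ?_⟩
      intro x
      constructor
      · rintro h f ⟨Z, hZ, hf⟩
        exact hf x (h Z hZ)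
      · intro h Z hZ
        obtain ⟨S, hS⟩ := hA hZ
        rw [hS]
        intro f hf
        exact h f ⟨Z, hZ, fun y hy => (hS y).1 hy f hf⟩)
    (by
      rintro A ⟨S, hS⟩ B ⟨T, hT⟩
      refine ⟨{f | ∃ g ∈ S, ∃ h ∈ T, f = g * h}, ?_⟩
      intro x
      rw [Set.mem_union, hS, hT]
      constructor
      · rintro (h | h) f ⟨g, hg, h', hh', rfl⟩
        · simp [h g hg]
        · simp [h h' hh']
      · intro h
        by_contra hc
        push Not at hc
        obtain ⟨⟨g, hg, hg0⟩, ⟨h', hh', hh0⟩⟩ := hc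
        have := h _ ⟨g, hg, h', hh', rfl⟩
        rw [map_mul] at this
        rcases mul_eq_zero.1 this with h1 | h1
        · exact hg0 h1
        · exact hh0 h1)

theorem isClosed_zariski {σ k : Type*} [Field k] (Z : Set (σ → k)) :
    @IsClosed _ (zariski σ k) Z ↔
      ∃ S : Set (MvPolynomial σ k), ∀ x, x ∈ Z ↔ ∀ f ∈ S, eval x f = 0 :=
  isClosed_ofClosed _ _ _ _ _

/-- polynomial functions on `σ → k` -/
noncomputable def polyFun (σ k : Type*) [Field k] : Subalgebra k ((σ → k) → k) :=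
  (AlgHom.pi (fun x : σ → k => aeval x) : MvPolynomial σ k →ₐ[k] _).range

theorem mem_polyFun {σ k : Type*} [Field k] {g : (σ → k) → k} :
    g ∈ polyFun σ k ↔ ∃ P : MvPolynomial σ k, ∀ x, eval x P = g x := by
  constructor
  · rintro ⟨P, hP⟩
    refine ⟨P, fun x => ?_⟩
    have := congrFun hP x
    simpa [aeval_eq_eval] using this
  · rintro ⟨P, hP⟩
    refine ⟨P, ?_⟩
    funext x
    simpa [aeval_eq_eval] using hP x

theorem coord_mem {σ k : Type*} [Field k] (i : σ) : (fun x : σ → k => x i) ∈ polyFun σ k :=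
  mem_polyFun.2 ⟨X i, fun x => by simp⟩

theorem const_mem {σ k : Type*} [Field k] (c : k) : (fun _ : σ → k => c) ∈ polyFun σ k :=
  mem_polyFun.2 ⟨C c, fun x => by simp⟩

theorem fadd_mem {σ k : Type*} [Field k] {f g : (σ → k) → k} (hf : f ∈ polyFun σ k)
    (hg : g ∈ polyFun σ k) : (fun x => f x + g x) ∈ polyFun σ k := (polyFun σ k).add_mem hf hg

theorem fsub_mem {σ k : Type*} [Field k] {f g : (σ → k) → k} (hf : f ∈ polyFun σ k)
    (hg : g ∈ polyFun σ k) : (fun x => f x - g x) ∈ polyFun σ k := (polyFun σ k).sub_mem hf hg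

theorem fmul_mem {σ k : Type*} [Field k] {f g : (σ → k) → k} (hf : f ∈ polyFun σ k)
    (hg : g ∈ polyFun σ k) : (fun x => f x * g x) ∈ polyFun σ k := (polyFun σ k).mul_mem hf hg

theorem fsum_mem {σ k τ : Type*} [Field k] (s : Finset τ) {f : τ → (σ → k) → k}
    (hf : ∀ i ∈ s, f i ∈ polyFun σ k) : (fun x => ∑ i ∈ s, f i x) ∈ polyFun σ k := by
  have : (fun x => ∑ i ∈ s, f i x) = ∑ i ∈ s, f i := by
    funext x; simp
  rw [this]
  exact (polyFun σ k).sum_mem hf

theorem fprod_mem {σ k τ : Type*} [Field k] (s : Finset τ) {f : τ → (σ → k) → k}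
    (hf : ∀ i ∈ s, f i ∈ polyFun σ k) : (fun x => ∏ i ∈ s, f i x) ∈ polyFun σ k := by
  have : (fun x => ∏ i ∈ s, f i x) = ∏ i ∈ s, f i := by
    funext x; simp
  rw [this]
  exact (polyFun σ k).prod_mem hf

theorem fdet_mem {σ k N : Type*} [Field k] [Fintype N] [DecidableEq N]
    {A : (σ → k) → Matrix N N k} (hA : ∀ i j, (fun x => A x i j) ∈ polyFun σ k) :
    (fun x => (A x).det) ∈ polyFun σ k := by
  have : (fun x => (A x).det) = fun x => ∑ s : Equiv.Perm N,
      (((Equiv.Perm.sign s : ℤ) : k)) * ∏ i, A x (s i) i := by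
    funext x
    rw [Matrix.det_apply']
  rw [this]
  refine fsum_mem _ (fun s _ => fmul_mem (const_mem _) (fprod_mem _ (fun i _ => hA _ _)))

/-- A set `Z` is Zariski closed if it is cut out by polynomial functions. -/
theorem isClosed_of_polyFun {σ k : Type*} [Field k] {Z : Set (σ → k)}
    (S : Set ((σ → k) → k)) (hS : S ⊆ polyFun σ k) (h : ∀ x, x ∈ Z ↔ ∀ g ∈ S, g x = 0) :
    @IsClosed _ (zariski σ k) Z := by
  rw [isClosed_zariski]
  refine ⟨{P | (fun x => eval x P) ∈ S}, fun x => ?_⟩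
  rw [h]
  constructor
  · intro h1 f hf
    exact h1 _ hf
  · intro h1 g hg
    obtain ⟨P, hP⟩ := mem_polyFun.1 (hS hg)
    have e : (fun x => eval x P) = g := funext hP
    rw [← hP x]
    apply h1
    show (fun x => eval x P) ∈ S
    rw [e]; exact hg

/-- nonvanishing sets of polynomial functions are open -/
theorem isOpen_ne {σ k : Type*} [Field k] {g : (σ → k) → k} (hg : g ∈ polyFun σ k) :
    @IsOpen _ (zariski σ k) {x | g x ≠ 0} := by
  rw [← @isClosed_compl_iff _ (zariski σ k)]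
  refine isClosed_of_polyFun {g} (by simpa using hg) (fun x => ?_)
  simp

/-- every point in an open set has a nonvanishing set neighbourhood -/
theorem exists_poly_of_mem_open {σ k : Type*} [Field k] {U : Set (σ → k)}
    (hU : @IsOpen _ (zariski σ k) U) {x : σ → k} (hx : x ∈ U) :
    ∃ P : MvPolynomial σ k, eval x P ≠ 0 ∧ ∀ y, eval y P ≠ 0 → y ∈ U := by
  rw [← @isClosed_compl_iff _ (zariski σ k), isClosed_zariski] at hU
  obtain ⟨S, hS⟩ := hU
  have h1 : ¬ ∀ f ∈ S, eval x f = 0 := by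
    rw [← hS]; simpa using hx
  push Not at h1
  obtain ⟨P, hP, hP0⟩ := h1
  refine ⟨P, hP0, fun y hy => ?_⟩
  by_contra hc
  exact hy ((hS y).1 hc P hP)

/-- Two nonempty open sets of an affine space over an infinite field meet. -/
theorem inter_nonempty {σ k : Type*} [Field k] [Infinite k] {U V : Set (σ → k)}
    (hU : @IsOpen _ (zariski σ k) U) (hV : @IsOpen _ (zariski σ k) V) (hU' : U.Nonempty)
    (hV' : V.Nonempty) : (U ∩ V).Nonempty := by
  obtain ⟨x, hx⟩ := hU'
  obtain ⟨y, hy⟩ := hV'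
  obtain ⟨P, hP, hP'⟩ := exists_poly_of_mem_open hU hx
  obtain ⟨Q, hQ, hQ'⟩ := exists_poly_of_mem_open hV hy
  have hPQ : P * Q ≠ 0 := by
    apply mul_ne_zero
    · rintro rfl; simp at hP
    · rintro rfl; simp at hQ
  have : ∃ z, eval z (P * Q) ≠ 0 := by
    by_contra hc
    push Not at hc
    exact hPQ (MvPolynomial.funext (fun z => by simpa using hc z))
  obtain ⟨z, hz⟩ := this
  rw [map_mul] at hz
  exact ⟨z, hP' z (left_ne_zero_of_mul hz), hQ' z (right_ne_zero_of_mul hz)⟩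

/-- rational functions: clearing denominators -/
theorem exists_clear {σ τ k : Type*} [Field k] (y : τ → (σ → k) → k) (hy : ∀ j, y j ∈ polyFun σ k)
    (d : (σ → k) → k) (hd : d ∈ polyFun σ k) (H : MvPolynomial τ k) :
    ∃ (n : ℕ) (g : (σ → k) → k), g ∈ polyFun σ k ∧
      ∀ x, d x ≠ 0 → g x = d x ^ n * eval (fun j => y j x / d x) H := by
  induction H using MvPolynomial.induction_on with
  | C a => exact ⟨0, fun _ => a, const_mem a, fun x _ => by simp⟩
  | add p q hp hq =>
    obtain ⟨n, g, hg, h1⟩ := hp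
    obtain ⟨m, g', hg', h2⟩ := hq
    refine ⟨n + m, fun x => d x ^ m * g x + d x ^ n * g' x, ?_, fun x hx => ?_⟩
    · exact fadd_mem (fmul_mem ((polyFun σ k).pow_mem hd m) hg)
        (fmul_mem ((polyFun σ k).pow_mem hd n) hg')
    · simp only []
      rw [h1 x hx, h2 x hx, map_add]
      ring
  | mul_X p i hp =>
    obtain ⟨n, g, hg, h1⟩ := hp
    refine ⟨n + 1, fun x => g x * y i x, fmul_mem hg (hy i), fun x hx => ?_⟩
    simp only []
    rw [h1 x hx, map_mul, eval_X]
    field_simp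
    ring

end Q35.EC
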