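import Mathlib
import Pool.Agent.Q35.EC.Zar

/-!
The Hilbert scheme of points of affine space (closed points, Zariski topology).
-/

set_option autoImplicit false

namespace Q35.EC

open MvPolynomial

/-- The closed points of `Hilb^n(𝔸^r)`: ideals of colength `n` in `k[x_1,…,x_r]`. -/
def Hilb (k : Type*) [Field k] (r n : ℕ) : Type _ :=
  {J : Ideal (MvPolynomial (Fin r) k) //
    Module.Finite k (MvPolynomial (Fin r) k ⧸ J) ∧
      Module.finrank k (MvPolynomial (Fin r) k ⧸ J) = n}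

/-- Indices of the entries of `r` square matrices of size `n` and a vector of length `n`. -/
abbrev CVIdx (r n : ℕ) := (Fin r × Fin n × Fin n) ⊕ Fin n

/-- `Presents p J`: the matrices `X_i = (p (inl (i,a,b)))_{a,b}` are the matrices of
multiplication by `x_i` on `k[x]/J` and `v = (p (inr a))_a` is the class of `1`, in some basis
of `k[x]/J`. -/
def Presents {k : Type*} [Field k] {r n : ℕ} (p : CVIdx r n → k)
    (J : Ideal (MvPolynomial (Fin r) k)) : Prop :=
  ∃ π : MvPolynomial (Fin r) k →ₗ[k] (Fin n → k), Function.Surjective π ∧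
    (∀ f, π f = 0 ↔ f ∈ J) ∧
    (π 1 = fun a => p (Sum.inr a)) ∧
    ∀ i f a, π (X i * f) a = ∑ b, p (Sum.inl (i, a, b)) * π f b

/-- The Zariski topology on `Hilb^n(𝔸^r)`: it is the quotient topology of the Zariski topology
on the variety of `r` commuting `n × n`-matrices together with a cyclic vector. -/
instance Hilb.topology (k : Type*) [Field k] (r n : ℕ) : TopologicalSpace (Hilb k r n) :=
  TopologicalSpace.ofClosed
    {Z | ∃ S : Set (MvPolynomial (CVIdx r n) k), ∀ (p : CVIdx r n → k) (J : Hilb k r n),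
      Presents p J.1 → (J ∈ Z ↔ ∀ f ∈ S, eval p f = 0)}
    ⟨{1}, by intro x J _; simp⟩
    (by
      intro A hA
      refine ⟨{f | ∃ Z ∈ A, ∀ (p : CVIdx r n → k) (J : Hilb k r n), Presents p J.1 → J ∈ Z →
        eval p f = 0}, ?_⟩
      intro p J hpJ
      constructor
      · rintro h f ⟨Z, hZ, hf⟩
        exact hf p J hpJ (h Z hZ)
      · intro h Z hZ
        obtain ⟨S, hS⟩ := hA hZ
        rw [hS p J hpJ]
        intro f hf
        exact h f ⟨Z, hZ, fun q K hK hKZ => (hS q K hK).1 hKZ f hf⟩)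
    (by
      rintro A ⟨S, hS⟩ B ⟨T, hT⟩
      refine ⟨{f | ∃ g ∈ S, ∃ h ∈ T, f = g * h}, ?_⟩
      intro p J hpJ
      rw [Set.mem_union, hS p J hpJ, hT p J hpJ]
      constructor
      · rintro (h | h) f ⟨g, hg, h', hh', rfl⟩
        · simp [h g hg]
        · simp [h h' hh']
      · intro h
        by_contra hc
        push Not at hc
        obtain ⟨⟨g, hg, hg0⟩, ⟨h', hh', hh0⟩⟩ := hc
        have := h _ ⟨g, hg, h', hh', rfl⟩
        rw [map_mul] at this
        rcases mul_eq_zero.1 this with h1 | h1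
        · exact hg0 h1
        · exact hh0 h1)

theorem Hilb.isClosed_iff {k : Type*} [Field k] {r n : ℕ} (Z : Set (Hilb k r n)) :
    IsClosed Z ↔ ∃ S : Set (MvPolynomial (CVIdx r n) k),
      ∀ (p : CVIdx r n → k) (J : Hilb k r n), Presents p J.1 →
        (J ∈ Z ↔ ∀ f ∈ S, eval p f = 0) :=
  isClosed_ofClosed _ _ _ _ _

section

variable {k : Type*} [Field k] {r n : ℕ}

/-- closedness from polynomial functions -/
theorem Hilb.isClosed_of_polyFun (Z : Set (Hilb k r n)) (S : Set ((CVIdx r n → k) → k))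
    (hS : S ⊆ polyFun (CVIdx r n) k)
    (h : ∀ (p : CVIdx r n → k) (J : Hilb k r n), Presents p J.1 → (J ∈ Z ↔ ∀ g ∈ S, g p = 0)) :
    IsClosed Z := by
  rw [Hilb.isClosed_iff]
  refine ⟨{P | (fun x => eval x P) ∈ S}, fun p J hpJ => ?_⟩
  rw [h p J hpJ]
  constructor
  · intro h1 f hf
    exact h1 _ hf
  · intro h1 g hg
    obtain ⟨P, hP⟩ := mem_polyFun.1 (hS hg)
    have e : (fun x => eval x P) = g := funext hP
    rw [← hP p]
    apply h1
    show (fun x => eval x P) ∈ S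
    rw [e]; exact hg

/-- two surjections with the same kernel -/
theorem exists_equiv_of_ker {V W W' : Type*} [AddCommGroup V] [Module k V] [AddCommGroup W]
    [Module k W] [AddCommGroup W'] [Module k W'] (π : V →ₗ[k] W) (π' : V →ₗ[k] W')
    (hπ : Function.Surjective π) (hπ' : Function.Surjective π')
    (h : ∀ f, π f = 0 ↔ π' f = 0) : ∃ g : W ≃ₗ[k] W', ∀ f, g (π f) = π' f := by
  have hker : LinearMap.ker π = LinearMap.ker π' := by
    ext f; simp [h f]
  let e1 := π.quotKerEquivOfSurjective hπ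
  let e2 := π'.quotKerEquivOfSurjective hπ'
  let e3 := Submodule.quotEquivOfEq _ _ hker
  refine ⟨(e1.symm.trans e3).trans e2, fun f => ?_⟩
  have h1 : e1.symm (π f) = Submodule.Quotient.mk f := by
    rw [LinearEquiv.symm_apply_eq]
    rfl
  rw [LinearEquiv.trans_apply, LinearEquiv.trans_apply, h1]
  rfl

theorem Presents.unique {p : CVIdx r n → k} {J J' : Ideal (MvPolynomial (Fin r) k)}
    (h : Presents p J) (h' : Presents p J') : J = J' := by
  obtain ⟨π, hs, hk, h1, hX⟩ := h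
  obtain ⟨π', hs', hk', h1', hX'⟩ := h'
  have e : ∀ f, π f = π' f := by
    intro f
    induction f using MvPolynomial.induction_on with
    | C a =>
      have : (C a : MvPolynomial (Fin r) k) = a • 1 := by
        rw [MvPolynomial.smul_eq_C_mul, mul_one]
      rw [this, map_smul, map_smul, h1, h1']
    | add f g hf hg => rw [map_add, map_add, hf, hg]
    | mul_X f i hf =>
      funext a
      rw [mul_comm, hX, hX', hf]
  ext f
  rw [← hk, ← hk', e]

/-- Dimension count: a presented ideal is a point of the Hilbert scheme. -/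
theorem mem_hilb_of_surj {N : Type*} [Fintype N] (hN : Fintype.card N = n)
    {J : Ideal (MvPolynomial (Fin r) k)} (π : MvPolynomial (Fin r) k →ₗ[k] (N → k))
    (hs : Function.Surjective π) (hk : ∀ f, π f = 0 ↔ f ∈ J) :
    Module.Finite k (MvPolynomial (Fin r) k ⧸ J) ∧
      Module.finrank k (MvPolynomial (Fin r) k ⧸ J) = n := by
  have hπ : Function.Surjective (J.mkQ.restrictScalars k) := J.mkQ_surjective
  obtain ⟨g, hg⟩ := exists_equiv_of_ker (k := k) (J.mkQ.restrictScalars k) π hπ hs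
    (by
      intro f
      rw [hk]
      simp [Ideal.Quotient.eq_zero_iff_mem])
  refine ⟨Module.Finite.equiv g.symm, ?_⟩
  rw [LinearEquiv.finrank_eq g]
  simp [hN]

/-- every point of the Hilbert scheme is presented by some matrices -/
theorem exists_presents (J : Hilb k r n) : ∃ p : CVIdx r n → k, Presents p J.1 := by
  obtain ⟨J, hfin, hr⟩ := J
  have hfin' := hfin
  let e : (MvPolynomial (Fin r) k ⧸ J) ≃ₗ[k] (Fin n → k) :=
    LinearEquiv.ofFinrankEq _ _ (by simp [hr])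
  let π : MvPolynomial (Fin r) k →ₗ[k] (Fin n → k) :=
    e.toLinearMap ∘ₗ (J.mkQ.restrictScalars k)
  let T : Fin r → (Fin n → k) →ₗ[k] (Fin n → k) := fun i =>
    e.toLinearMap ∘ₗ (LinearMap.mulLeft k (Ideal.Quotient.mk J (X i))) ∘ₗ e.symm.toLinearMap
  refine ⟨Sum.elim (fun x => LinearMap.toMatrix' (T x.1) x.2.1 x.2.2) (π 1), π, ?_, ?_, ?_, ?_⟩
  · exact e.surjective.comp J.mkQ_surjective
  · intro f
    simp [π, Ideal.Quotient.eq_zero_iff_mem]
  · funext a
    simp
  · intro i f a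
    have h1 : π (X i * f) = T i (π f) := by
      simp only [π, T, LinearMap.comp_apply, LinearEquiv.coe_coe, LinearEquiv.symm_apply_apply,
        LinearMap.mulLeft_apply]
      rfl
    have h2 : T i (π f) = (LinearMap.toMatrix' (T i)).mulVec (π f) := by
      rw [← Matrix.toLin'_apply, Matrix.toLin'_toMatrix']
    rw [h1, h2]
    rfl

/-- openness from one polynomial function -/
theorem Hilb.isOpen_of_ne (W : Set (Hilb k r n)) (φ : (CVIdx r n → k) → k)
    (hφ : φ ∈ polyFun (CVIdx r n) k)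
    (h : ∀ (p : CVIdx r n → k) (J : Hilb k r n), Presents p J.1 → (J ∈ W ↔ φ p ≠ 0)) :
    IsOpen W := by
  rw [← isClosed_compl_iff]
  refine Hilb.isClosed_of_polyFun _ {φ} (by simpa using hφ) (fun p J hp => ?_)
  rw [Set.mem_compl_iff, h p J hp]
  simp

/-- the points of the Hilbert scheme presented by a polynomial family over `Θ` -/
def famSet {σ : Type*} (P : (σ → k) → (CVIdx r n → k)) (Θ : Set (σ → k)) : Set (Hilb k r n) :=
  {J | ∃ z ∈ Θ, Presents (P z) J.1}

theorem famSet_closed {σ : Type*} (P : (σ → k) → (CVIdx r n → k))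
    (hP : ∀ j, (fun z => P z j) ∈ polyFun σ k) {Z : Set (Hilb k r n)} (hZ : IsClosed Z) :
    ∃ Z' : Set (σ → k), @IsClosed _ (zariski σ k) Z' ∧
      ∀ z (J : Hilb k r n), Presents (P z) J.1 → (J ∈ Z ↔ z ∈ Z') := by
  rw [Hilb.isClosed_iff] at hZ
  obtain ⟨S, hS⟩ := hZ
  choose Q hQ using fun j => mem_polyFun.1 (hP j)
  have key : ∀ (f : MvPolynomial (CVIdx r n) k) z, eval z (bind₁ Q f) = eval (P z) f := by
    intro f z
    rw [← MvPolynomial.coe_aeval_eq_eval, ← MvPolynomial.coe_aeval_eq_eval]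
    rw [RingHom.coe_coe, RingHom.coe_coe, MvPolynomial.aeval_bind₁]
    congr 2
    funext j
    rw [MvPolynomial.aeval_eq_eval, ← hQ j z]
  refine ⟨{z | ∀ f ∈ S, eval (P z) f = 0}, ?_, fun z J hJ => ?_⟩
  · rw [isClosed_zariski]
    refine ⟨{g | ∃ f ∈ S, g = bind₁ Q f}, fun z => ?_⟩
    constructor
    · rintro h g ⟨f, hf, rfl⟩
      rw [key]
      exact h f hf
    · intro h f hf
      rw [← key]
      exact h _ ⟨f, hf, rfl⟩
  · rw [hS _ _ hJ]
    rfl

theorem famSet_open {σ : Type*} (P : (σ → k) → (CVIdx r n → k))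
    (hP : ∀ j, (fun z => P z j) ∈ polyFun σ k) {W : Set (Hilb k r n)} (hW : IsOpen W) :
    ∃ W' : Set (σ → k), @IsOpen _ (zariski σ k) W' ∧
      ∀ z (J : Hilb k r n), Presents (P z) J.1 → (J ∈ W ↔ z ∈ W') := by
  obtain ⟨Z', hZ', h⟩ := famSet_closed P hP hW.isClosed_compl
  refine ⟨Z'ᶜ, hZ'.isOpen_compl, fun z J hJ => ?_⟩
  have := h z J hJ
  rw [Set.mem_compl_iff] at this
  rw [Set.mem_compl_iff, ← this, not_not]

/-- a family over a nonempty open subset of an affine space has irreducible image -/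
theorem famSet_irreducible [Infinite k] {σ : Type*} (P : (σ → k) → (CVIdx r n → k))
    (hP : ∀ j, (fun z => P z j) ∈ polyFun σ k) {Θ : Set (σ → k)}
    (hΘ : @IsOpen _ (zariski σ k) Θ) (hne : Θ.Nonempty)
    (hex : ∀ z ∈ Θ, ∃ J : Hilb k r n, Presents (P z) J.1) :
    IsIrreducible (famSet P Θ : Set (Hilb k r n)) := by
  constructor
  · obtain ⟨z, hz⟩ := hne
    obtain ⟨J, hJ⟩ := hex z hz
    exact ⟨J, z, hz, hJ⟩
  · rintro u v hu hv ⟨J, ⟨z, hz, hJ⟩, hJu⟩ ⟨K, ⟨w, hw, hK⟩, hKv⟩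
    obtain ⟨u', hu', h1⟩ := famSet_open P hP hu
    obtain ⟨v', hv', h2⟩ := famSet_open P hP hv
    have ho1 : @IsOpen _ (zariski σ k) (Θ ∩ u') := (zariski σ k).isOpen_inter _ _ hΘ hu'
    have ho2 : @IsOpen _ (zariski σ k) (Θ ∩ v') := (zariski σ k).isOpen_inter _ _ hΘ hv'
    obtain ⟨x, ⟨hx1, hx2⟩, _, hx3⟩ := inter_nonempty ho1 ho2 ⟨z, hz, (h1 z J hJ).1 hJu⟩
      ⟨w, hw, (h2 w K hK).1 hKv⟩
    obtain ⟨L, hL⟩ := hex x hx1
    exact ⟨L, ⟨x, hx1, hL⟩, (h1 x L hL).2 hx2, (h2 x L hL).2 hx3⟩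

/-- density of sub-families over nonempty open subsets -/
theorem famSet_closure [Infinite k] {σ : Type*} (P : (σ → k) → (CVIdx r n → k))
    (hP : ∀ j, (fun z => P z j) ∈ polyFun σ k) {Θ Θ' : Set (σ → k)}
    (hΘ : @IsOpen _ (zariski σ k) Θ) (hΘ' : @IsOpen _ (zariski σ k) Θ') (hsub : Θ' ⊆ Θ)
    (hne : Θ'.Nonempty) (hex : ∀ z ∈ Θ, ∃ J : Hilb k r n, Presents (P z) J.1) :
    closure (famSet P Θ' : Set (Hilb k r n)) = closure (famSet P Θ) := by
  apply subset_antisymm
  · apply closure_mono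
    rintro J ⟨z, hz, hJ⟩
    exact ⟨z, hsub hz, hJ⟩
  · apply closure_minimal _ isClosed_closure
    rintro J ⟨z, hz, hJ⟩
    obtain ⟨Z', hZ', h⟩ := famSet_closed P hP
      (isClosed_closure (s := (famSet P Θ' : Set (Hilb k r n))))
    rw [h z J hJ]
    by_contra hc
    have ho : @IsOpen _ (zariski σ k) (Θ ∩ Z'ᶜ) :=
      (zariski σ k).isOpen_inter _ _ hΘ (@IsClosed.isOpen_compl _ (zariski σ k) _ hZ')
    obtain ⟨x, ⟨hx1, hx2⟩, hx3⟩ := inter_nonempty ho hΘ' ⟨z, hz, hc⟩ hne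
    obtain ⟨L, hL⟩ := hex x hx1
    exact hx2 ((h x L hL).1 (subset_closure ⟨x, hx3, hL⟩))

end

end Q35.EC
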