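import Mathlib

/-!
An infinitesimally rigid negative part vanishes in a Zariski neighbourhood (Nakayama).
-/

set_option autoImplicit false

namespace Q35.EC

open MvPolynomial

variable {k ι N : Type*} [Field k] [Finite ι] [Fintype N] [DecidableEq N]


/-- infinitesimal rigidity of the negative part -/
def Rigid (deg : N → ℕ) (o : N) (vr : N → ι) (par : N → N) (M0 : ι → Matrix N N k) : Prop :=
  ∀ D : ι → Matrix N N k, (∀ i l m, D i l m ≠ 0 → deg l ≤ deg m) →
    (∀ i j, D i * M0 j + M0 i * D j = D j * M0 i + M0 j * D i) →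
    (∀ m, m ≠ o → ∀ l, D (vr m) l (par m) = 0) →
    (∀ i, (D i).trace = 0) → ∀ i, D i = 0

/-- the equations of the chart -/
def chartEq (o : N) (vr : N → ι) (par : N → N) (M : ι → Matrix N N k) : Prop :=
  (∀ i j, M i * M j = M j * M i) ∧
    (∀ m, m ≠ o → ∀ l, M (vr m) l (par m) = if l = m then 1 else 0) ∧
    (∀ i, (M i).trace = 0)

theorem naka (deg : N → ℕ) (o : N) (vr : N → ι) (par : N → N) (M0 : ι → Matrix N N k)
    (hM0 : ∀ i l m, M0 i l m ≠ 0 → deg l = deg m + 1)
    (hpar : ∀ m, m ≠ o → deg m = deg (par m) + 1)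
    (hchart : chartEq o vr par M0)
    (hrig : Rigid deg o vr par M0) :
    ∃ h : MvPolynomial (ι × N × N) k, eval (fun x => M0 x.1 x.2.1 x.2.2) h = 1 ∧
      ∀ M : ι → Matrix N N k, chartEq o vr par M →
        eval (fun x => M x.1 x.2.1 x.2.2) h ≠ 0 → ∀ i l m, deg l ≤ deg m → M i l m = 0 := by
  classical
  let ξ : ι → N → N → (MvPolynomial (ι × N × N) k) := fun i l m => X (i, l, m)
  let ev0 : (MvPolynomial (ι × N × N) k) →+* k := eval (fun x => M0 x.1 x.2.1 x.2.2)
  have hev0 : ∀ i l m, ev0 (ξ i l m) = M0 i l m := fun i l m => by simp [ev0, ξ]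
  let R1 : Set (MvPolynomial (ι × N × N) k) := {f | ∃ i j l m, f = (∑ p, ξ i l p * ξ j p m) - ∑ p, ξ j l p * ξ i p m}
  let R2 : Set (MvPolynomial (ι × N × N) k) := {f | ∃ m l, m ≠ o ∧ f = ξ (vr m) l (par m) - C (if l = m then 1 else 0)}
  let R3 : Set (MvPolynomial (ι × N × N) k) := {f | ∃ i, f = ∑ m, ξ i m m}
  let JJ : Ideal (MvPolynomial (ι × N × N) k) := Ideal.span (R1 ∪ R2 ∪ R3)
  let nn : Ideal (MvPolynomial (ι × N × N) k) := RingHom.ker ev0
  let NG : Set (MvPolynomial (ι × N × N) k) := {f | ∃ i l m, deg l ≤ deg m ∧ f = ξ i l m}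
  let NN : Ideal (MvPolynomial (ι × N × N) k) := Ideal.span NG
  have hNGfin : NG.Finite := by
    have : NG ⊆ Set.range (fun x : ι × N × N => ξ x.1 x.2.1 x.2.2) := by
      rintro f ⟨i, l, m, _, rfl⟩
      exact ⟨(i, l, m), rfl⟩
    exact (Set.finite_range _).subset this
  -- the key inclusion
  have key : NN ≤ nn * NN ⊔ JJ := by
    rw [Ideal.span_le]
    rintro f ⟨i0, l0, m0, hlm0, rfl⟩
    by_contra hc
    let K : Submodule k (MvPolynomial (ι × N × N) k) := (nn * NN ⊔ JJ).restrictScalars k
    have hc' : ξ i0 l0 m0 ∉ K := hc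
    obtain ⟨lam, hlam, hK⟩ := Submodule.exists_dual_map_eq_bot_of_notMem hc' inferInstance
    have hK0 : ∀ f ∈ K, lam f = 0 := by
      intro f hf
      have : lam f ∈ K.map lam := ⟨f, hf, rfl⟩
      rw [hK] at this
      exact (Submodule.mem_bot k).1 this
    have hJ0 : ∀ f ∈ JJ, lam f = 0 := fun f hf => hK0 f (by
      show f ∈ nn * NN ⊔ JJ
      exact Submodule.mem_sup_right hf)
    have hN0 : ∀ f ∈ nn * NN, lam f = 0 := fun f hf => hK0 f (by
      show f ∈ nn * NN ⊔ JJ
      exact Submodule.mem_sup_left hf)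
    have fact1 : ∀ (p n : (MvPolynomial (ι × N × N) k)), n ∈ NN → lam (p * n) = ev0 p * lam n := by
      intro p n hn
      have h1 : (p - C (ev0 p)) ∈ nn := by
        rw [RingHom.mem_ker, map_sub]
        simp [ev0]
      have h2 := hN0 _ (Ideal.mul_mem_mul h1 hn)
      rw [sub_mul, map_sub, sub_eq_zero] at h2
      rw [h2, ← MvPolynomial.smul_eq_C_mul, map_smul, smul_eq_mul]
    let D : ι → Matrix N N k := fun i => Matrix.of fun l m =>
      if deg l ≤ deg m then lam (ξ i l m) else 0
    have hD1 : ∀ i l m, deg l ≤ deg m → D i l m = lam (ξ i l m) := by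
      intro i l m h; simp [D, h]
    have hD2 : ∀ i l m, ¬ deg l ≤ deg m → D i l m = 0 := by
      intro i l m h; simp [D, h]
    have hM2 : ∀ i l m, deg l ≤ deg m → M0 i l m = 0 := by
      intro i l m h
      by_contra hne
      have := hM0 i l m hne
      omega
    have fact2 : ∀ i j l p m, (deg l ≤ deg p ∨ deg p ≤ deg m) →
        lam (ξ i l p * ξ j p m) = D i l p * M0 j p m + M0 i l p * D j p m := by
      intro i j l p m h
      by_cases h1 : deg l ≤ deg p
      · rw [mul_comm, fact1 _ _ (Ideal.subset_span ⟨i, l, p, h1, rfl⟩), hev0, hD1 i l p h1,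
          hM2 i l p h1]
        ring
      · have h2 : deg p ≤ deg m := by tauto
        rw [fact1 _ _ (Ideal.subset_span ⟨j, p, m, h2, rfl⟩), hev0, hD1 j p m h2, hD2 i l p h1]
        ring
    have hzero : ∀ i j l m, ¬ deg l ≤ deg m + 1 → (D i * M0 j + M0 i * D j) l m = 0 := by
      intro i j l m h
      rw [Matrix.add_apply, Matrix.mul_apply, Matrix.mul_apply, ← Finset.sum_add_distrib]
      apply Finset.sum_eq_zero
      intro p _
      have e1 : D i l p * M0 j p m = 0 := by
        by_contra hne
        have a1 := left_ne_zero_of_mul hne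
        have a2 := right_ne_zero_of_mul hne
        have := hM0 j p m a2
        apply a1
        apply hD2
        omega
      have e2 : M0 i l p * D j p m = 0 := by
        by_contra hne
        have a1 := left_ne_zero_of_mul hne
        have a2 := right_ne_zero_of_mul hne
        have := hM0 i l p a1
        apply a2
        apply hD2
        omega
      rw [e1, e2, add_zero]
    have hDeq : ∀ i, D i = 0 := by
      apply hrig D
      · intro i l m h
        by_contra hc
        exact h (hD2 i l m hc)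
      · intro i j
        ext l m
        by_cases h : deg l ≤ deg m + 1
        · have hr : (∑ p, ξ i l p * ξ j p m) - ∑ p, ξ j l p * ξ i p m ∈ JJ :=
            Ideal.subset_span (Or.inl (Or.inl ⟨i, j, l, m, rfl⟩))
          have := hJ0 _ hr
          rw [map_sub, map_sum, map_sum, sub_eq_zero] at this
          rw [Matrix.add_apply, Matrix.mul_apply, Matrix.mul_apply, ← Finset.sum_add_distrib,
            Matrix.add_apply, Matrix.mul_apply, Matrix.mul_apply, ← Finset.sum_add_distrib]
          rw [Finset.sum_congr rfl (fun p _ => fact2 i j l p m (by omega)),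
            Finset.sum_congr rfl (fun p _ => fact2 j i l p m (by omega))] at this
          exact this
        · rw [hzero i j l m h, hzero j i l m h]
      · intro m hm l
        by_cases h : deg l ≤ deg (par m)
        · rw [hD1 _ _ _ h]
          have hr : ξ (vr m) l (par m) - C (if l = m then 1 else 0) ∈ JJ :=
            Ideal.subset_span (Or.inl (Or.inr ⟨m, l, hm, rfl⟩))
          have h1 := hJ0 _ hr
          have h2 : l ≠ m := by
            rintro rfl
            have := hpar l hm
            omega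
          simpa [h2] using h1
        · exact hD2 _ _ _ h
      · intro i
        have hr : ∑ m, ξ i m m ∈ JJ := Ideal.subset_span (Or.inr ⟨i, rfl⟩)
        have h1 := hJ0 _ hr
        rw [map_sum] at h1
        rw [Matrix.trace]
        simp only [Matrix.diag_apply]
        rw [Finset.sum_congr rfl (fun m _ => hD1 i m m le_rfl)]
        exact h1
    apply hlam
    rw [← hD1 i0 l0 m0 hlm0, hDeq]
    rfl
  -- Nakayama
  let NB : Submodule (MvPolynomial (ι × N × N) k) ((MvPolynomial (ι × N × N) k) ⧸ JJ) := Submodule.map JJ.mkQ NN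
  have hfg : NB.FG := by
    apply Submodule.FG.map
    exact ⟨hNGfin.toFinset, by simp [NN]⟩
  have hle : NB ≤ nn • NB := by
    have h1 : NB ≤ Submodule.map JJ.mkQ (nn * NN ⊔ JJ) := Submodule.map_mono key
    rw [Submodule.map_sup] at h1
    have h2 : Submodule.map JJ.mkQ JJ = ⊥ := by
      rw [Submodule.eq_bot_iff]
      rintro x ⟨y, hy, rfl⟩
      rw [Submodule.mkQ_apply, Submodule.Quotient.mk_eq_zero]
      exact hy
    rw [h2, sup_bot_eq] at h1
    have h3 : Submodule.map JJ.mkQ (nn * NN) = nn • NB := by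
      have : (nn * NN : Ideal (MvPolynomial (ι × N × N) k)) = nn • (NN : Submodule (MvPolynomial (ι × N × N) k) (MvPolynomial (ι × N × N) k)) := rfl
      rw [this, Submodule.map_smul'']
    rwa [h3] at h1
  obtain ⟨h, hh1, hh2⟩ := Submodule.exists_sub_one_mem_and_smul_eq_zero_of_fg_of_le_smul nn NB
    hfg hle
  refine ⟨h, ?_, ?_⟩
  · have : ev0 (h - 1) = 0 := hh1
    rw [map_sub, map_one, sub_eq_zero] at this
    exact this
  · intro M hM hne i l m hlm
    have h1 : h • (JJ.mkQ (ξ i l m)) = 0 := hh2 _ ⟨_, Ideal.subset_span ⟨i, l, m, hlm, rfl⟩, rfl⟩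
    have h2 : h * ξ i l m ∈ JJ := by
      rw [← map_smul, smul_eq_mul, Submodule.mkQ_apply, Submodule.Quotient.mk_eq_zero] at h1
      exact h1
    let evM : (MvPolynomial (ι × N × N) k) →+* k := eval (fun x => M x.1 x.2.1 x.2.2)
    have hevM : ∀ i l m, evM (ξ i l m) = M i l m := fun i l m => by simp [evM, ξ]
    have h3 : JJ ≤ RingHom.ker evM := by
      rw [Ideal.span_le]
      rintro f ((⟨i, j, l, m, rfl⟩ | ⟨m, l, hm, rfl⟩) | ⟨i, rfl⟩)
      · rw [SetLike.mem_coe, RingHom.mem_ker, map_sub, map_sum, map_sum, sub_eq_zero]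
        have := congrFun (congrFun (hM.1 i j) l) m
        rw [Matrix.mul_apply, Matrix.mul_apply] at this
        simpa [hevM] using this
      · rw [SetLike.mem_coe, RingHom.mem_ker, map_sub, hevM, hM.2.1 m hm l]
        simp [evM]
      · rw [SetLike.mem_coe, RingHom.mem_ker, map_sum]
        have := hM.2.2 i
        rw [Matrix.trace] at this
        simpa [hevM] using this
    have h4 : evM (h * ξ i l m) = 0 := h3 h2
    rw [map_mul, hevM] at h4
    rcases mul_eq_zero.1 h4 with h5 | h5
    · exact absurd h5 hne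
    · exact h5

end Q35.EC
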