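import Mathlib
import Pool.Agent.Q35.EC.Naka

/-!
Trivial negative tangents imply infinitesimal rigidity.
-/

set_option autoImplicit false

namespace Q35.EC

open MvPolynomial

theorem exists_act {k ι V : Type*} [Field k] [AddCommGroup V] [Module k V]
    (T : ι → Module.End k V) (hT : ∀ i j, T i * T j = T j * T i) :
    ∃ ρ : MvPolynomial ι k →ₐ[k] Module.End k V, ∀ i, ρ (X i) = T i := by
  letI : CommRing (Algebra.adjoin k (Set.range T)) :=
    Algebra.adjoinCommRingOfComm k (by
      rintro _ ⟨i, rfl⟩ _ ⟨j, rfl⟩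
      exact hT i j)
  refine ⟨(Algebra.adjoin k (Set.range T)).val.comp
    (MvPolynomial.aeval (fun i => ⟨T i, Algebra.subset_adjoin ⟨i, rfl⟩⟩)), fun i => ?_⟩
  rw [AlgHom.comp_apply, MvPolynomial.aeval_X]
  rfl

/-- linear functionals on polynomials defined by a recursion along commuting operators -/
theorem exists_rec {k ι V : Type*} [Field k] [AddCommGroup V] [Module k V]
    (T : ι → Module.End k V) (hT : ∀ i j, T i * T j = T j * T i) (v : V) :
    ∃ φ : MvPolynomial ι k →ₗ[k] V, φ 1 = v ∧ ∀ i f, φ (X i * f) = T i (φ f) := by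
  obtain ⟨ρ, hρ⟩ := exists_act T hT
  refine ⟨(LinearMap.applyₗ v).comp ρ.toLinearMap, ?_, fun i f => ?_⟩
  · simp
  · simp [hρ]

/-- two linear maps satisfying the same recursion agree -/
theorem rec_unique {k ι V : Type*} [Field k] [AddCommGroup V] [Module k V]
    (T : ι → V → V) (φ ψ : MvPolynomial ι k →ₗ[k] V) (h1 : φ 1 = ψ 1)
    (hφ : ∀ i f, φ (X i * f) = T i (φ f)) (hψ : ∀ i f, ψ (X i * f) = T i (ψ f)) : φ = ψ := by
  apply LinearMap.ext
  intro f
  induction f using MvPolynomial.induction_on with
  | C a =>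
    have : (C a : MvPolynomial ι k) = a • 1 := by
      rw [MvPolynomial.smul_eq_C_mul, mul_one]
    rw [this, map_smul, map_smul, h1]
  | add f g hf hg => rw [map_add, map_add, hf, hg]
  | mul_X f i hf => rw [mul_comm, hφ, hψ, hf]

/-- Trivial negative tangents. -/
def TNT {k ι N : Type*} [Field k] [Fintype ι] [Fintype N] (deg : N → ℕ)
    (M0 : ι → Matrix N N k) (π : MvPolynomial ι k →ₗ[k] (N → k)) : Prop :=
  ∀ φ : MvPolynomial ι k →ₗ[k] (N → k),
    (∀ f, π f = 0 → ∀ i, φ (X i * f) = (M0 i).mulVec (φ f)) →
    (∀ (e : ι →₀ ℕ) (l : N), e.degree ≤ deg l → φ (monomial e 1) l = 0) →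
    ∃ a : ι → k, ∀ f, π f = 0 → φ f = ∑ i, a i • π (pderiv i f)

theorem rigid_of_TNT {k ι N : Type*} [Field k] [CharZero k] [Fintype ι] [DecidableEq ι]
    [Fintype N] [DecidableEq N] (deg : N → ℕ) (o : N) (vr : N → ι) (par : N → N)
    (M0 : ι → Matrix N N k) (π : MvPolynomial ι k →ₗ[k] (N → k))
    (hπX : ∀ i f, π (X i * f) = (M0 i).mulVec (π f))
    (b : N → MvPolynomial ι k) (hb : ∀ m, π (b m) = Pi.single m 1) (hbo : b o = 1)
    (hbp : ∀ m, m ≠ o → b m = X (vr m) * b (par m))
    (hM0 : ∀ i l m, M0 i l m ≠ 0 → deg l = deg m + 1)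
    (hpar : ∀ m, m ≠ o → deg m = deg (par m) + 1) (hdo : deg o = 0)
    (hcomm : ∀ i j, M0 i * M0 j = M0 j * M0 i)
    (htnt : TNT deg M0 π) : Rigid deg o vr par M0 := by
  intro D hD1 hD2 hD3 hD4
  let T : ι → Module.End k ((N → k) × (N → k)) := fun i =>
    LinearMap.prod ((Matrix.mulVecLin (M0 i)).comp (LinearMap.fst k _ _))
      ((Matrix.mulVecLin (M0 i)).comp (LinearMap.snd k _ _) +
        (Matrix.mulVecLin (D i)).comp (LinearMap.fst k _ _))
  have hTa : ∀ i x, T i x = ((M0 i).mulVec x.1, (M0 i).mulVec x.2 + (D i).mulVec x.1) := by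
    intro i x; rfl
  have hT : ∀ i j, T i * T j = T j * T i := by
    intro i j
    apply LinearMap.ext
    intro x
    rw [Module.End.mul_apply, Module.End.mul_apply, hTa, hTa, hTa, hTa]
    simp only []
    apply Prod.ext
    · simp only [Matrix.mulVec_mulVec]
      rw [hcomm]
    · simp only [Matrix.mulVec_add, Matrix.mulVec_mulVec]
      rw [hcomm i j]
      have h1 := congrArg (fun A => Matrix.mulVec A x.1) (hD2 i j)
      simp only [Matrix.add_mulVec] at h1
      rw [add_assoc, add_assoc]
      congr 1
      rw [add_comm, h1, add_comm]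
  obtain ⟨Φ, hΦ1, hΦX⟩ := exists_rec T hT ((Pi.single o 1 : N → k), (0 : N → k))
  let φ : MvPolynomial ι k →ₗ[k] (N → k) := (LinearMap.snd k _ _).comp Φ
  have hfst : ∀ f, (Φ f).1 = π f := by
    have : (LinearMap.fst k _ _).comp Φ = π := by
      apply rec_unique (fun i => (M0 i).mulVec)
      · rw [LinearMap.comp_apply, hΦ1, ← hbo, hb]
        rfl
      · intro i f
        rw [LinearMap.comp_apply, hΦX, hTa]
        rfl
      · exact hπX
    intro f
    rw [← this]
    rfl
  have hφ1 : φ 1 = 0 := by
    show (Φ 1).2 = 0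
    rw [hΦ1]
  have hφX : ∀ i f, φ (X i * f) = (M0 i).mulVec (φ f) + (D i).mulVec (π f) := by
    intro i f
    show (Φ (X i * f)).2 = _
    rw [hΦX, hTa, hfst]
    rfl
  have hφb : ∀ m, φ (b m) = 0 := by
    have : ∀ d m, deg m = d → φ (b m) = 0 := by
      intro d
      induction d using Nat.strong_induction_on with
      | _ d ih =>
        intro m hm
        by_cases hmo : m = o
        · rw [hmo, hbo, hφ1]
        · rw [hbp m hmo, hφX, ih (deg (par m)) (by have := hpar m hmo; omega) _ rfl, hb]
          rw [Matrix.mulVec_zero, zero_add, Matrix.mulVec_single_one]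
          funext l
          exact hD3 m hmo l
    intro m
    exact this _ m rfl
  -- degrees
  have hstep : ∀ (e : ι →₀ ℕ), e ≠ 0 → ∃ i e', e'.degree + 1 = e.degree ∧
      (monomial e 1 : MvPolynomial ι k) = X i * monomial e' 1 := by
    intro e he
    obtain ⟨i, hi⟩ := Finsupp.ne_iff.1 he
    rw [Finsupp.coe_zero, Pi.zero_apply] at hi
    have hle : Finsupp.single i 1 ≤ e := by
      rw [Finsupp.single_le_iff]; omega
    have he' : e = Finsupp.single i 1 + (e - Finsupp.single i 1) :=
      (add_tsub_cancel_of_le hle).symm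
    refine ⟨i, e - Finsupp.single i 1, ?_, ?_⟩
    · conv_rhs => rw [he']
      rw [map_add, Finsupp.degree_single, add_comm]
    · conv_lhs => rw [he']
      rw [X, MvPolynomial.monomial_mul, one_mul]
  have hπdeg : ∀ n (e : ι →₀ ℕ) (l : N), e.degree = n → π (monomial e 1) l ≠ 0 →
      deg l = n + deg o := by
    intro n
    induction n with
    | zero =>
      intro e l he hne
      have : e = 0 := (Finsupp.degree_eq_zero_iff e).1 he
      subst this
      have h1 : (monomial 0 1 : MvPolynomial ι k) = 1 := rfl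
      rw [h1, ← hbo, hb, Pi.single_apply] at hne
      have : l = o := by
        by_contra hc
        rw [if_neg hc] at hne
        exact hne rfl
      rw [this, zero_add]
    | succ n ih =>
      intro e l he hne
      have he0 : e ≠ 0 := by
        rintro rfl
        simp at he
      obtain ⟨i, e', h1, h2⟩ := hstep e he0
      rw [h2, hπX, Matrix.mulVec, dotProduct] at hne
      obtain ⟨m, _, hm⟩ := Finset.exists_ne_zero_of_sum_ne_zero hne
      have a1 := hM0 i l m (left_ne_zero_of_mul hm)
      have a2 := ih e' m (by omega) (right_ne_zero_of_mul hm)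
      omega
  have hφdeg : ∀ n (e : ι →₀ ℕ) (l : N), e.degree = n → φ (monomial e 1) l ≠ 0 →
      deg l < n + deg o := by
    intro n
    induction n with
    | zero =>
      intro e l he hne
      have : e = 0 := (Finsupp.degree_eq_zero_iff e).1 he
      subst this
      have h1 : (monomial 0 1 : MvPolynomial ι k) = 1 := rfl
      rw [h1, hφ1] at hne
      exact absurd rfl hne
    | succ n ih =>
      intro e l he hne
      have he0 : e ≠ 0 := by
        rintro rfl
        simp at he
      obtain ⟨i, e', h1, h2⟩ := hstep e he0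
      rw [h2, hφX, Pi.add_apply] at hne
      by_cases hz : (M0 i).mulVec (φ (monomial e' 1)) l = 0
      · rw [hz, zero_add, Matrix.mulVec, dotProduct] at hne
        obtain ⟨m, _, hm⟩ := Finset.exists_ne_zero_of_sum_ne_zero hne
        have a1 := hD1 i l m (left_ne_zero_of_mul hm)
        have a2 := hπdeg n e' m (by omega) (right_ne_zero_of_mul hm)
        omega
      · rw [Matrix.mulVec, dotProduct] at hz
        obtain ⟨m, _, hm⟩ := Finset.exists_ne_zero_of_sum_ne_zero hz
        have a1 := hM0 i l m (left_ne_zero_of_mul hm)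
        have a2 := ih e' m (by omega) (right_ne_zero_of_mul hm)
        omega
  obtain ⟨a, ha⟩ := htnt φ
    (by
      intro f hf i
      rw [hφX, hf, Matrix.mulVec_zero, add_zero])
    (by
      intro e l hel
      by_contra hne
      have := hφdeg _ e l rfl hne
      omega)
  -- the difference
  let φ' : MvPolynomial ι k →ₗ[k] (N → k) := φ - ∑ i, a i • π.comp (pderiv i).toLinearMap
  have hφ' : ∀ f, φ' f = φ f - ∑ i, a i • π (pderiv i f) := by
    intro f
    simp only [φ', LinearMap.sub_apply, LinearMap.sum_apply, LinearMap.smul_apply,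
      LinearMap.comp_apply]
    rfl
  have hφ'0 : ∀ f, π f = 0 → φ' f = 0 := by
    intro f hf
    rw [hφ', ha f hf, sub_self]
  have hbX : ∀ i m, φ' (X i * b m) = ∑ l, M0 i l m • φ' (b l) := by
    intro i m
    have h1 : π (X i * b m - ∑ l, M0 i l m • b l) = 0 := by
      rw [map_sub, hπX, hb, map_sum]
      simp only [map_smul, hb]
      rw [Matrix.mulVec_single_one, sub_eq_zero]
      funext l
      rw [Finset.sum_apply]
      simp [Matrix.col_apply, Pi.single_apply]
    have h2 := hφ'0 _ h1
    rw [map_sub, sub_eq_zero, map_sum] at h2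
    simp only [map_smul] at h2
    exact h2
  have hDcol : ∀ i m, (D i).mulVec (Pi.single m 1) =
      (∑ l, M0 i l m • φ' (b l)) + a i • (Pi.single m 1 : N → k) -
        (M0 i).mulVec (φ' (b m)) := by
    intro i m
    have h1 : φ (X i * b m) = (D i).mulVec (Pi.single m 1) := by
      rw [hφX, hφb, Matrix.mulVec_zero, zero_add, hb]
    have h2 : φ (X i * b m) = φ' (X i * b m) + ∑ j, a j • π (pderiv j (X i * b m)) := by
      rw [hφ']; abel
    have h3 : φ' (b m) = - ∑ j, a j • π (pderiv j (b m)) := by
      rw [hφ', hφb, zero_sub]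
    have h4 : ∑ j, a j • π (pderiv j (X i * b m)) =
        a i • (Pi.single m 1 : N → k) + (M0 i).mulVec (∑ j, a j • π (pderiv j (b m))) := by
      have : ∀ j, π (pderiv j (X i * b m)) =
          (if i = j then (Pi.single m 1 : N → k) else 0) + (M0 i).mulVec (π (pderiv j (b m))) := by
        intro j
        rw [Derivation.leibniz, smul_eq_mul, smul_eq_mul, pderiv_X, map_add, hπX, add_comm]
        congr 1
        by_cases hij : i = j
        · subst hij
          rw [if_pos rfl, Pi.single_eq_same, mul_one, hb]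
        · rw [if_neg hij, Pi.single_apply, if_neg hij, mul_zero, map_zero]
      simp only [this, smul_add, Finset.sum_add_distrib]
      congr 1
      · simp
      · rw [Matrix.mulVec_sum]
        simp only [Matrix.mulVec_smul]
    rw [← h1, h2, hbX, h4, h3, Matrix.mulVec_neg]
    abel
  have htr : ∀ i, (Fintype.card N : k) * a i = 0 := by
    intro i
    have h0 := hD4 i
    rw [Matrix.trace] at h0
    have h1 : ∀ m, (D i).diag m = (∑ l, M0 i l m * φ' (b l) m) + a i -
        ∑ l, M0 i m l * φ' (b m) l := by
      intro m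
      have := congrFun (hDcol i m) m
      rw [Matrix.mulVec_single_one, Pi.sub_apply, Pi.add_apply, Finset.sum_apply] at this
      simp only [Matrix.col_apply, Pi.smul_apply, smul_eq_mul, Pi.single_eq_same, mul_one] at this
      rw [Matrix.diag_apply, this, Matrix.mulVec, dotProduct]
    simp only [h1, Finset.sum_sub_distrib, Finset.sum_add_distrib] at h0
    rw [Finset.sum_comm, Finset.sum_const, Finset.card_univ, nsmul_eq_mul] at h0
    linear_combination h0
  have ha0 : ∀ i, a i = 0 := by
    intro i
    have hN : (Fintype.card N : k) ≠ 0 := by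
      haveI : Nonempty N := ⟨o⟩
      rw [Nat.cast_ne_zero]
      exact Fintype.card_ne_zero
    rcases mul_eq_zero.1 (htr i) with h | h
    · exact absurd h hN
    · exact h
  have hφ'b : ∀ m, φ' (b m) = 0 := by
    intro m
    rw [hφ', hφb]
    simp [ha0]
  intro i
  ext l m
  have := congrFun (hDcol i m) l
  simp only [hφ'b, ha0, smul_zero, Finset.sum_const_zero, zero_smul, Matrix.mulVec_zero,
    add_zero, sub_zero, Pi.zero_apply] at this
  rw [Matrix.mulVec_single_one] at this
  exact this

end Q35.EC
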