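import Mathlib
import Pool.Agent.Q35.EC.Rig

/-!
The algebra with basis `1, x_i, z_i, s` attached to a symmetric 3-tensor.
-/

set_option autoImplicit false

namespace Q35.EC

open MvPolynomial

/-- index set of the basis `1, x_i, z_i, s` -/
abbrev Bs (ι : Type*) := Option ι ⊕ Option ι

namespace Bs
variable {ι : Type*}
/-- the basis element `1` -/
abbrev one : Bs ι := Sum.inl none
/-- the basis element `x_i` -/
abbrev x (i : ι) : Bs ι := Sum.inl (some i)
/-- the basis element `z_i` -/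
abbrev z (i : ι) : Bs ι := Sum.inr (some i)
/-- the basis element `s` -/
abbrev s : Bs ι := Sum.inr none

/-- degree -/
def deg : Bs ι → ℕ
  | Sum.inl none => 0
  | Sum.inl (some _) => 1
  | Sum.inr (some _) => 2
  | Sum.inr none => 3

@[simp] theorem deg_one : deg (one : Bs ι) = 0 := rfl
@[simp] theorem deg_x (i : ι) : deg (x i) = 1 := rfl
@[simp] theorem deg_z (i : ι) : deg (z i) = 2 := rfl
@[simp] theorem deg_s : deg (s : Bs ι) = 3 := rfl

theorem sum_eq {k : Type*} [AddCommMonoid k] [Fintype ι] (g : Bs ι → k) :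
    ∑ m, g m = g one + ∑ i, g (x i) + (g s + ∑ i, g (z i)) := by
  rw [Fintype.sum_sum_type, Fintype.sum_option, Fintype.sum_option]
end Bs

section
variable {k ι : Type*} [Field k] [Fintype ι] [DecidableEq ι]

/-- matrix of multiplication by `x_i` -/
def MM (f : ι → ι → ι → k) (i : ι) : Matrix (Bs ι) (Bs ι) k := fun l m =>
  match m, l with
  | Sum.inl none, Sum.inl (some j) => if j = i then 1 else 0
  | Sum.inl (some b), Sum.inr (some c) => f i b c
  | Sum.inr (some c), Sum.inr none => if c = i then 1 else 0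
  | _, _ => 0

theorem MM_deg (f : ι → ι → ι → k) (i : ι) (l m : Bs ι) (h : MM f i l m ≠ 0) :
    l.deg = m.deg + 1 := by
  rcases m with (_ | m) | (_ | m) <;> rcases l with (_ | l) | (_ | l) <;>
    first
    | rfl
    | exact absurd rfl h

theorem mulVec_one (f : ι → ι → ι → k) (i : ι) (w : Bs ι → k) :
    (MM f i).mulVec w Bs.one = 0 := by
  rw [Matrix.mulVec, dotProduct, Bs.sum_eq]
  simp [MM]

theorem mulVec_x (f : ι → ι → ι → k) (i j : ι) (w : Bs ι → k) :
    (MM f i).mulVec w (Bs.x j) = if j = i then w Bs.one else 0 := by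
  rw [Matrix.mulVec, dotProduct, Bs.sum_eq]
  simp [MM]

theorem mulVec_z (f : ι → ι → ι → k) (i c : ι) (w : Bs ι → k) :
    (MM f i).mulVec w (Bs.z c) = ∑ b, f i b c * w (Bs.x b) := by
  rw [Matrix.mulVec, dotProduct, Bs.sum_eq]
  simp [MM]

theorem mulVec_s (f : ι → ι → ι → k) (i : ι) (w : Bs ι → k) :
    (MM f i).mulVec w Bs.s = w (Bs.z i) := by
  rw [Matrix.mulVec, dotProduct, Bs.sum_eq]
  simp [MM]

theorem Bs.ext {w w' : Bs ι → k} (h1 : w Bs.one = w' Bs.one) (hx : ∀ i, w (Bs.x i) = w' (Bs.x i))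
    (hz : ∀ i, w (Bs.z i) = w' (Bs.z i)) (hs : w Bs.s = w' Bs.s) : w = w' := by
  funext m
  rcases m with (_ | m) | (_ | m)
  · exact h1
  · exact hx m
  · exact hs
  · exact hz m

/-- symmetric tensors -/
def Sym3 (f : ι → ι → ι → k) : Prop := (∀ a b c, f a b c = f b a c) ∧ (∀ a b c, f a b c = f a c b)

theorem MM_comm {f : ι → ι → ι → k} (hf : Sym3 f) (i j : ι) :
    MM f i * MM f j = MM f j * MM f i := by
  apply Matrix.toLin'.injective
  apply LinearMap.ext
  intro w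
  rw [Matrix.toLin'_apply, Matrix.toLin'_apply, ← Matrix.mulVec_mulVec, ← Matrix.mulVec_mulVec]
  apply Bs.ext
  · rw [mulVec_one, mulVec_one]
  · intro a
    rw [mulVec_x, mulVec_x, mulVec_one, mulVec_one]
    simp
  · intro c
    rw [mulVec_z, mulVec_z]
    simp only [mulVec_x, mul_ite, mul_zero, Finset.sum_ite_eq', Finset.mem_univ, if_true]
    rw [hf.1]
  · rw [mulVec_s, mulVec_s, mulVec_z, mulVec_z]
    apply Finset.sum_congr rfl
    intro b _
    have : f j b i = f i b j := by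
      rw [hf.2 j b i, hf.1 j i b, hf.2 i j b]
    rw [this]

/-- the presentation map `π` -/
theorem exists_pi {f : ι → ι → ι → k} (hf : Sym3 f) :
    ∃ π : MvPolynomial ι k →ₗ[k] (Bs ι → k), π 1 = Pi.single Bs.one 1 ∧
      ∀ i g, π (X i * g) = (MM f i).mulVec (π g) := by
  obtain ⟨π, h1, h2⟩ := exists_rec (k := k) (fun i => Matrix.toLin' (MM f i))
    (by
      intro i j
      rw [Module.End.mul_eq_comp, Module.End.mul_eq_comp, ← Matrix.toLin'_mul,
        ← Matrix.toLin'_mul, MM_comm hf]) (Pi.single Bs.one 1)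
  exact ⟨π, h1, fun i g => by rw [h2, Matrix.toLin'_apply]⟩

variable {f : ι → ι → ι → k} {π : MvPolynomial ι k →ₗ[k] (Bs ι → k)}

theorem pi_X (h1 : π 1 = Pi.single Bs.one 1) (h2 : ∀ i g, π (X i * g) = (MM f i).mulVec (π g))
    (a : ι) : π (X a) = Pi.single (Bs.x a) 1 := by
  rw [← mul_one (X a), h2, h1]
  apply Bs.ext
  · rw [mulVec_one]; simp
  · intro i; rw [mulVec_x]; simp [Pi.single_apply]
  · intro i; rw [mulVec_z]; simp
  · rw [mulVec_s]; simp

theorem pi_XX_one (h1 : π 1 = Pi.single Bs.one 1)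
    (h2 : ∀ i g, π (X i * g) = (MM f i).mulVec (π g)) (a b : ι) :
    π (X a * X b) Bs.one = 0 := by
  rw [h2, mulVec_one]

theorem pi_XX_x (h1 : π 1 = Pi.single Bs.one 1)
    (h2 : ∀ i g, π (X i * g) = (MM f i).mulVec (π g)) (a b c : ι) :
    π (X a * X b) (Bs.x c) = 0 := by
  rw [h2, mulVec_x, pi_X h1 h2]
  simp

theorem pi_XX_z (h1 : π 1 = Pi.single Bs.one 1)
    (h2 : ∀ i g, π (X i * g) = (MM f i).mulVec (π g)) (a b c : ι) :
    π (X a * X b) (Bs.z c) = f a b c := by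
  rw [h2, mulVec_z, pi_X h1 h2]
  simp [Pi.single_apply]

theorem pi_XX_s (h1 : π 1 = Pi.single Bs.one 1)
    (h2 : ∀ i g, π (X i * g) = (MM f i).mulVec (π g)) (a b : ι) :
    π (X a * X b) Bs.s = 0 := by
  rw [h2, mulVec_s, pi_X h1 h2]
  simp

theorem pi_XXX_s (h1 : π 1 = Pi.single Bs.one 1)
    (h2 : ∀ i g, π (X i * g) = (MM f i).mulVec (π g)) (a b c : ι) :
    π (X a * (X b * X c)) Bs.s = f b c a := by
  rw [h2, mulVec_s, pi_XX_z h1 h2]

theorem pi_XXX_z (h1 : π 1 = Pi.single Bs.one 1)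
    (h2 : ∀ i g, π (X i * g) = (MM f i).mulVec (π g)) (a b c d : ι) :
    π (X a * (X b * X c)) (Bs.z d) = 0 := by
  rw [h2, mulVec_z]
  simp [pi_XX_x h1 h2]

theorem pi_XXX_x (h1 : π 1 = Pi.single Bs.one 1)
    (h2 : ∀ i g, π (X i * g) = (MM f i).mulVec (π g)) (a b c d : ι) :
    π (X a * (X b * X c)) (Bs.x d) = 0 := by
  rw [h2, mulVec_x]
  simp [pi_XX_one h1 h2]

theorem pi_XXX_one (h1 : π 1 = Pi.single Bs.one 1)
    (h2 : ∀ i g, π (X i * g) = (MM f i).mulVec (π g)) (a b c : ι) :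
    π (X a * (X b * X c)) Bs.one = 0 := by
  rw [h2, mulVec_one]

end

end Q35.EC
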