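import Mathlib
import Pool.Agent.Q35.EC.Model

/-!
The product on `Bs ι → k` attached to a symmetric tensor, and the presentation map.
-/

set_option autoImplicit false

namespace Q35.EC

open MvPolynomial

/-- factoring one linear map through another -/
theorem factor {k V W W' : Type*} [Field k] [AddCommGroup V] [Module k V] [AddCommGroup W]
    [Module k W] [AddCommGroup W'] [Module k W'] [Module.Finite k W]
    (β : V →ₗ[k] W) (γ : V →ₗ[k] W') (h : ∀ g, β g = 0 → γ g = 0)
    (hγ : Function.Surjective γ) (hd : Module.finrank k W ≤ Module.finrank k W') :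
    Function.Surjective β ∧ ∀ g, γ g = 0 → β g = 0 := by
  have hle : LinearMap.ker β ≤ LinearMap.ker γ := fun g hg => by
    rw [LinearMap.mem_ker] at hg ⊢
    exact h g hg
  let T : LinearMap.range β →ₗ[k] W' :=
    ((LinearMap.ker β).liftQ γ hle) ∘ₗ (β.quotKerEquivRange.symm : _ →ₗ[k] _)
  have hT : ∀ g, T ⟨β g, LinearMap.mem_range_self β g⟩ = γ g := by
    intro g
    have h1 : β.quotKerEquivRange.symm ⟨β g, LinearMap.mem_range_self β g⟩ =
        Submodule.Quotient.mk g := by
      rw [LinearEquiv.symm_apply_eq]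
      rfl
    show ((LinearMap.ker β).liftQ γ hle) (β.quotKerEquivRange.symm _) = _
    rw [h1]
    rfl
  have hTs : Function.Surjective T := by
    intro w
    obtain ⟨g, rfl⟩ := hγ w
    exact ⟨_, hT g⟩
  have hfin : Module.finrank k W' ≤ Module.finrank k (LinearMap.range β) :=
    LinearMap.finrank_le_finrank_of_surjective hTs
  have hle2 : Module.finrank k (LinearMap.range β) ≤ Module.finrank k W :=
    Submodule.finrank_le _
  have heq : Module.finrank k (LinearMap.range β) = Module.finrank k W := by omega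
  have htop : LinearMap.range β = ⊤ := Submodule.eq_top_of_finrank_eq heq
  refine ⟨LinearMap.range_eq_top.1 htop, ?_⟩
  have hfW' : Module.Finite k W' := Module.Finite.of_surjective T hTs
  have heq2 : Module.finrank k (LinearMap.range β) = Module.finrank k W' := by omega
  have hTi : Function.Injective T :=
    (LinearMap.injective_iff_surjective_of_finrank_eq_finrank heq2).2 hTs
  intro g hg
  have : T ⟨β g, LinearMap.mem_range_self β g⟩ = T 0 := by rw [hT, hg, map_zero]
  have := hTi this
  exact congrArg Subtype.val this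

section
variable {k ι : Type*} [Field k] [Fintype ι] [DecidableEq ι]

/-- the product on `Bs ι → k` -/
def mu (f : ι → ι → ι → k) (u w : Bs ι → k) : Bs ι → k
  | Sum.inl none => u Bs.one * w Bs.one
  | Sum.inl (some a) => u Bs.one * w (Bs.x a) + u (Bs.x a) * w Bs.one
  | Sum.inr (some c) => u Bs.one * w (Bs.z c) + u (Bs.z c) * w Bs.one +
      ∑ a, ∑ b, f a b c * (u (Bs.x a) * w (Bs.x b))
  | Sum.inr none => u Bs.one * w Bs.s + u Bs.s * w Bs.one +
      ∑ a, (u (Bs.x a) * w (Bs.z a) + u (Bs.z a) * w (Bs.x a))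

theorem mu_one (f : ι → ι → ι → k) (u w : Bs ι → k) :
    mu f u w Bs.one = u Bs.one * w Bs.one := rfl

theorem mu_x (f : ι → ι → ι → k) (u w : Bs ι → k) (a : ι) :
    mu f u w (Bs.x a) = u Bs.one * w (Bs.x a) + u (Bs.x a) * w Bs.one := rfl

theorem mu_z (f : ι → ι → ι → k) (u w : Bs ι → k) (c : ι) :
    mu f u w (Bs.z c) = u Bs.one * w (Bs.z c) + u (Bs.z c) * w Bs.one +
      ∑ a, ∑ b, f a b c * (u (Bs.x a) * w (Bs.x b)) := rfl

theorem mu_s (f : ι → ι → ι → k) (u w : Bs ι → k) :
    mu f u w Bs.s = u Bs.one * w Bs.s + u Bs.s * w Bs.one +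
      ∑ a, (u (Bs.x a) * w (Bs.z a) + u (Bs.z a) * w (Bs.x a)) := rfl

theorem MM_mu {f : ι → ι → ι → k} (hf : Sym3 f) (i : ι) (u w : Bs ι → k) :
    (MM f i).mulVec (mu f u w) = mu f ((MM f i).mulVec u) w := by
  apply Bs.ext
  · rw [mulVec_one, mu_one, mulVec_one, zero_mul]
  · intro j
    rw [mulVec_x, mu_x, mulVec_one, mulVec_x, mu_one]
    by_cases h : j = i <;> simp [h]
  · intro c
    rw [mulVec_z, mu_z, mulVec_one, mulVec_z]
    simp only [mulVec_x, mu_x]
    have h1 : ∑ a, ∑ b, f a b c * ((if a = i then u Bs.one else 0) * w (Bs.x b)) =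
        ∑ b, f i b c * (u Bs.one * w (Bs.x b)) := by
      rw [Finset.sum_eq_single i]
      · simp
      · intro a _ ha
        simp [ha]
      · simp
    rw [h1, zero_mul, zero_add, Finset.sum_mul, ← Finset.sum_add_distrib]
    apply Finset.sum_congr rfl
    intro b _
    ring
  · rw [mulVec_s, mu_s, mulVec_one, mulVec_s, mu_z]
    simp only [mulVec_x, mulVec_z]
    rw [Finset.sum_add_distrib]
    have h1 : ∑ a, (if a = i then u Bs.one else 0) * w (Bs.z a) = u Bs.one * w (Bs.z i) := by
      simp
    have h2 : ∑ a, (∑ b, f i b a * u (Bs.x b)) * w (Bs.x a) =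
        ∑ a, ∑ b, f a b i * (u (Bs.x a) * w (Bs.x b)) := by
      rw [Finset.sum_comm]
      · apply Finset.sum_congr rfl
        intro a _
        rw [Finset.sum_mul]
        apply Finset.sum_congr rfl
        intro b _
        have : f i b a = f b a i := by rw [hf.1 i b a, hf.2 b i a]
        rw [this]
        ring
    rw [h1, h2]
    ring

theorem mu_single_one (f : ι → ι → ι → k) (t : k) (w : Bs ι → k) :
    mu f (t • Pi.single Bs.one 1) w = t • w := by
  apply Bs.ext
  · rw [mu_one]; simp
  · intro a; rw [mu_x]; simp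
  · intro c; rw [mu_z]; simp
  · rw [mu_s]; simp

theorem mu_add_left (f : ι → ι → ι → k) (u u' w : Bs ι → k) :
    mu f (u + u') w = mu f u w + mu f u' w := by
  apply Bs.ext
  · simp only [mu_one, Pi.add_apply]; ring
  · intro a; simp only [mu_x, Pi.add_apply]; ring
  · intro c
    simp only [mu_z, Pi.add_apply]
    have : ∑ a, ∑ b, f a b c * ((u (Bs.x a) + u' (Bs.x a)) * w (Bs.x b)) =
        ∑ a, ∑ b, f a b c * (u (Bs.x a) * w (Bs.x b)) +
          ∑ a, ∑ b, f a b c * (u' (Bs.x a) * w (Bs.x b)) := by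
      rw [← Finset.sum_add_distrib]
      apply Finset.sum_congr rfl
      intro a _
      rw [← Finset.sum_add_distrib]
      apply Finset.sum_congr rfl
      intro b _
      ring
    rw [this]; ring
  · simp only [mu_s, Pi.add_apply]
    have : ∑ a, ((u (Bs.x a) + u' (Bs.x a)) * w (Bs.z a) +
          (u (Bs.z a) + u' (Bs.z a)) * w (Bs.x a)) =
        ∑ a, (u (Bs.x a) * w (Bs.z a) + u (Bs.z a) * w (Bs.x a)) +
          ∑ a, (u' (Bs.x a) * w (Bs.z a) + u' (Bs.z a) * w (Bs.x a)) := by
      rw [← Finset.sum_add_distrib]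
      apply Finset.sum_congr rfl
      intro a _
      ring
    rw [this]; ring

/-- multiplicativity of the presentation map -/
theorem pi_mul {f : ι → ι → ι → k} (hf : Sym3 f) {π : MvPolynomial ι k →ₗ[k] (Bs ι → k)}
    (h1 : π 1 = Pi.single Bs.one 1) (h2 : ∀ i g, π (X i * g) = (MM f i).mulVec (π g))
    (g h : MvPolynomial ι k) : π (g * h) = mu f (π g) (π h) := by
  induction g using MvPolynomial.induction_on with
  | C a =>
    have e1 : (C a : MvPolynomial ι k) * h = a • h := by rw [MvPolynomial.smul_eq_C_mul]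
    have e2 : (C a : MvPolynomial ι k) = a • 1 := by rw [MvPolynomial.smul_eq_C_mul, mul_one]
    rw [e1, e2, map_smul, map_smul, h1, mu_single_one]
  | add p q hp hq => rw [add_mul, map_add, map_add, mu_add_left, hp, hq]
  | mul_X p i hp =>
    have e1 : p * X i * h = X i * (p * h) := by ring
    rw [e1, h2, hp, MM_mu hf, ← h2, mul_comm p (X i)]

/-- concise tensors -/
def Concise (f : ι → ι → ι → k) : Prop :=
  ∀ w : ι → k, (∀ c d, ∑ b, f c d b * w b = 0) → w = 0

theorem zspan {f : ι → ι → ι → k} (hc : Concise f) (S : Submodule k (ι → k))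
    (h : ∀ a b, (fun c => f a b c) ∈ S) : S = ⊤ := by
  by_contra hne
  obtain ⟨φ, hφ, hle⟩ := Submodule.exists_le_ker_of_lt_top S (lt_top_iff_ne_top.2 hne)
  apply hφ
  have hrep : ∀ v : ι → k, φ v = ∑ b, v b * φ (Pi.single b 1) := by
    intro v
    conv_lhs => rw [← Finset.univ_sum_single v]
    rw [map_sum]
    apply Finset.sum_congr rfl
    intro b _
    have : (Pi.single b (v b) : ι → k) = v b • Pi.single b 1 := by
      rw [← Pi.single_smul]; simp
    rw [this, map_smul, smul_eq_mul]
  have hw := hc (fun b => φ (Pi.single b 1)) (by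
    intro c d
    rw [← hrep (fun b => f c d b)]
    exact hle (h c d))
  apply LinearMap.ext
  intro v
  rw [hrep v]
  apply Finset.sum_eq_zero
  intro b _
  rw [congrFun hw b]
  simp

/-- vectors concentrated in degree two -/
def zvec : (ι → k) →ₗ[k] (Bs ι → k) where
  toFun v := fun l => match l with
    | Sum.inr (some c) => v c
    | _ => 0
  map_add' u v := by
    apply Bs.ext
    · simp
    · intro i; simp
    · intro i; simp
    · simp
  map_smul' t v := by
    apply Bs.ext
    · simp
    · intro i; simp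
    · intro i; simp
    · simp

@[simp] theorem zvec_one (v : ι → k) : zvec v Bs.one = 0 := rfl
@[simp] theorem zvec_x (v : ι → k) (a : ι) : zvec v (Bs.x a) = 0 := rfl
@[simp] theorem zvec_z (v : ι → k) (a : ι) : zvec v (Bs.z a) = v a := rfl
@[simp] theorem zvec_s (v : ι → k) : zvec v Bs.s = 0 := rfl

theorem eq_comb (u : Bs ι → k) : u = u Bs.one • Pi.single Bs.one 1 +
    (∑ a, u (Bs.x a) • Pi.single (Bs.x a) 1 + (zvec (fun c => u (Bs.z c)) +
      u Bs.s • Pi.single Bs.s 1)) := by
  apply Bs.ext
  · simp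
  · intro i
    simp [Finset.sum_apply, Pi.single_apply]
  · intro i; simp
  · simp

section
variable {f : ι → ι → ι → k} {π : MvPolynomial ι k →ₗ[k] (Bs ι → k)}

theorem pi_XX (h1 : π 1 = Pi.single Bs.one 1)
    (h2 : ∀ i g, π (X i * g) = (MM f i).mulVec (π g)) (a b : ι) :
    π (X a * X b) = zvec (fun c => f a b c) := by
  apply Bs.ext
  · rw [pi_XX_one h1 h2]; simp
  · intro c; rw [pi_XX_x h1 h2]; simp
  · intro c; rw [pi_XX_z h1 h2]; simp
  · rw [pi_XX_s h1 h2]; simp

theorem pi_surj_of_concise [Nonempty ι] (hc : Concise f) (h1 : π 1 = Pi.single Bs.one 1)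
    (h2 : ∀ i g, π (X i * g) = (MM f i).mulVec (π g)) : Function.Surjective π := by
  have hz : (LinearMap.range π).comap (zvec : (ι → k) →ₗ[k] _) = ⊤ := by
    apply zspan hc
    intro a b
    rw [Submodule.mem_comap, ← pi_XX h1 h2]
    exact LinearMap.mem_range_self _ _
  have hz' : ∀ v : ι → k, zvec v ∈ LinearMap.range π := by
    intro v
    have : v ∈ (LinearMap.range π).comap (zvec : (ι → k) →ₗ[k] _) := by rw [hz]; trivial
    exact this
  have hs : (Pi.single Bs.s 1 : Bs ι → k) ∈ LinearMap.range π := by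
    obtain ⟨i⟩ := (inferInstance : Nonempty ι)
    obtain ⟨g, hg⟩ := hz' (Pi.single i 1)
    refine ⟨X i * g, ?_⟩
    rw [h2, hg]
    apply Bs.ext
    · rw [mulVec_one]; simp
    · intro a; rw [mulVec_x]; simp
    · intro a; rw [mulVec_z]; simp
    · rw [mulVec_s]; simp
  rw [← LinearMap.range_eq_top, eq_top_iff]
  intro u _
  rw [eq_comb u]
  refine Submodule.add_mem _ (Submodule.smul_mem _ _ ⟨1, h1⟩) (Submodule.add_mem _
    (Submodule.sum_mem _ fun a _ => Submodule.smul_mem _ _ ⟨X a, pi_X h1 h2 a⟩)
    (Submodule.add_mem _ (hz' _) (Submodule.smul_mem _ _ hs)))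

theorem concise_of_pi_surj (hf : Sym3 f) (h1 : π 1 = Pi.single Bs.one 1)
    (h2 : ∀ i g, π (X i * g) = (MM f i).mulVec (π g)) (hs : Function.Surjective π) :
    Concise f := by
  intro w hw
  have key : ∀ g, ∑ c, w c * π g (Bs.z c) = 0 := by
    intro g
    induction g using MvPolynomial.induction_on with
    | C a =>
      have e2 : (C a : MvPolynomial ι k) = a • 1 := by rw [MvPolynomial.smul_eq_C_mul, mul_one]
      rw [e2, map_smul, h1]
      simp
    | add p q hp hq =>
      rw [map_add]
      simp only [Pi.add_apply, mul_add]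
      rw [Finset.sum_add_distrib, hp, hq, add_zero]
    | mul_X p i hp =>
      rw [mul_comm, h2]
      simp only [mulVec_z, Finset.mul_sum]
      rw [Finset.sum_comm]
      apply Finset.sum_eq_zero
      intro b _
      have := hw i b
      calc ∑ c, w c * (f i b c * π p (Bs.x b)) = (∑ c, f i b c * w c) * π p (Bs.x b) := by
            rw [Finset.sum_mul]
            apply Finset.sum_congr rfl
            intro c _
            ring
        _ = 0 := by rw [this, zero_mul]
  funext c
  obtain ⟨g, hg⟩ := hs (Pi.single (Bs.z c) 1)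
  have := key g
  rw [hg] at this
  simpa [Pi.single_apply] using this

/-- the kernel of `π` and the pairing -/
theorem pi_eq_zero_of_pairing (hf : Sym3 f) (h1 : π 1 = Pi.single Bs.one 1)
    (h2 : ∀ i g, π (X i * g) = (MM f i).mulVec (π g)) (hs : Function.Surjective π)
    (g : MvPolynomial ι k) (hg : ∀ h, π (h * g) Bs.s = 0) : π g = 0 := by
  have key : ∀ u, mu f u (π g) Bs.s = 0 := by
    intro u
    obtain ⟨h, rfl⟩ := hs u
    rw [← pi_mul hf h1 h2]
    exact hg h
  apply Bs.ext
  · have := key (Pi.single Bs.s 1)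
    rw [mu_s] at this
    simpa using this
  · intro a
    have := key (Pi.single (Bs.z a) 1)
    rw [mu_s] at this
    simpa [Pi.single_apply] using this
  · intro a
    have := key (Pi.single (Bs.x a) 1)
    rw [mu_s] at this
    simpa [Pi.single_apply] using this
  · have := key (Pi.single Bs.one 1)
    rw [mu_s] at this
    simpa using this

end

end

end Q35.EC
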