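import Mathlib
import Pool.Agent.Q35.EC.Mu
import Pool.Agent.Q35.EC.Hilb

/-!
Intrinsic properties of the model algebra: local, Gorenstein, Hilbert function `(1,r,r,1)`.
-/

set_option autoImplicit false

namespace Q35.EC

open MvPolynomial

/-- The Hilbert function `i ↦ dim_k (𝔪^i / 𝔪^(i+1))` of a local `k`-algebra. -/
noncomputable def hilbFun (k A : Type*) [Field k] [CommRing A] [Algebra k A] [IsLocalRing A]
    (i : ℕ) : ℕ :=
  Module.finrank k (↥(IsLocalRing.maximalIdeal A ^ i) ⧸
    (IsLocalRing.maximalIdeal A ^ (i + 1)).submoduleOf (IsLocalRing.maximalIdeal A ^ i))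

/-- `A` is an Artinian Gorenstein local `k`-algebra with Hilbert function `H`: it is finite
dimensional and local, `dim_k (𝔪^i / 𝔪^(i+1)) = H i` for all `i`, and the socle `(0 : 𝔪)` is
one-dimensional. -/
def IsAG (k A : Type*) [Field k] [CommRing A] [Algebra k A] (H : ℕ → ℕ) : Prop :=
  Module.Finite k A ∧ ∃ _ : IsLocalRing A, (∀ i, hilbFun k A i = H i) ∧
    Module.finrank k (IsLocalRing.maximalIdeal A).annihilator = 1

section
variable {k ι : Type*} [Field k] [Fintype ι] [DecidableEq ι]

/-- `A` is isomorphic to the model algebra of the tensor `f` -/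
def Model (f : ι → ι → ι → k) (A : Type*) [CommRing A] [Algebra k A] : Prop :=
  ∃ e : A ≃ₗ[k] (Bs ι → k), e 1 = Pi.single Bs.one 1 ∧ ∀ a b, e (a * b) = mu f (e a) (e b)

/-- vanishing in degrees `< i` -/
def VV (i : ℕ) (u : Bs ι → k) : Prop := ∀ l : Bs ι, l.deg < i → u l = 0

theorem mu_VV (f : ι → ι → ι → k) {i j : ℕ} {u w : Bs ι → k} (hu : VV i u) (hw : VV j w) :
    VV (i + j) (mu f u w) := by
  have key : ∀ l m : Bs ι, l.deg + m.deg < i + j → u l * w m = 0 := by
    intro l m h
    by_cases h1 : l.deg < i
    · rw [hu l h1, zero_mul]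
    · rw [hw m (by omega), mul_zero]
  intro l hl
  rcases l with (_ | l) | (_ | l)
  · exact key Bs.one Bs.one hl
  · have h1 : (1 : ℕ) < i + j := hl
    show mu f u w (Bs.x l) = 0
    rw [mu_x, key Bs.one (Bs.x l) (by simpa using h1), key (Bs.x l) Bs.one (by simpa using h1),
      add_zero]
  · have h1 : (3 : ℕ) < i + j := hl
    show mu f u w Bs.s = 0
    rw [mu_s, key Bs.one Bs.s (by simpa using h1), key Bs.s Bs.one (by simpa using h1),
      add_zero, zero_add]
    apply Finset.sum_eq_zero
    intro a _
    rw [key (Bs.x a) (Bs.z a) (by simpa using h1), key (Bs.z a) (Bs.x a) (by simpa using h1),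
      add_zero]
  · have h1 : (2 : ℕ) < i + j := hl
    show mu f u w (Bs.z l) = 0
    rw [mu_z, key Bs.one (Bs.z l) (by simpa using h1), key (Bs.z l) Bs.one (by simpa using h1),
      add_zero, zero_add]
    apply Finset.sum_eq_zero
    intro a _
    apply Finset.sum_eq_zero
    intro b _
    rw [key (Bs.x a) (Bs.x b) (by simpa using h1), mul_zero]

theorem mu_xx (f : ι → ι → ι → k) (a b : ι) :
    mu f (Pi.single (Bs.x a) 1) (Pi.single (Bs.x b) 1) = zvec (fun c => f a b c) := by
  apply Bs.ext
  · rw [mu_one]; simp
  · intro c; rw [mu_x]; simp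
  · intro c
    rw [mu_z]
    rw [Finset.sum_eq_single a, Finset.sum_eq_single b]
    · simp
    · intro b' _ hb'
      simp [hb']
    · simp
    · intro a' _ ha'
      simp [ha']
    · simp
  · rw [mu_s]; simp

theorem mu_xz (f : ι → ι → ι → k) (a b : ι) :
    mu f (Pi.single (Bs.x a) 1) (zvec (Pi.single b 1)) =
      if a = b then Pi.single Bs.s 1 else 0 := by
  by_cases h : a = b
  · subst h
    rw [if_pos rfl]
    apply Bs.ext
    · rw [mu_one]; simp
    · intro c; rw [mu_x]; simp
    · intro c; rw [mu_z]; simp
    · rw [mu_s]; simp [Pi.single_apply]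
  · rw [if_neg h]
    apply Bs.ext
    · rw [mu_one]; simp
    · intro c; rw [mu_x]; simp
    · intro c; rw [mu_z]; simp
    · rw [mu_s]; simp [Pi.single_apply, Ne.symm h]

section
variable {f : ι → ι → ι → k} {A : Type*} [CommRing A] [Algebra k A]
  {e : A ≃ₗ[k] (Bs ι → k)}

/-- the ideal of elements of degree at least `i` -/
def VI (e : A ≃ₗ[k] (Bs ι → k)) (hm : ∀ a b, e (a * b) = mu f (e a) (e b)) (i : ℕ) :
    Ideal A where
  carrier := {a | VV i (e a)}
  zero_mem' := by intro l _; simp
  add_mem' := by
    intro a b ha hb l hl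
    rw [map_add, Pi.add_apply, ha l hl, hb l hl, add_zero]
  smul_mem' := by
    intro c a ha
    show VV i (e (c * a))
    rw [hm]
    have : VV (0 + i) (mu f (e c) (e a)) := mu_VV f (fun l hl => absurd hl (by omega)) ha
    rwa [zero_add] at this

theorem mem_VI {hm : ∀ a b, e (a * b) = mu f (e a) (e b)} {i : ℕ} {a : A} :
    a ∈ VI e hm i ↔ VV i (e a) := Iff.rfl

theorem VI_pow_le (hm : ∀ a b, e (a * b) = mu f (e a) (e b)) (i : ℕ) :
    VI e hm 1 ^ i ≤ VI e hm i := by
  induction i with
  | zero =>
    intro a _ l hl
    exact absurd hl (by omega)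
  | succ i ih =>
    rw [pow_succ]
    rw [Ideal.mul_le]
    intro a ha b hb
    rw [mem_VI, hm]
    exact mu_VV f (ih ha) hb

theorem VI_eq_pow (hc : Concise f) [Nonempty ι] (hm : ∀ a b, e (a * b) = mu f (e a) (e b))
    (i : ℕ) : VI e hm 1 ^ i = VI e hm i := by
  apply le_antisymm (VI_pow_le hm i)
  have hx : ∀ a, e.symm (Pi.single (Bs.x a) 1) ∈ VI e hm 1 := by
    intro a
    rw [mem_VI, LinearEquiv.apply_symm_apply]
    intro l hl
    rcases l with (_ | l) | (_ | l)
    · simp
    · simp at hl
    · simp at hl
    · simp at hl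
  have hz : ∀ v : ι → k, e.symm (zvec v) ∈ VI e hm 1 ^ 2 := by
    have : (((VI e hm 1 ^ 2).restrictScalars k).comap e.symm.toLinearMap).comap
        (zvec : (ι → k) →ₗ[k] _) = ⊤ := by
      apply zspan hc
      intro a b
      rw [Submodule.mem_comap, Submodule.mem_comap, Submodule.restrictScalars_mem]
      have h1 : e.symm (zvec (fun c => f a b c)) =
          e.symm (Pi.single (Bs.x a) 1) * e.symm (Pi.single (Bs.x b) 1) := by
        rw [LinearEquiv.symm_apply_eq, hm, LinearEquiv.apply_symm_apply,
          LinearEquiv.apply_symm_apply, mu_xx]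
      show e.symm (zvec (fun c => f a b c)) ∈ VI e hm 1 ^ 2
      rw [h1, pow_two]
      exact Ideal.mul_mem_mul (hx a) (hx b)
    intro v
    have h2 : v ∈ (((VI e hm 1 ^ 2).restrictScalars k).comap e.symm.toLinearMap).comap
        (zvec : (ι → k) →ₗ[k] _) := by rw [this]; trivial
    exact h2
  have hs : e.symm (Pi.single Bs.s 1) ∈ VI e hm 1 ^ 3 := by
    obtain ⟨i⟩ := (inferInstance : Nonempty ι)
    have h1 : e.symm (Pi.single Bs.s 1) =
        e.symm (Pi.single (Bs.x i) 1) * e.symm (zvec (Pi.single i 1)) := by
      rw [LinearEquiv.symm_apply_eq, hm, LinearEquiv.apply_symm_apply,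
        LinearEquiv.apply_symm_apply, mu_xz, if_pos rfl]
    rw [h1, pow_succ' (VI e hm 1) 2]
    exact Ideal.mul_mem_mul (hx i) (hz _)
  have hsm : ∀ (I : Ideal A) (t : k) (a : A), a ∈ I → t • a ∈ I := by
    intro I t a ha
    rw [Algebra.smul_def]
    exact I.mul_mem_left _ ha
  intro a ha
  rw [mem_VI] at ha
  rcases i with _ | _ | _ | _ | i
  · simp
  · rw [pow_one]; exact ha
  · have h0 : e a Bs.one = 0 := ha Bs.one (by simp)
    have h1 : ∀ b, e a (Bs.x b) = 0 := fun b => ha (Bs.x b) (by simp)
    have h2 : a = e.symm (zvec (fun c => e a (Bs.z c))) +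
        e a Bs.s • e.symm (Pi.single Bs.s 1) := by
      rw [← map_smul, ← map_add, LinearEquiv.eq_symm_apply]
      conv_lhs => rw [eq_comb (e a)]
      simp [h0, h1]
    rw [h2]
    exact Ideal.add_mem _ (hz _) (hsm _ _ _ (Ideal.pow_le_pow_right (by omega) hs))
  · have h0 : e a Bs.one = 0 := ha Bs.one (by simp)
    have h1 : ∀ b, e a (Bs.x b) = 0 := fun b => ha (Bs.x b) (by simp)
    have h1' : ∀ b, e a (Bs.z b) = 0 := fun b => ha (Bs.z b) (by simp)
    have h2 : a = e a Bs.s • e.symm (Pi.single Bs.s 1) := by
      rw [← map_smul, LinearEquiv.eq_symm_apply]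
      apply Bs.ext
      · rw [h0]; simp
      · intro b; rw [h1]; simp
      · intro b; rw [h1']; simp
      · simp
    rw [h2]
    exact hsm _ _ _ hs
  · have h2 : a = 0 := by
      rw [← e.map_eq_zero_iff]
      funext l
      apply ha l
      rcases l with (_ | l) | (_ | l) <;> simp
    rw [h2]
    exact Ideal.zero_mem _

theorem VI_local (h1 : e 1 = Pi.single Bs.one 1) (hm : ∀ a b, e (a * b) = mu f (e a) (e b)) :
    IsLocalRing A ∧ ∀ a : A, a ∈ nonunits A ↔ a ∈ VI e hm 1 := by
  have hone : ∀ a b : A, e (a * b) Bs.one = e a Bs.one * e b Bs.one := by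
    intro a b
    rw [hm, mu_one]
  have hmem : ∀ a : A, a ∈ VI e hm 1 ↔ e a Bs.one = 0 := by
    intro a
    rw [mem_VI]
    constructor
    · intro h
      exact h Bs.one (by simp)
    · intro h l hl
      rcases l with (_ | l) | (_ | l)
      · exact h
      · simp at hl
      · simp at hl
      · simp at hl
  have hnil : ∀ a ∈ VI e hm 1, a ^ 4 = 0 := by
    intro a ha
    have h2 : a ^ 4 ∈ VI e hm 4 := VI_pow_le hm 4 (Ideal.pow_mem_pow ha 4)
    rw [← e.map_eq_zero_iff]
    funext l
    apply h2 l
    rcases l with (_ | l) | (_ | l) <;> simp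
  have hnt : Nontrivial A := by
    refine ⟨1, 0, fun h => ?_⟩
    have := congrFun (h1.symm.trans (by rw [h, map_zero])) Bs.one
    simp at this
  have key : ∀ a : A, a ∈ nonunits A ↔ a ∈ VI e hm 1 := by
    intro a
    constructor
    · intro ha
      by_contra hc
      apply ha
      rw [hmem] at hc
      have h2 : a = algebraMap k A (e a Bs.one) + (a - algebraMap k A (e a Bs.one)) := by ring
      rw [h2]
      have h3 : a - algebraMap k A (e a Bs.one) ∈ VI e hm 1 := by
        rw [hmem, map_sub, Algebra.algebraMap_eq_smul_one, map_smul, h1]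
        simp
      apply IsNilpotent.isUnit_add_left_of_commute ⟨4, hnil _ h3⟩
      · exact (IsUnit.mk0 _ hc).map (algebraMap k A)
      · exact Commute.all _ _
    · intro ha hu
      obtain ⟨b, hb⟩ := hu.exists_right_inv
      have h2 := hone a b
      rw [hb, h1, (hmem a).1 ha] at h2
      simp at h2
  refine ⟨?_, key⟩
  apply IsLocalRing.of_nonunits_add
  intro a b ha hb
  rw [key] at ha hb ⊢
  exact Ideal.add_mem _ ha hb

theorem card_deg (i : ℕ) : Fintype.card {l : Bs ι // l.deg = i} =
    if i = 0 ∨ i = 3 then 1 else if i = 1 ∨ i = 2 then Fintype.card ι else 0 := by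
  rw [Fintype.card_subtype, Finset.card_filter, Bs.sum_eq]
  simp only [Bs.deg_one, Bs.deg_x, Bs.deg_z, Bs.deg_s]
  rcases i with _ | _ | _ | _ | i
  · simp
  · simp
  · simp
  · simp
  · simp

/-- The model algebra of a concise tensor is Artinian Gorenstein with Hilbert function
`(1,r,r,1)`. -/
theorem Model.isAG [Nonempty ι] (hf : Sym3 f) (hc : Concise f) (h : Model f A) :
    IsAG k A (fun i => if i = 0 ∨ i = 3 then 1 else if i = 1 ∨ i = 2 then Fintype.card ι
      else 0) := by
  obtain ⟨e, h1, hm⟩ := h
  obtain ⟨hloc, hnu⟩ := VI_local h1 hm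
  have hmax : IsLocalRing.maximalIdeal A = VI e hm 1 := by
    ext a
    rw [IsLocalRing.mem_maximalIdeal]
    exact hnu a
  have hpow : ∀ i, IsLocalRing.maximalIdeal A ^ i = VI e hm i := by
    intro i
    rw [hmax, VI_eq_pow hc hm]
  refine ⟨Module.Finite.equiv e.symm, hloc, ?_, ?_⟩
  · intro i
    refine Eq.trans ?_ (card_deg (ι := ι) i)
    rw [hilbFun]
    have hfr : Fintype.card {l : Bs ι // l.deg = i} =
        Module.finrank k ({l : Bs ι // l.deg = i} → k) := by simp
    rw [hfr]
    let Q := (IsLocalRing.maximalIdeal A ^ (i + 1)).submoduleOf (IsLocalRing.maximalIdeal A ^ i)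
    let q : ↥(IsLocalRing.maximalIdeal A ^ i) →ₗ[k]
        (↥(IsLocalRing.maximalIdeal A ^ i) ⧸ Q) := Q.mkQ.restrictScalars k
    let φ : ↥(IsLocalRing.maximalIdeal A ^ i) →ₗ[k] ({l : Bs ι // l.deg = i} → k) :=
      { toFun := fun a l => e a.1 l.1
        map_add' := by intro a b; funext l; simp
        map_smul' := by intro t a; funext l; simp }
    obtain ⟨g, -⟩ := exists_equiv_of_ker q φ Q.mkQ_surjective
      (by
        intro w
        let u : Bs ι → k := fun l => if h : l.deg = i then w ⟨l, h⟩ else 0
        have hu : e.symm u ∈ IsLocalRing.maximalIdeal A ^ i := by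
          rw [hpow, mem_VI, LinearEquiv.apply_symm_apply]
          intro l hl
          exact dif_neg (by omega)
        refine ⟨⟨e.symm u, hu⟩, ?_⟩
        funext l
        show e (e.symm u) l.1 = w l
        rw [LinearEquiv.apply_symm_apply]
        exact dif_pos l.2)
      (by
        intro a
        have e1 : q a = 0 ↔ a ∈ Q := Submodule.Quotient.mk_eq_zero Q
        have e2 : a ∈ Q ↔ a.1 ∈ IsLocalRing.maximalIdeal A ^ (i + 1) := by
          show a ∈ Submodule.submoduleOf _ _ ↔ _
          rw [Submodule.submoduleOf, Submodule.mem_comap]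
          rfl
        rw [e1, e2, hpow, mem_VI]
        constructor
        · intro h
          funext l
          exact h l.1 (by rw [l.2]; omega)
        · intro h l hl
          by_cases h2 : l.deg = i
          · exact congrFun h ⟨l, h2⟩
          · have h3 : VV i (e a.1) :=
              (mem_VI (hm := hm)).1 ((le_of_eq (hpow i)) a.2)
            exact h3 l (by omega))
    exact LinearEquiv.finrank_eq g
  · have hsoc : ∀ a : A, a ∈ (IsLocalRing.maximalIdeal A).annihilator ↔ VV 3 (e a) := by
      intro a
      rw [Submodule.mem_annihilator, hmax]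
      constructor
      · intro h
        have hx : ∀ b, e.symm (Pi.single (Bs.x b) 1) ∈ VI e hm 1 := by
          intro b
          rw [mem_VI, LinearEquiv.apply_symm_apply]
          intro l hl
          rcases l with (_ | l) | (_ | l)
          · simp
          · simp at hl
          · simp at hl
          · simp at hl
        have h2 : ∀ b, mu f (e a) (Pi.single (Bs.x b) 1) = 0 := by
          intro b
          have := h _ (hx b)
          rw [smul_eq_mul] at this
          have := congrArg e this
          rwa [hm, LinearEquiv.apply_symm_apply, map_zero] at this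
        obtain ⟨b0⟩ := (inferInstance : Nonempty ι)
        have hone : e a Bs.one = 0 := by
          have := congrFun (h2 b0) (Bs.x b0)
          rw [mu_x] at this
          simpa using this
        have hzz : ∀ b, e a (Bs.z b) = 0 := by
          intro b
          have := congrFun (h2 b) Bs.s
          rw [mu_s] at this
          simpa [Pi.single_apply] using this
        have hxx : (fun b => e a (Bs.x b)) = 0 := by
          apply hc
          intro c d
          have := congrFun (h2 c) (Bs.z d)
          rw [mu_z, hone] at this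
          simp only [Pi.single_apply, zero_mul, Pi.zero_apply] at this
          have h3 : ∀ x, (∑ y, f x y d * (e a (Bs.x x) * if Bs.x y = Bs.x c then 1 else 0)) =
              f c d x * e a (Bs.x x) := by
            intro x
            rw [Finset.sum_eq_single c]
            · have : f x c d = f c d x := by rw [hf.1 x c d, hf.2 c x d]
              rw [if_pos rfl, this]
              ring
            · intro y _ hy
              rw [if_neg (by simpa using hy)]
              ring
            · simp
          simp only [h3] at this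
          simpa using this
        intro l hl
        rcases l with (_ | l) | (_ | l)
        · exact hone
        · exact congrFun hxx l
        · simp at hl
        · exact hzz l
      · intro h n hn
        rw [smul_eq_mul, ← e.map_eq_zero_iff, hm]
        have : VV (3 + 1) (mu f (e a) (e n)) := mu_VV f h hn
        funext l
        apply this l
        rcases l with (_ | l) | (_ | l) <;> simp
    let ψ : ↥(IsLocalRing.maximalIdeal A).annihilator →ₗ[k] k :=
      { toFun := fun a => e a.1 Bs.s
        map_add' := by intro a b; simp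
        map_smul' := by intro t a; simp }
    have hψi : Function.Injective ψ := by
      intro a b hab
      apply Subtype.ext
      apply e.injective
      have ha := (hsoc a.1).1 a.2
      have hb := (hsoc b.1).1 b.2
      apply Bs.ext
      · rw [ha _ (by simp), hb _ (by simp)]
      · intro i; rw [ha _ (by simp), hb _ (by simp)]
      · intro i; rw [ha _ (by simp), hb _ (by simp)]
      · exact hab
    have hψs : Function.Surjective ψ := by
      intro t
      have hmem : e.symm (t • Pi.single Bs.s 1) ∈ (IsLocalRing.maximalIdeal A).annihilator := by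
        rw [hsoc, LinearEquiv.apply_symm_apply]
        intro l hl
        rcases l with (_ | l) | (_ | l)
        · simp
        · simp
        · simp at hl
        · simp
      refine ⟨⟨_, hmem⟩, ?_⟩
      show e (e.symm (t • Pi.single Bs.s 1)) Bs.s = t
      rw [LinearEquiv.apply_symm_apply]
      simp
    rw [LinearEquiv.finrank_eq (LinearEquiv.ofBijective ψ ⟨hψi, hψs⟩)]
    exact Module.finrank_self k

end

end

end Q35.EC
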