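import Mathlib
import Pool.Agent.Q35.EC.Model

/-!
Trivial negative tangents for the cyclic cubic form `∑ x_i x_{i+1} x_{i+2}` in `r ≥ 8` variables.
-/

set_option autoImplicit false

namespace Q35.EC

open MvPolynomial

/-- consecutive triples -/
def Tri {r : ℕ} (a b c : ZMod r) : Prop :=
  (b = a + 1 ∧ c = a + 2) ∨ (b = a + 2 ∧ c = a + 1) ∨ (a = b + 1 ∧ c = b + 2) ∨
    (a = b + 2 ∧ c = b + 1) ∨ (a = c + 1 ∧ b = c + 2) ∨ (a = c + 2 ∧ b = c + 1)

instance {r : ℕ} (a b c : ZMod r) : Decidable (Tri a b c) := by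
  unfold Tri; infer_instance

/-- the tensor of the cyclic form -/
def fcyc (k : Type*) [Field k] {r : ℕ} (a b c : ZMod r) : k := if Tri a b c then 1 else 0

theorem Tri.swap12 {r : ℕ} (a b c : ZMod r) : Tri a b c ↔ Tri b a c := by
  unfold Tri; tauto

theorem Tri.swap23 {r : ℕ} (a b c : ZMod r) : Tri a b c ↔ Tri a c b := by
  unfold Tri; tauto

theorem fcyc_sym (k : Type*) [Field k] (r : ℕ) : Sym3 (fcyc k : ZMod r → ZMod r → ZMod r → k) := by
  constructor
  · intro a b c
    unfold fcyc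
    simp only [Tri.swap12 a b c]
  · intro a b c
    unfold fcyc
    simp only [Tri.swap23 a b c]

/-- equal or far apart -/
def EE {r : ℕ} (a b : ZMod r) : Prop := b ≠ a + 1 ∧ b ≠ a + 2 ∧ a ≠ b + 1 ∧ a ≠ b + 2

theorem EE.symm {r : ℕ} {a b : ZMod r} (h : EE a b) : EE b a := by
  unfold EE at *; tauto

theorem fcyc_of_EE {k : Type*} [Field k] {r : ℕ} {a b : ZMod r} (h : EE a b) (c : ZMod r) :
    fcyc k a b c = 0 := by
  unfold fcyc
  rw [if_neg]
  obtain ⟨h1, h2, h3, h4⟩ := h
  rintro (h | h | h | h | h | h)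
  · exact h1 h.1
  · exact h2 h.1
  · exact h3 h.1
  · exact h4 h.1
  · apply h1; rw [h.1, h.2]; ring
  · apply h3; rw [h.1, h.2]; ring

section
variable {r : ℕ}

theorem ne_zero_of {d : ℤ} (h0 : d ≠ 0) (h1 : d < r) (h2 : -(r : ℤ) < d) :
    ((d : ℤ) : ZMod r) ≠ 0 := by
  intro h
  rw [ZMod.intCast_zmod_eq_zero_iff_dvd] at h
  apply h0
  exact Int.eq_zero_of_abs_lt_dvd h (abs_lt.2 ⟨h2, h1⟩)

theorem EE_of (c : ZMod r) (m n t : ℤ)
    (h : m - n - t * r = 0 ∨ 3 ≤ m - n - t * r ∨ m - n - t * r ≤ -3)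
    (h1 : m - n - t * r ≤ r - 3) (h2 : -(r - 3 : ℤ) ≤ m - n - t * r) (hr : 5 ≤ r) :
    EE (c + (m : ZMod r)) (c + (n : ZMod r)) := by
  have hr0 : ((r : ℤ) : ZMod r) = 0 := by simp
  have key : ∀ j : ℤ, (j = 1 ∨ j = 2 ∨ j = -1 ∨ j = -2) →
      ((m : ZMod r) - n + j) ≠ 0 := by
    intro j hj hc
    have h3 : (((m - n - t * r + j : ℤ)) : ZMod r) = 0 := by
      push_cast
      push_cast at hr0
      rw [hr0]
      linear_combination hc
    revert h3
    apply ne_zero_of <;> omega
  refine ⟨fun h => ?_, fun h => ?_, fun h => ?_, fun h => ?_⟩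
  · apply key 1 (by simp)
    push_cast
    linear_combination -h
  · apply key 2 (by simp)
    push_cast
    linear_combination -h
  · apply key (-1) (by simp)
    push_cast
    linear_combination h
  · apply key (-2) (by simp)
    push_cast
    linear_combination h

/-- values at pairs at distance one -/
theorem tri_one (hr : 8 ≤ r) (i l : ZMod r) : Tri i (i + 1) l ↔ l = i + 2 ∨ l = i - 1 := by
  have n1 : ((1 : ℤ) : ZMod r) ≠ 0 := ne_zero_of (by norm_num) (by omega) (by omega)
  have n2 : ((2 : ℤ) : ZMod r) ≠ 0 := ne_zero_of (by norm_num) (by omega) (by omega)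
  have n3 : ((3 : ℤ) : ZMod r) ≠ 0 := ne_zero_of (by norm_num) (by omega) (by omega)
  push_cast at n1 n2 n3
  unfold Tri
  constructor
  · rintro (h | h | h | h | h | h)
    · exact Or.inl h.2
    · exact absurd (by linear_combination -h.1 : (1 : ZMod r) = 0) n1
    · exact absurd (by linear_combination -h.1 : (2 : ZMod r) = 0) n2
    · exact absurd (by linear_combination -h.1 : (3 : ZMod r) = 0) n3
    · right; linear_combination -h.1
    · exact absurd (by linear_combination h.2 - h.1 : (2 : ZMod r) = 0) n2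
  · rintro (rfl | rfl)
    · left; exact ⟨rfl, rfl⟩
    · right; right; right; right; left
      constructor <;> ring

theorem tri_two (hr : 8 ≤ r) (i l : ZMod r) : Tri i (i + 2) l ↔ l = i + 1 := by
  have n1 : ((1 : ℤ) : ZMod r) ≠ 0 := ne_zero_of (by norm_num) (by omega) (by omega)
  have n2 : ((2 : ℤ) : ZMod r) ≠ 0 := ne_zero_of (by norm_num) (by omega) (by omega)
  have n3 : ((3 : ℤ) : ZMod r) ≠ 0 := ne_zero_of (by norm_num) (by omega) (by omega)
  have n4 : ((4 : ℤ) : ZMod r) ≠ 0 := ne_zero_of (by norm_num) (by omega) (by omega)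
  push_cast at n1 n2 n3 n4
  unfold Tri
  constructor
  · rintro (h | h | h | h | h | h)
    · exact absurd (by linear_combination h.1 : (1 : ZMod r) = 0) n1
    · exact h.2
    · exact absurd (by linear_combination -h.1 : (3 : ZMod r) = 0) n3
    · exact absurd (by linear_combination -h.1 : (4 : ZMod r) = 0) n4
    · exact absurd (by linear_combination h.2 - h.1 : (1 : ZMod r) = 0) n1
    · exact absurd (by linear_combination h.2 - h.1 : (3 : ZMod r) = 0) n3
  · rintro rfl
    right; left; exact ⟨rfl, rfl⟩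

theorem fcyc_q {k : Type*} [Field k] (hr : 8 ≤ r) (i l : ZMod r) :
    fcyc k i (i + 1) l = fcyc k (i - 2) i l + fcyc k (i + 1) (i + 3) l := by
  have n3 : ((3 : ℤ) : ZMod r) ≠ 0 := ne_zero_of (by norm_num) (by omega) (by omega)
  push_cast at n3
  have h2 : Tri (i - 2) i l ↔ l = i - 1 := by
    have := tri_two hr (i - 2) l
    rw [show i - 2 + 2 = i by ring, show i - 2 + 1 = i - 1 by ring] at this
    exact this
  have h3 : Tri (i + 1) (i + 3) l ↔ l = i + 2 := by
    have := tri_two hr (i + 1) l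
    rw [show i + 1 + 2 = i + 3 by ring, show i + 1 + 1 = i + 2 by ring] at this
    exact this
  unfold fcyc
  simp only [tri_one hr, h2, h3]
  by_cases a : l = i + 2
  · have b : l ≠ i - 1 := by
      intro hb
      exact n3 (by linear_combination hb - a)
    simp [a, show i + 2 ≠ i - 1 from a ▸ b]
  · simp [a]

end

end Q35.EC
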