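import Mathlib
import Pool.Agent.Q35.EC.Cyc

/-!
Trivial negative tangents for the cyclic cubic form, part 2: the main computation.
-/

set_option autoImplicit false

namespace Q35.EC

open MvPolynomial

section
variable {k : Type*} [Field k] {r : ℕ} [NeZero r]

/-- the standard monomial basis -/
noncomputable def bb (k : Type*) [Field k] (r : ℕ) : Bs (ZMod r) → MvPolynomial (ZMod r) k
  | Sum.inl none => 1
  | Sum.inl (some a) => X a
  | Sum.inr (some c) => X (c - 1) * X (c + 1)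
  | Sum.inr none => X 1 * (X (1 - 1) * X (1 + 1))

/-- variables around `c` -/
noncomputable def Y (k : Type*) [Field k] {r : ℕ} (c : ZMod r) (n : ℤ) :
    MvPolynomial (ZMod r) k := X (c + (n : ZMod r))

variable {π : MvPolynomial (ZMod r) k →ₗ[k] (Bs (ZMod r) → k)}

theorem fcyc_mid (hr : 8 ≤ r) (c l : ZMod r) :
    fcyc k (c - 1) (c + 1) l = if l = c then 1 else 0 := by
  have := tri_two hr (c - 1) l
  rw [show c - 1 + 2 = c + 1 by ring, show c - 1 + 1 = c by ring] at this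
  unfold fcyc
  simp only [this]

theorem pi_bb (hr : 8 ≤ r) (h1 : π 1 = Pi.single Bs.one 1)
    (h2 : ∀ i g, π (X i * g) = (MM (fcyc k) i).mulVec (π g)) (m : Bs (ZMod r)) :
    π (bb k r m) = Pi.single m 1 := by
  rcases m with (_ | m) | (_ | m)
  · exact h1
  · exact pi_X h1 h2 m
  · apply Bs.ext
    · rw [bb, pi_XXX_one h1 h2]; simp
    · intro i; rw [bb, pi_XXX_x h1 h2]; simp
    · intro i; rw [bb, pi_XXX_z h1 h2]; simp
    · rw [bb, pi_XXX_s h1 h2, fcyc_mid hr]; simp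
  · apply Bs.ext
    · rw [bb, pi_XX_one h1 h2]; simp
    · intro i; rw [bb, pi_XX_x h1 h2]; simp
    · intro i; rw [bb, pi_XX_z h1 h2, fcyc_mid hr]
      simp [Pi.single_apply]
    · rw [bb, pi_XX_s h1 h2]; simp

theorem pi_surj (hr : 8 ≤ r) (h1 : π 1 = Pi.single Bs.one 1)
    (h2 : ∀ i g, π (X i * g) = (MM (fcyc k) i).mulVec (π g)) : Function.Surjective π := by
  intro w
  refine ⟨∑ m, w m • bb k r m, ?_⟩
  rw [map_sum]
  simp only [map_smul, pi_bb hr h1 h2]
  funext l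
  rw [Finset.sum_apply]
  simp [Pi.single_apply]

theorem pi_E (h1 : π 1 = Pi.single Bs.one 1)
    (h2 : ∀ i g, π (X i * g) = (MM (fcyc k) i).mulVec (π g)) {a b : ZMod r} (h : EE a b) :
    π (X a * X b) = 0 := by
  apply Bs.ext
  · rw [pi_XX_one h1 h2]; rfl
  · intro i; rw [pi_XX_x h1 h2]; rfl
  · intro i; rw [pi_XX_z h1 h2, fcyc_of_EE h]; rfl
  · rw [pi_XX_s h1 h2]; rfl

theorem pi_Y (hr : 8 ≤ r) (h1 : π 1 = Pi.single Bs.one 1)
    (h2 : ∀ i g, π (X i * g) = (MM (fcyc k) i).mulVec (π g)) (c : ZMod r) (m n : ℤ) (t : ℤ)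
    (h : m - n - t * r = 0 ∨ 3 ≤ m - n - t * r ∨ m - n - t * r ≤ -3)
    (h3 : m - n - t * r ≤ r - 3) (h4 : -(r - 3 : ℤ) ≤ m - n - t * r) :
    π (Y k c m * Y k c n) = 0 :=
  pi_E h1 h2 (EE_of c m n t h h3 h4 (by omega))

theorem pi_q (hr : 8 ≤ r) (h1 : π 1 = Pi.single Bs.one 1)
    (h2 : ∀ i g, π (X i * g) = (MM (fcyc k) i).mulVec (π g)) (c : ZMod r) (n n1 n2 n3 : ℤ)
    (e1 : n1 = n + 1) (e2 : n2 = n - 2) (e3 : n3 = n + 3) :
    π (Y k c n * Y k c n1 - Y k c n2 * Y k c n - Y k c n1 * Y k c n3) = 0 := by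
  subst e1 e2 e3
  rw [map_sub, map_sub]
  have a1 : c + (((n + 1 : ℤ)) : ZMod r) = (c + (n : ZMod r)) + 1 := by push_cast; ring
  have a2 : c + (((n - 2 : ℤ)) : ZMod r) = (c + (n : ZMod r)) - 2 := by push_cast; ring
  have a3 : c + (((n + 3 : ℤ)) : ZMod r) = (c + (n : ZMod r)) + 3 := by push_cast; ring
  unfold Y
  rw [a1, a2, a3]
  apply Bs.ext
  · simp only [Pi.sub_apply, pi_XX_one h1 h2]; simp
  · intro i; simp only [Pi.sub_apply, pi_XX_x h1 h2]; simp
  · intro i
    simp only [Pi.sub_apply, pi_XX_z h1 h2]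
    rw [fcyc_q hr]
    simp
  · simp only [Pi.sub_apply, pi_XX_s h1 h2]; simp

/-- the functional `f ↦ (φ f)_s` kills products of two elements of the ideal -/
theorem phi_PQ (hr : 8 ≤ r) (h1 : π 1 = Pi.single Bs.one 1)
    (h2 : ∀ i g, π (X i * g) = (MM (fcyc k) i).mulVec (π g))
    (φ : MvPolynomial (ZMod r) k →ₗ[k] (Bs (ZMod r) → k))
    (hφ : ∀ f, π f = 0 → ∀ i, φ (X i * f) = (MM (fcyc k) i).mulVec (φ f)) :
    ∀ P Q, π P = 0 → π Q = 0 → φ (P * Q) = 0 := by
  obtain ⟨ρ, hρ⟩ := exists_act (k := k) (fun i : ZMod r => Matrix.toLin' (MM (fcyc k) i : Matrix _ _ k))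
    (by
      intro i j
      rw [Module.End.mul_eq_comp, Module.End.mul_eq_comp, ← Matrix.toLin'_mul,
        ← Matrix.toLin'_mul, MM_comm (fcyc_sym k r)])
  have hπmul : ∀ g h, π (g * h) = ρ g (π h) := by
    intro g
    induction g using MvPolynomial.induction_on with
    | C a =>
      intro h
      rw [← MvPolynomial.smul_eq_C_mul, map_smul]
      have : (C a : MvPolynomial (ZMod r) k) = algebraMap k _ a := rfl
      rw [this, AlgHom.commutes]
      rfl
    | add p q hp hq => intro h; rw [add_mul, map_add, map_add, hp, hq]; rfl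
    | mul_X p i hp =>
      intro h
      rw [mul_assoc, hp, h2, map_mul, hρ]
      rfl
  have hφmul : ∀ g h, π h = 0 → φ (g * h) = ρ g (φ h) := by
    intro g
    induction g using MvPolynomial.induction_on with
    | C a =>
      intro h _
      rw [← MvPolynomial.smul_eq_C_mul, map_smul]
      have : (C a : MvPolynomial (ZMod r) k) = algebraMap k _ a := rfl
      rw [this, AlgHom.commutes]
      rfl
    | add p q hp hq => intro h hh; rw [add_mul, map_add, map_add, hp h hh, hq h hh]; rfl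
    | mul_X p i hp =>
      intro h hh
      have : π (X i * h) = 0 := by rw [h2, hh, Matrix.mulVec_zero]
      rw [mul_assoc, hp _ this, hφ h hh, map_mul, hρ]
      rfl
  have hρ0 : ∀ Q, π Q = 0 → ρ Q = 0 := by
    intro Q hQ
    apply LinearMap.ext
    intro w
    obtain ⟨g, rfl⟩ := pi_surj hr h1 h2 w
    rw [← hπmul, mul_comm, hπmul, hQ, map_zero]
    rfl
  intro P Q hP hQ
  rw [hφmul P Q hQ, hρ0 P hP]
  rfl

end

end Q35.EC
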