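import Mathlib
import Pool.Agent.Q35.EC.Cyc2

/-!
The combinatorial core: a functional killing the square of the quadratic part of the apolar ideal
of the cyclic form.
-/

set_option autoImplicit false

namespace Q35.EC

open MvPolynomial

section
variable {k : Type*} [Field k] [CharZero k] {r : ℕ} [NeZero r]
  {π : MvPolynomial (ZMod r) k →ₗ[k] (Bs (ZMod r) → k)}


theorem Y_shift (c c' : ZMod r) (m n : ℤ) (h : c + (m : ZMod r) = c' + (n : ZMod r)) :
    Y k c m = Y k c' n := by
  unfold Y; rw [h]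

theorem core (hr : 8 ≤ r) (h1 : π 1 = Pi.single Bs.one 1)
    (h2 : ∀ i g, π (X i * g) = (MM (fcyc k) i).mulVec (π g))
    (L : MvPolynomial (ZMod r) k →ₗ[k] k)
    (hPQ : ∀ P Q, π P = 0 → π Q = 0 → L (P * Q) = 0)
    (h0 : ∀ c, L (Y k c 0 * (Y k c 3 * Y k c 4 * Y k c 5)) = 0) (a b l : ZMod r) (hab : EE a b) :
    L (X (l - 1) * X (l + 1) * (X a * X b)) = 0 := by
  have EY : ∀ (c : ZMod r) (m n : ℤ), (m - n = 0 ∨ 3 ≤ m - n ∨ m - n ≤ -3) → m - n ≤ 5 →
      -5 ≤ m - n → π (Y k c m * Y k c n) = 0 := by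
    intro c m n a1 a2 a3
    apply pi_Y hr h1 h2 c m n 0 <;> omega
  have hq := pi_q hr h1 h2
  have hr0 : (r : ZMod r) = 0 := by simp
  -- A6
  have A6 : ∀ c, L (Y k c 0 * Y k c 0 * (Y k c (-2) * Y k c (-3))) = 0 := by
    intro c
    have e : Y k c 0 * Y k c 0 * (Y k c (-2) * Y k c (-3)) =
      (Y k c 1 * Y k c (-3)) * (Y k c 0 * Y k c 0) - (Y k c 3 * Y k c 0) * (Y k c 1 * Y k c (-3)) -
        (Y k c 0 * Y k c 1 - Y k c (-2) * Y k c 0 - Y k c 1 * Y k c 3) * (Y k c 0 * Y k c (-3)) := by ring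
    rw [e, map_sub, map_sub,
      hPQ _ _ (EY c 1 (-3) (by omega) (by omega) (by omega))
        (EY c 0 0 (by omega) (by omega) (by omega)),
      hPQ _ _ (EY c 3 0 (by omega) (by omega) (by omega))
        (EY c 1 (-3) (by omega) (by omega) (by omega)),
      hPQ _ _ (hq c 0 1 (-2) 3 (by norm_num) (by norm_num) (by norm_num))
        (EY c 0 (-3) (by omega) (by omega) (by omega))]
    ring
  have A6' : ∀ c, L (Y k c 0 * Y k c 0 * (Y k c 2 * Y k c 3)) = 0 := by
    intro c
    have e : Y k c 0 * Y k c 0 * (Y k c 2 * Y k c 3) =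
      (Y k c (-1) * Y k c 3) * (Y k c 0 * Y k c 0) - (Y k c (-3) * Y k c 0) * (Y k c (-1) * Y k c 3) -
        (Y k c (-1) * Y k c 0 - Y k c (-3) * Y k c (-1) - Y k c 0 * Y k c 2) * (Y k c 0 * Y k c 3) := by ring
    rw [e, map_sub, map_sub,
      hPQ _ _ (EY c (-1) 3 (by omega) (by omega) (by omega))
        (EY c 0 0 (by omega) (by omega) (by omega)),
      hPQ _ _ (EY c (-3) 0 (by omega) (by omega) (by omega))
        (EY c (-1) 3 (by omega) (by omega) (by omega)),
      hPQ _ _ (hq c (-1) 0 (-3) 2 (by norm_num) (by norm_num) (by norm_num))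
        (EY c 0 3 (by omega) (by omega) (by omega))]
    ring
  -- A2
  have A2 : ∀ c, L (Y k c 0 * Y k c 0 * (Y k c 1 * Y k c 3)) = 0 := by
    intro c
    have e : Y k c 0 * Y k c 0 * (Y k c 1 * Y k c 3) =
      (Y k c 0 * Y k c 1 - Y k c (-2) * Y k c 0 - Y k c 1 * Y k c 3) * (Y k c 0 * Y k c 3) +
        (Y k c 0 * Y k c 0) * (Y k c (-2) * Y k c 3) + Y k c 3 * Y k c 3 * (Y k c 1 * Y k c 0) := by ring
    have e2 := A6 (c + 3)
    rw [Y_shift (c + 3) c 0 3 (by push_cast; ring),
      Y_shift (c + 3) c (-2) 1 (by push_cast; ring),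
      Y_shift (c + 3) c (-3) 0 (by push_cast; ring)] at e2
    rw [e, map_add, map_add, e2,
      hPQ _ _ (hq c 0 1 (-2) 3 (by norm_num) (by norm_num) (by norm_num))
        (EY c 0 3 (by omega) (by omega) (by omega)),
      hPQ _ _ (EY c 0 0 (by omega) (by omega) (by omega))
        (EY c (-2) 3 (by omega) (by omega) (by omega))]
    ring
  have A2' : ∀ c, L (Y k c 0 * Y k c 0 * (Y k c (-1) * Y k c (-3))) = 0 := by
    intro c
    have e : Y k c 0 * Y k c 0 * (Y k c (-1) * Y k c (-3)) =
      (Y k c (-1) * Y k c 0 - Y k c (-3) * Y k c (-1) - Y k c 0 * Y k c 2) * (Y k c 0 * Y k c (-3)) +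
        (Y k c 0 * Y k c 0) * (Y k c 2 * Y k c (-3)) + Y k c (-3) * Y k c (-3) * (Y k c (-1) * Y k c 0) := by ring
    have e2 := A6' (c - 3)
    rw [Y_shift (c - 3) c 0 (-3) (by push_cast; ring),
      Y_shift (c - 3) c 2 (-1) (by push_cast; ring),
      Y_shift (c - 3) c 3 0 (by push_cast; ring)] at e2
    rw [e, map_add, map_add, e2,
      hPQ _ _ (hq c (-1) 0 (-3) 2 (by norm_num) (by norm_num) (by norm_num))
        (EY c 0 (-3) (by omega) (by omega) (by omega)),
      hPQ _ _ (EY c 0 0 (by omega) (by omega) (by omega))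
        (EY c 2 (-3) (by omega) (by omega) (by omega))]
    ring
  -- Z
  have Zp : ∀ c, L (Y k c 0 * Y k c 0 * (Y k c 2 * Y k c 4)) = 0 := by
    intro c
    have e : Y k c 0 * Y k c 0 * (Y k c 2 * Y k c 4) =
      (Y k c 0 * Y k c 0) * (Y k c (-1) * Y k c 4) - (Y k c (-3) * Y k c 0) * (Y k c (-1) * Y k c 4) -
        (Y k c (-1) * Y k c 0 - Y k c (-3) * Y k c (-1) - Y k c 0 * Y k c 2) * (Y k c 0 * Y k c 4) := by ring
    rw [e, map_sub, map_sub,
      hPQ _ _ (EY c 0 0 (by omega) (by omega) (by omega))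
        (EY c (-1) 4 (by omega) (by omega) (by omega)),
      hPQ _ _ (EY c (-3) 0 (by omega) (by omega) (by omega))
        (EY c (-1) 4 (by omega) (by omega) (by omega)),
      hPQ _ _ (hq c (-1) 0 (-3) 2 (by norm_num) (by norm_num) (by norm_num))
        (EY c 0 4 (by omega) (by omega) (by omega))]
    ring
  have Zm : ∀ c, L (Y k c 0 * Y k c 0 * (Y k c (-2) * Y k c (-4))) = 0 := by
    intro c
    have e : Y k c 0 * Y k c 0 * (Y k c (-2) * Y k c (-4)) =
      (Y k c 0 * Y k c 0) * (Y k c 1 * Y k c (-4)) - (Y k c 3 * Y k c 0) * (Y k c 1 * Y k c (-4)) -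
        (Y k c 0 * Y k c 1 - Y k c (-2) * Y k c 0 - Y k c 1 * Y k c 3) * (Y k c 0 * Y k c (-4)) := by ring
    rw [e, map_sub, map_sub,
      hPQ _ _ (EY c 0 0 (by omega) (by omega) (by omega))
        (EY c 1 (-4) (by omega) (by omega) (by omega)),
      hPQ _ _ (EY c 3 0 (by omega) (by omega) (by omega))
        (EY c 1 (-4) (by omega) (by omega) (by omega)),
      hPQ _ _ (hq c 0 1 (-2) 3 (by norm_num) (by norm_num) (by norm_num))
        (EY c 0 (-4) (by omega) (by omega) (by omega))]
    ring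
  -- cubes
  have A4' : ∀ c, L (Y k c 0 * Y k c 0 * (Y k c 0 * Y k c 2)) = 0 := by
    intro c
    have e : Y k c 0 * Y k c 0 * (Y k c 0 * Y k c 2) =
      Y k c 0 * Y k c 0 * (Y k c 2 * Y k c 3) - (Y k c 0 * Y k c 5) * (Y k c 0 * Y k c 3) -
        (Y k c 2 * Y k c 3 - Y k c 0 * Y k c 2 - Y k c 3 * Y k c 5) * (Y k c 0 * Y k c 0) := by ring
    rw [e, map_sub, map_sub, A6' c,
      hPQ _ _ (EY c 0 5 (by omega) (by omega) (by omega))
        (EY c 0 3 (by omega) (by omega) (by omega)),
      hPQ _ _ (hq c 2 3 0 5 (by norm_num) (by norm_num) (by norm_num))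
        (EY c 0 0 (by omega) (by omega) (by omega))]
    ring
  have A4 : ∀ c, L (Y k c 0 * Y k c 0 * (Y k c 0 * Y k c (-2))) = 0 := by
    intro c
    have e : Y k c 0 * Y k c 0 * (Y k c 0 * Y k c (-2)) =
      Y k c 0 * Y k c 0 * (Y k c (-2) * Y k c (-3)) - (Y k c 0 * Y k c (-5)) * (Y k c 0 * Y k c (-3)) -
        (Y k c (-3) * Y k c (-2) - Y k c (-5) * Y k c (-3) - Y k c (-2) * Y k c 0) * (Y k c 0 * Y k c 0) := by
      ring
    rw [e, map_sub, map_sub, A6 c,
      hPQ _ _ (EY c 0 (-5) (by omega) (by omega) (by omega))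
        (EY c 0 (-3) (by omega) (by omega) (by omega)),
      hPQ _ _ (hq c (-3) (-2) (-5) 0 (by norm_num) (by norm_num) (by norm_num))
        (EY c 0 0 (by omega) (by omega) (by omega))]
    ring
  -- chain
  have C2 : ∀ c, L (Y k c 0 * (Y k c 2 * Y k c 3 * Y k c 4)) = 0 := by
    intro c
    have e : Y k c 0 * (Y k c 2 * Y k c 3 * Y k c 4) =
      Y k c 0 * (Y k c 3 * Y k c 4 * Y k c 5) -
        (Y k c 4 * Y k c 5 - Y k c 2 * Y k c 4 - Y k c 5 * Y k c 7) * (Y k c 0 * Y k c 3) -
        (Y k c 0 * Y k c 5) * (Y k c 3 * Y k c 7) := by ring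
    rw [e, map_sub, map_sub, h0 c,
      hPQ _ _ (hq c 4 5 2 7 (by norm_num) (by norm_num) (by norm_num))
        (EY c 0 3 (by omega) (by omega) (by omega)),
      hPQ _ _ (EY c 0 5 (by omega) (by omega) (by omega))
        (EY c 3 7 (by omega) (by omega) (by omega))]
    ring
  have C3 : ∀ c, ∀ m : ℤ, 3 ≤ m → m ≤ r - 4 →
      L (Y k c 0 * (Y k c m * Y k c (m + 1) * Y k c (m + 2))) = 0 := by
    intro c m hm
    induction m, hm using Int.le_induction with
    | base =>
      intro _
      have := h0 c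
      exact this
    | succ m hm ih =>
      intro hmr
      have e : Y k c 0 * (Y k c (m + 1) * Y k c (m + 1 + 1) * Y k c (m + 1 + 2)) =
        Y k c 0 * (Y k c m * Y k c (m + 1) * Y k c (m + 2)) -
          (Y k c m * Y k c (m + 1) - Y k c (m - 2) * Y k c m - Y k c (m + 1) * Y k c (m + 3)) *
            (Y k c 0 * Y k c (m + 2)) -
          (Y k c 0 * Y k c m) * (Y k c (m - 2) * Y k c (m + 2)) := by
        rw [show m + 1 + 1 = m + 2 by ring, show m + 1 + 2 = m + 3 by ring]
        ring
      rw [e, map_sub, map_sub, ih (by omega),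
        hPQ _ _ (hq c m (m + 1) (m - 2) (m + 3) rfl rfl rfl)
          (pi_Y hr h1 h2 c 0 (m + 2) 0 (by omega) (by omega) (by omega)),
        hPQ _ _ (pi_Y hr h1 h2 c 0 m 0 (by omega) (by omega) (by omega))
          (EY c (m - 2) (m + 2) (by omega) (by omega) (by omega))]
      ring
  have C : ∀ c (i j j1 j2 m t : ℤ), m = j - i + t * r → 2 ≤ m → m ≤ r - 4 → j1 = j + 1 →
      j2 = j + 2 → L (Y k c i * (Y k c j * Y k c j1 * Y k c j2)) = 0 := by
    intro c i j j1 j2 m t hm m2 mr e1 e2
    subst e1 e2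
    have key : L (Y k (c + (i : ZMod r)) 0 * (Y k (c + (i : ZMod r)) m *
        Y k (c + (i : ZMod r)) (m + 1) * Y k (c + (i : ZMod r)) (m + 2))) = 0 := by
      rcases eq_or_lt_of_le m2 with h | h
      · subst h
        exact C2 _
      · exact C3 _ m (by omega) mr
    have hz : (((t * r : ℤ)) : ZMod r) = 0 := by push_cast; rw [hr0, mul_zero]
    have hm' : (m : ZMod r) = (j : ZMod r) - i := by
      rw [hm]
      push_cast at hz ⊢
      rw [hz, add_zero]
    rw [Y_shift (c + (i : ZMod r)) c 0 i (by push_cast; ring),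
      Y_shift (c + (i : ZMod r)) c m j (by rw [hm']; ring),
      Y_shift (c + (i : ZMod r)) c (m + 1) (j + 1) (by push_cast; rw [hm']; ring),
      Y_shift (c + (i : ZMod r)) c (m + 2) (j + 2) (by push_cast; rw [hm']; ring)] at key
    exact key
  -- V, W, U
  have V : ∀ c, L (Y k c 0 * Y k c 0 * (Y k c 1 * Y k c 2)) = L (Y k c 0 * Y k c 0 * (Y k c (-1) * Y k c 1)) := by
    intro c
    have e : Y k c 0 * Y k c 0 * (Y k c 1 * Y k c 2) =
      Y k c 0 * Y k c 0 * (Y k c (-1) * Y k c 1) + Y k c 0 * Y k c 0 * (Y k c 2 * Y k c 4) +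
        (Y k c 1 * Y k c 2 - Y k c (-1) * Y k c 1 - Y k c 2 * Y k c 4) * (Y k c 0 * Y k c 0) := by ring
    rw [e, map_add, map_add, Zp c,
      hPQ _ _ (hq c 1 2 (-1) 4 (by norm_num) (by norm_num) (by norm_num))
        (EY c 0 0 (by omega) (by omega) (by omega))]
    ring
  have V' : ∀ c, L (Y k c 0 * Y k c 0 * (Y k c (-2) * Y k c (-1))) =
      L (Y k c 0 * Y k c 0 * (Y k c (-1) * Y k c 1)) := by
    intro c
    have e : Y k c 0 * Y k c 0 * (Y k c (-2) * Y k c (-1)) =
      Y k c 0 * Y k c 0 * (Y k c (-1) * Y k c 1) + Y k c 0 * Y k c 0 * (Y k c (-2) * Y k c (-4)) +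
        (Y k c (-2) * Y k c (-1) - Y k c (-4) * Y k c (-2) - Y k c (-1) * Y k c 1) * (Y k c 0 * Y k c 0) := by
      ring
    rw [e, map_add, map_add, Zm c,
      hPQ _ _ (hq c (-2) (-1) (-4) 1 (by norm_num) (by norm_num) (by norm_num))
        (EY c 0 0 (by omega) (by omega) (by omega))]
    ring
  have HW : ∀ c, L (Y k c 0 * Y k c 0 * (Y k c (-1) * Y k c 1)) =
      L (Y k (c - 3) 0 * (Y k (c - 3) 1 * Y k (c - 3) 2 * Y k (c - 3) 3)) +
        L (Y k c 0 * (Y k c 1 * Y k c 2 * Y k c 3)) := by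
    intro c
    rw [Y_shift (c - 3) c 0 (-3) (by push_cast; ring),
      Y_shift (c - 3) c 1 (-2) (by push_cast; ring),
      Y_shift (c - 3) c 2 (-1) (by push_cast; ring),
      Y_shift (c - 3) c 3 0 (by push_cast; ring)]
    have e := hPQ _ _ (hq c 0 1 (-2) 3 (by norm_num) (by norm_num) (by norm_num))
      (hq c (-1) 0 (-3) 2 (by norm_num) (by norm_num) (by norm_num))
    have e' : (Y k c 0 * Y k c 1 - Y k c (-2) * Y k c 0 - Y k c 1 * Y k c 3) *
      (Y k c (-1) * Y k c 0 - Y k c (-3) * Y k c (-1) - Y k c 0 * Y k c 2) =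
      Y k c 0 * Y k c 0 * (Y k c (-1) * Y k c 1) - Y k c (-3) * (Y k c (-1) * Y k c 0 * Y k c 1)
        - Y k c 0 * Y k c 0 * (Y k c 1 * Y k c 2) - Y k c 0 * Y k c 0 * (Y k c (-2) * Y k c (-1))
        + Y k c (-3) * (Y k c (-2) * Y k c (-1) * Y k c 0) + (Y k c 0 * Y k c 0) * (Y k c (-2) * Y k c 2)
        - Y k c 3 * (Y k c (-1) * Y k c 0 * Y k c 1) + (Y k c (-3) * Y k c 1) * (Y k c (-1) * Y k c 3)
        + Y k c 0 * (Y k c 1 * Y k c 2 * Y k c 3) := by ring
    rw [e'] at e
    simp only [map_add, map_sub] at e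
    rw [C c (-3) (-1) 0 1 2 0 (by norm_num) (by norm_num) (by omega) (by norm_num) (by norm_num),
      C c 3 (-1) 0 1 (r - 4) 1 (by ring) (by omega) (by omega) (by norm_num) (by norm_num),
      V c, V' c,
      hPQ _ _ (EY c 0 0 (by omega) (by omega) (by omega))
        (EY c (-2) 2 (by omega) (by omega) (by omega)),
      hPQ _ _ (EY c (-3) 1 (by omega) (by omega) (by omega))
        (EY c (-1) 3 (by omega) (by omega) (by omega))] at e
    linear_combination -e
  have H2U : ∀ c, 2 * L (Y k c 0 * (Y k c 1 * Y k c 2 * Y k c 3)) =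
      L (Y k c 0 * Y k c 0 * (Y k c (-1) * Y k c 1)) +
        L (Y k (c + 3) 0 * Y k (c + 3) 0 * (Y k (c + 3) (-1) * Y k (c + 3) 1)) := by
    intro c
    rw [← V' (c + 3), Y_shift (c + 3) c 0 3 (by push_cast; ring),
      Y_shift (c + 3) c (-2) 1 (by push_cast; ring),
      Y_shift (c + 3) c (-1) 2 (by push_cast; ring)]
    have e := hPQ _ _ (hq c 0 1 (-2) 3 (by norm_num) (by norm_num) (by norm_num))
      (hq c 2 3 0 5 (by norm_num) (by norm_num) (by norm_num))
    have e' : (Y k c 0 * Y k c 1 - Y k c (-2) * Y k c 0 - Y k c 1 * Y k c 3) *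
      (Y k c 2 * Y k c 3 - Y k c 0 * Y k c 2 - Y k c 3 * Y k c 5) =
      Y k c 0 * (Y k c 1 * Y k c 2 * Y k c 3) - Y k c 0 * Y k c 0 * (Y k c 1 * Y k c 2)
        - (Y k c 0 * Y k c 3) * (Y k c 1 * Y k c 5) - (Y k c (-2) * Y k c 2) * (Y k c 0 * Y k c 3)
        + (Y k c 0 * Y k c 0) * (Y k c (-2) * Y k c 2) + (Y k c (-2) * Y k c 3) * (Y k c 0 * Y k c 5)
        - Y k c 3 * Y k c 3 * (Y k c 1 * Y k c 2) + Y k c 0 * (Y k c 1 * Y k c 2 * Y k c 3)
        + (Y k c 3 * Y k c 3) * (Y k c 1 * Y k c 5) := by ring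
    rw [e'] at e
    simp only [map_add, map_sub] at e
    rw [V c,
      hPQ _ _ (EY c 0 3 (by omega) (by omega) (by omega))
        (EY c 1 5 (by omega) (by omega) (by omega)),
      hPQ _ _ (EY c (-2) 2 (by omega) (by omega) (by omega))
        (EY c 0 3 (by omega) (by omega) (by omega)),
      hPQ _ _ (EY c 0 0 (by omega) (by omega) (by omega))
        (EY c (-2) 2 (by omega) (by omega) (by omega)),
      hPQ _ _ (EY c (-2) 3 (by omega) (by omega) (by omega))
        (EY c 0 5 (by omega) (by omega) (by omega)),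
      hPQ _ _ (EY c 3 3 (by omega) (by omega) (by omega))
        (EY c 1 5 (by omega) (by omega) (by omega))] at e
    linear_combination e
  have U : ∀ c, L (Y k c 0 * (Y k c 1 * Y k c 2 * Y k c 3)) = 0 := by
    -- the basic relation
    have base : ∀ c, L (Y k c 0 * (Y k c 1 * Y k c 2 * Y k c 3)) =
        L (Y k c (-1) * Y k c 0 * (Y k c 4 * Y k c 6)) + L (Y k c (-3) * Y k c (-1) * (Y k c 3 * Y k c 4))
          - L (Y k c (-3) * Y k c (-1) * (Y k c 4 * Y k c 6)) := by
      intro c
      have e := hPQ _ _ (hq c (-1) 0 (-3) 2 (by norm_num) (by norm_num) (by norm_num))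
        (hq c 3 4 1 6 (by norm_num) (by norm_num) (by norm_num))
      have e' : (Y k c (-1) * Y k c 0 - Y k c (-3) * Y k c (-1) - Y k c 0 * Y k c 2) *
        (Y k c 3 * Y k c 4 - Y k c 1 * Y k c 3 - Y k c 4 * Y k c 6) =
        (Y k c (-1) * Y k c 3) * (Y k c 0 * Y k c 4) - Y k c 3 * (Y k c (-1) * Y k c 0 * Y k c 1)
          - Y k c (-1) * Y k c 0 * (Y k c 4 * Y k c 6) - Y k c (-3) * Y k c (-1) * (Y k c 3 * Y k c 4)
          + (Y k c (-3) * Y k c 1) * (Y k c (-1) * Y k c 3) + Y k c (-3) * Y k c (-1) * (Y k c 4 * Y k c 6)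
          - Y k c 0 * (Y k c 2 * Y k c 3 * Y k c 4) + Y k c 0 * (Y k c 1 * Y k c 2 * Y k c 3)
          + (Y k c 0 * Y k c 4) * (Y k c 2 * Y k c 6) := by ring
      rw [e'] at e
      simp only [map_add, map_sub] at e
      rw [C c 3 (-1) 0 1 (r - 4) 1 (by ring) (by omega) (by omega) (by norm_num) (by norm_num),
        C2 c,
        hPQ _ _ (EY c (-1) 3 (by omega) (by omega) (by omega))
          (EY c 0 4 (by omega) (by omega) (by omega)),
        hPQ _ _ (EY c (-3) 1 (by omega) (by omega) (by omega))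
          (EY c (-1) 3 (by omega) (by omega) (by omega)),
        hPQ _ _ (EY c 0 4 (by omega) (by omega) (by omega))
          (EY c 2 6 (by omega) (by omega) (by omega))] at e
      linear_combination e
    rcases Nat.lt_or_ge 8 r with h8 | h8
    · -- r ≥ 9
      intro c
      rw [base c]
      have t1 : L (Y k c (-1) * Y k c 0 * (Y k c 4 * Y k c 6)) = 0 := by
        have e : Y k c (-1) * Y k c 0 * (Y k c 4 * Y k c 6) = (Y k c (-1) * Y k c 4) * (Y k c 0 * Y k c 6) := by
          ring
        rw [e]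
        exact hPQ _ _ (EY c (-1) 4 (by omega) (by omega) (by omega))
          (pi_Y hr h1 h2 c 0 6 0 (by omega) (by omega) (by omega))
      have t2 : L (Y k c (-3) * Y k c (-1) * (Y k c 3 * Y k c 4)) = 0 := by
        have e : Y k c (-3) * Y k c (-1) * (Y k c 3 * Y k c 4) = (Y k c (-3) * Y k c 3) * (Y k c (-1) * Y k c 4) := by
          ring
        rw [e]
        exact hPQ _ _ (pi_Y hr h1 h2 c (-3) 3 0 (by omega) (by omega) (by omega))
          (EY c (-1) 4 (by omega) (by omega) (by omega))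
      have t3 : L (Y k c (-3) * Y k c (-1) * (Y k c 4 * Y k c 6)) = 0 := by
        rcases Nat.lt_or_ge 9 r with h9 | h9
        · have e : Y k c (-3) * Y k c (-1) * (Y k c 4 * Y k c 6) =
            (Y k c (-3) * Y k c 4) * (Y k c (-1) * Y k c 6) := by ring
          rw [e]
          exact hPQ _ _ (pi_Y hr h1 h2 c (-3) 4 0 (by omega) (by omega) (by omega))
            (pi_Y hr h1 h2 c (-1) 6 0 (by omega) (by omega) (by omega))
        · have e : Y k c (-3) * Y k c (-1) * (Y k c 4 * Y k c 6) =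
            (Y k c (-3) * Y k c 6) * (Y k c (-1) * Y k c 4) := by ring
          rw [e]
          exact hPQ _ _ (pi_Y hr h1 h2 c (-3) 6 (-1) (by omega) (by omega) (by omega))
            (EY c (-1) 4 (by omega) (by omega) (by omega))
      rw [t1, t2, t3]; ring
    · -- r = 8
      have hr8 : r = 8 := le_antisymm h8 hr
      have h8z : (8 : ZMod r) = 0 := by
        have : ((r : ℕ) : ZMod r) = 0 := by simp
        rw [hr8] at this ⊢
        exact_mod_cast this
      have rel : ∀ c, L (Y k c 0 * (Y k c 1 * Y k c 2 * Y k c 3)) +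
          L (Y k (c + 4) 0 * (Y k (c + 4) 1 * Y k (c + 4) 2 * Y k (c + 4) 3)) = 0 := by
        intro c
        have t1 : L (Y k c (-1) * Y k c 0 * (Y k c 4 * Y k c 6)) = 0 := by
          have e := C c 4 6 7 8 2 0 (by norm_num) (by norm_num) (by omega) (by norm_num)
            (by norm_num)
          rw [Y_shift c c 7 (-1) (by push_cast; linear_combination h8z),
            Y_shift c c 8 0 (by push_cast; linear_combination h8z)] at e
          have e' : Y k c (-1) * Y k c 0 * (Y k c 4 * Y k c 6) =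
            Y k c 4 * (Y k c 6 * Y k c (-1) * Y k c 0) := by ring
          rw [e', e]
        have t2 : L (Y k c (-3) * Y k c (-1) * (Y k c 3 * Y k c 4)) = 0 := by
          have e := C c (-1) 3 4 5 4 0 (by norm_num) (by norm_num) (by omega) (by norm_num)
            (by norm_num)
          rw [Y_shift c c 5 (-3) (by push_cast; linear_combination h8z)] at e
          have e' : Y k c (-3) * Y k c (-1) * (Y k c 3 * Y k c 4) =
            Y k c (-1) * (Y k c 3 * Y k c 4 * Y k c (-3)) := by ring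
          rw [e', e]
        have t3 := base c
        rw [t1, t2] at t3
        rw [Y_shift (c + 4) c 0 4 (by push_cast; ring),
          Y_shift (c + 4) c 1 (-3) (by push_cast; linear_combination h8z),
          Y_shift (c + 4) c 2 6 (by push_cast; ring),
          Y_shift (c + 4) c 3 (-1) (by push_cast; linear_combination h8z)]
        have e' : Y k c 4 * (Y k c (-3) * Y k c 6 * Y k c (-1)) =
          Y k c (-3) * Y k c (-1) * (Y k c 4 * Y k c 6) := by ring
        rw [e', t3]; ring
      intro c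
      have q1 : ∀ c, L (Y k (c + 3) 0 * (Y k (c + 3) 1 * Y k (c + 3) 2 * Y k (c + 3) 3)) =
          - L (Y k (c - 3) 0 * (Y k (c - 3) 1 * Y k (c - 3) 2 * Y k (c - 3) 3)) := by
        intro c
        have a1 := H2U c
        rw [HW c, HW (c + 3)] at a1
        rw [show c + 3 - 3 = c by ring] at a1
        linear_combination -a1
      have b1 := rel c
      have b2 := rel (c + 2)
      have b3 := q1 (c + 3)
      rw [show c + 3 + 3 = c + 6 by ring, show c + 3 - 3 = c by ring] at b3
      rw [show c + 2 + 4 = c + 6 by ring] at b2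
      have b4 := q1 (c + 5)
      rw [show c + 5 + 3 = c by linear_combination h8z, show c + 5 - 3 = c + 2 by ring] at b4
      have : (2 : k) * L (Y k c 0 * (Y k c 1 * Y k c 2 * Y k c 3)) = 0 := by
        linear_combination b4 - b2 + b3 + 0 * b1
      rcases mul_eq_zero.1 this with h | h
      · norm_num at h
      · exact h
  have W : ∀ c, L (Y k c 0 * Y k c 0 * (Y k c (-1) * Y k c 1)) = 0 := by
    intro c
    rw [HW, U, U, add_zero]
  -- triples with an equal or far point
  have A7 : ∀ b l : ZMod r, EE b l → L (X b * (X (l - 1) * X l * X (l + 1))) = 0 := by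
    intro b l hbl
    by_cases hb : b = l
    · subst hb
      have e := W b
      unfold Y at e
      push_cast at e
      rw [add_zero, ← sub_eq_add_neg] at e
      have e' : (X b * (X (b - 1) * X b * X (b + 1)) : MvPolynomial (ZMod r) k) =
        X b * X b * (X (b - 1) * X (b + 1)) := by ring
      rw [e', e]
    · have hv : (((b - l).val : ℤ) : ZMod r) = b - l := by simp
      have hlt : (b - l).val < r := ZMod.val_lt _
      obtain ⟨g1, g2, g3, g4⟩ := hbl
      have v0 : (b - l).val ≠ 0 := by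
        intro h
        rw [h] at hv
        apply hb
        push_cast at hv
        linear_combination -hv
      have v1 : (b - l).val ≠ 1 := by
        intro h
        rw [h] at hv
        apply g3
        push_cast at hv
        linear_combination -hv
      have v2 : (b - l).val ≠ 2 := by
        intro h
        rw [h] at hv
        apply g4
        push_cast at hv
        linear_combination -hv
      have v3 : (b - l).val ≠ r - 1 := by
        intro h
        apply g1
        have h5 : ((((b - l).val + 1 : ℕ)) : ZMod r) = 0 := by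
          rw [h, show r - 1 + 1 = r by omega, hr0]
        push_cast at h5 hv
        linear_combination -h5 + hv
      have v4 : (b - l).val ≠ r - 2 := by
        intro h
        apply g2
        have h5 : ((((b - l).val + 2 : ℕ)) : ZMod r) = 0 := by
          rw [h, show r - 2 + 2 = r by omega, hr0]
        push_cast at h5 hv
        linear_combination -h5 + hv
      have e := C l ((b - l).val : ℤ) (-1) 0 1 (r - 1 - (b - l).val) 1 (by ring) (by omega)
        (by omega) (by norm_num) (by norm_num)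
      have e1 : Y k l ((b - l).val : ℤ) = X b := by
        unfold Y; rw [hv]; congr 1; ring
      have e2 : Y k l (-1) = X (l - 1) := by
        unfold Y; congr 1; push_cast; ring
      have e3 : Y k l 0 = X l := by
        unfold Y; congr 1; push_cast; ring
      have e4 : Y k l 1 = X (l + 1) := by
        unfold Y; congr 1; push_cast; ring
      rw [e1, e2, e3, e4] at e
      exact e
  -- the finite list
  have X1 : X (l - 1) = Y k l (-1) := by unfold Y; congr 1; push_cast; ring
  have X2 : X (l + 1) = Y k l 1 := by unfold Y; congr 1; push_cast; ring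
  have X0 : X l = Y k l 0 := by unfold Y; congr 1; push_cast; ring
  have B1 : L (Y k l (-1) * Y k l 1 * (Y k l (-3) * Y k l (-3))) = 0 := by
    have e := Zp (l - 3)
    rw [Y_shift (l - 3) l 0 (-3) (by push_cast; ring),
      Y_shift (l - 3) l 2 (-1) (by push_cast; ring),
      Y_shift (l - 3) l 4 1 (by push_cast; ring)] at e
    rw [mul_comm]; exact e
  have B1' : L (Y k l (-1) * Y k l 1 * (Y k l 3 * Y k l 3)) = 0 := by
    have e := Zm (l + 3)
    rw [Y_shift (l + 3) l 0 3 (by push_cast; ring),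
      Y_shift (l + 3) l (-2) 1 (by push_cast; ring),
      Y_shift (l + 3) l (-4) (-1) (by push_cast; ring)] at e
    rw [mul_comm (Y k l (-1)) (Y k l 1), mul_comm]; exact e
  have B2 : L (Y k l (-1) * Y k l 1 * (Y k l (-2) * Y k l (-2))) = 0 := by
    have e := A2 (l - 2)
    rw [Y_shift (l - 2) l 0 (-2) (by push_cast; ring),
      Y_shift (l - 2) l 1 (-1) (by push_cast; ring),
      Y_shift (l - 2) l 3 1 (by push_cast; ring)] at e
    rw [mul_comm]; exact e
  have B2' : L (Y k l (-1) * Y k l 1 * (Y k l 2 * Y k l 2)) = 0 := by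
    have e := A2' (l + 2)
    rw [Y_shift (l + 2) l 0 2 (by push_cast; ring),
      Y_shift (l + 2) l (-1) 1 (by push_cast; ring),
      Y_shift (l + 2) l (-3) (-1) (by push_cast; ring)] at e
    rw [mul_comm (Y k l (-1)) (Y k l 1), mul_comm]; exact e
  have B3 : L (Y k l (-1) * Y k l 1 * (Y k l 0 * Y k l 0)) = 0 := by
    rw [mul_comm]; exact W l
  have B4 : L (Y k l (-1) * Y k l 1 * (Y k l 1 * Y k l 1)) = 0 := by
    have e := A4 (l + 1)
    rw [Y_shift (l + 1) l 0 1 (by push_cast; ring),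
      Y_shift (l + 1) l (-2) (-1) (by push_cast; ring)] at e
    have e' : Y k l (-1) * Y k l 1 * (Y k l 1 * Y k l 1) = Y k l 1 * Y k l 1 * (Y k l 1 * Y k l (-1)) := by ring
    rw [e', e]
  have B4' : L (Y k l (-1) * Y k l 1 * (Y k l (-1) * Y k l (-1))) = 0 := by
    have e := A4' (l - 1)
    rw [Y_shift (l - 1) l 0 (-1) (by push_cast; ring),
      Y_shift (l - 1) l 2 1 (by push_cast; ring)] at e
    have e' : Y k l (-1) * Y k l 1 * (Y k l (-1) * Y k l (-1)) =
      Y k l (-1) * Y k l (-1) * (Y k l (-1) * Y k l 1) := by ring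
    rw [e', e]
  have B5 : L (Y k l (-1) * Y k l 1 * (Y k l (-3) * Y k l 1)) = 0 := by
    have e := Zm (l + 1)
    rw [Y_shift (l + 1) l 0 1 (by push_cast; ring),
      Y_shift (l + 1) l (-2) (-1) (by push_cast; ring),
      Y_shift (l + 1) l (-4) (-3) (by push_cast; ring)] at e
    have e' : Y k l (-1) * Y k l 1 * (Y k l (-3) * Y k l 1) =
      Y k l 1 * Y k l 1 * (Y k l (-1) * Y k l (-3)) := by ring
    rw [e', e]
  have B5' : L (Y k l (-1) * Y k l 1 * (Y k l 3 * Y k l (-1))) = 0 := by
    have e := Zp (l - 1)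
    rw [Y_shift (l - 1) l 0 (-1) (by push_cast; ring),
      Y_shift (l - 1) l 2 1 (by push_cast; ring),
      Y_shift (l - 1) l 4 3 (by push_cast; ring)] at e
    have e' : Y k l (-1) * Y k l 1 * (Y k l 3 * Y k l (-1)) =
      Y k l (-1) * Y k l (-1) * (Y k l 1 * Y k l 3) := by ring
    rw [e', e]
  have B6 : L (Y k l (-1) * Y k l 1 * (Y k l (-2) * Y k l 1)) = 0 := by
    have e := A6 (l + 1)
    rw [Y_shift (l + 1) l 0 1 (by push_cast; ring),
      Y_shift (l + 1) l (-2) (-1) (by push_cast; ring),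
      Y_shift (l + 1) l (-3) (-2) (by push_cast; ring)] at e
    have e' : Y k l (-1) * Y k l 1 * (Y k l (-2) * Y k l 1) =
      Y k l 1 * Y k l 1 * (Y k l (-1) * Y k l (-2)) := by ring
    rw [e', e]
  have B6' : L (Y k l (-1) * Y k l 1 * (Y k l 2 * Y k l (-1))) = 0 := by
    have e := A6' (l - 1)
    rw [Y_shift (l - 1) l 0 (-1) (by push_cast; ring),
      Y_shift (l - 1) l 2 1 (by push_cast; ring),
      Y_shift (l - 1) l 3 2 (by push_cast; ring)] at e
    have e' : Y k l (-1) * Y k l 1 * (Y k l 2 * Y k l (-1)) =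
      Y k l (-1) * Y k l (-1) * (Y k l 1 * Y k l 2) := by ring
    rw [e', e]
  have B7 : ∀ b, EE b l → L (X (l - 1) * X (l + 1) * (X l * X b)) = 0 := by
    intro b hb
    have e' : (X (l - 1) * X (l + 1) * (X l * X b) : MvPolynomial (ZMod r) k) =
      X b * (X (l - 1) * X l * X (l + 1)) := by ring
    rw [e', A7 b l hb]
  -- near points
  have near : ∀ a b : ZMod r, ¬ EE a b → a = b - 2 ∨ a = b - 1 ∨ a = b + 1 ∨ a = b + 2 := by
    intro a b h
    unfold EE at h
    by_contra hc
    push Not at hc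
    obtain ⟨c1, c2, c3, c4⟩ := hc
    apply h
    refine ⟨fun h => c2 ?_, fun h => c1 ?_, c3, c4⟩
    · linear_combination -h
    · linear_combination -h
  have XY : ∀ n : ℤ, (X (l + (n : ZMod r)) : MvPolynomial (ZMod r) k) = Y k l n := fun n => rfl
  have nEE : ∀ m n : ℤ, (m - n = 1 ∨ m - n = 2 ∨ m - n = -1 ∨ m - n = -2) →
      ¬ EE (l + (m : ZMod r)) (l + (n : ZMod r)) := by
    intro m n h hE
    obtain ⟨g1, g2, g3, g4⟩ := hE
    rcases h with h | h | h | h
    · apply g3
      rw [show m = n + 1 by omega]; push_cast; ring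
    · apply g4
      rw [show m = n + 2 by omega]; push_cast; ring
    · apply g1
      rw [show n = m + 1 by omega]; push_cast; ring
    · apply g2
      rw [show n = m + 2 by omega]; push_cast; ring
  have left : ∀ a b : ZMod r, EE a b → ¬ EE a (l - 1) → ¬ EE b (l - 1) →
      L (X (l - 1) * X (l + 1) * (X a * X b)) = 0 := by
    intro a b hab ha hb
    have ha' : ∃ m : ℤ, (m = -3 ∨ m = -2 ∨ m = 0 ∨ m = 1) ∧ a = l + (m : ZMod r) := by
      rcases near _ _ ha with h | h | h | h
      · exact ⟨-3, by simp, by rw [h]; push_cast; ring⟩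
      · exact ⟨-2, by simp, by rw [h]; push_cast; ring⟩
      · exact ⟨0, by simp, by rw [h]; push_cast; ring⟩
      · exact ⟨1, by simp, by rw [h]; push_cast; ring⟩
    have hb' : ∃ m : ℤ, (m = -3 ∨ m = -2 ∨ m = 0 ∨ m = 1) ∧ b = l + (m : ZMod r) := by
      rcases near _ _ hb with h | h | h | h
      · exact ⟨-3, by simp, by rw [h]; push_cast; ring⟩
      · exact ⟨-2, by simp, by rw [h]; push_cast; ring⟩
      · exact ⟨0, by simp, by rw [h]; push_cast; ring⟩
      · exact ⟨1, by simp, by rw [h]; push_cast; ring⟩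
    obtain ⟨m, hm, rfl⟩ := ha'
    obtain ⟨n, hn, rfl⟩ := hb'
    have hlE : ∀ m : ℤ, m = 0 → l + (m : ZMod r) = l := by
      rintro m rfl; push_cast; ring
    rcases hm with rfl | rfl | rfl | rfl <;> rcases hn with rfl | rfl | rfl | rfl
    · rw [X1, X2]; exact B1
    · exact absurd hab (nEE _ _ (by norm_num))
    · rw [mul_comm (X (l + ((-3 : ℤ) : ZMod r)))]
      rw [hlE 0 rfl] at hab ⊢
      exact B7 _ hab
    · rw [X1, X2]; exact B5
    · exact absurd hab (nEE _ _ (by norm_num))
    · rw [X1, X2]; exact B2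
    · exact absurd hab (nEE _ _ (by norm_num))
    · rw [X1, X2]; exact B6
    · rw [hlE 0 rfl] at hab ⊢
      exact B7 _ hab.symm
    · exact absurd hab (nEE _ _ (by norm_num))
    · rw [X1, X2]; exact B3
    · exact absurd hab (nEE _ _ (by norm_num))
    · rw [X1, X2, mul_comm (X (l + ((1 : ℤ) : ZMod r)))]; exact B5
    · rw [X1, X2, mul_comm (X (l + ((1 : ℤ) : ZMod r)))]; exact B6
    · exact absurd hab (nEE _ _ (by norm_num))
    · rw [X1, X2]; exact B4
  have right : ∀ a b : ZMod r, EE a b → ¬ EE a (l + 1) → ¬ EE b (l + 1) →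
      L (X (l - 1) * X (l + 1) * (X a * X b)) = 0 := by
    intro a b hab ha hb
    have ha' : ∃ m : ℤ, (m = 3 ∨ m = 2 ∨ m = 0 ∨ m = -1) ∧ a = l + (m : ZMod r) := by
      rcases near _ _ ha with h | h | h | h
      · exact ⟨-1, by simp, by rw [h]; push_cast; ring⟩
      · exact ⟨0, by simp, by rw [h]; push_cast; ring⟩
      · exact ⟨2, by simp, by rw [h]; push_cast; ring⟩
      · exact ⟨3, by simp, by rw [h]; push_cast; ring⟩
    have hb' : ∃ m : ℤ, (m = 3 ∨ m = 2 ∨ m = 0 ∨ m = -1) ∧ b = l + (m : ZMod r) := by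
      rcases near _ _ hb with h | h | h | h
      · exact ⟨-1, by simp, by rw [h]; push_cast; ring⟩
      · exact ⟨0, by simp, by rw [h]; push_cast; ring⟩
      · exact ⟨2, by simp, by rw [h]; push_cast; ring⟩
      · exact ⟨3, by simp, by rw [h]; push_cast; ring⟩
    obtain ⟨m, hm, rfl⟩ := ha'
    obtain ⟨n, hn, rfl⟩ := hb'
    have hlE : ∀ m : ℤ, m = 0 → l + (m : ZMod r) = l := by
      rintro m rfl; push_cast; ring
    rcases hm with rfl | rfl | rfl | rfl <;> rcases hn with rfl | rfl | rfl | rfl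
    · rw [X1, X2]; exact B1'
    · exact absurd hab (nEE _ _ (by norm_num))
    · rw [mul_comm (X (l + ((3 : ℤ) : ZMod r)))]
      rw [hlE 0 rfl] at hab ⊢
      exact B7 _ hab
    · rw [X1, X2]; exact B5'
    · exact absurd hab (nEE _ _ (by norm_num))
    · rw [X1, X2]; exact B2'
    · exact absurd hab (nEE _ _ (by norm_num))
    · rw [X1, X2]; exact B6'
    · rw [hlE 0 rfl] at hab ⊢
      exact B7 _ hab.symm
    · exact absurd hab (nEE _ _ (by norm_num))
    · rw [X1, X2]; exact B3
    · exact absurd hab (nEE _ _ (by norm_num))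
    · rw [X1, X2, mul_comm (X (l + ((-1 : ℤ) : ZMod r)))]; exact B5'
    · rw [X1, X2, mul_comm (X (l + ((-1 : ℤ) : ZMod r)))]; exact B6'
    · exact absurd hab (nEE _ _ (by norm_num))
    · rw [X1, X2]; exact B4'
  have both : ∀ a, ¬ EE a (l - 1) → ¬ EE a (l + 1) → a = l := by
    intro a ha hb
    have n4 : ((4 : ℤ) : ZMod r) ≠ 0 := ne_zero_of (by norm_num) (by omega) (by omega)
    have n3 : ((3 : ℤ) : ZMod r) ≠ 0 := ne_zero_of (by norm_num) (by omega) (by omega)
    have n2 : ((2 : ℤ) : ZMod r) ≠ 0 := ne_zero_of (by norm_num) (by omega) (by omega)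
    have n1 : ((1 : ℤ) : ZMod r) ≠ 0 := ne_zero_of (by norm_num) (by omega) (by omega)
    have n5 : ((5 : ℤ) : ZMod r) ≠ 0 := ne_zero_of (by norm_num) (by omega) (by omega)
    have n6 : ((6 : ℤ) : ZMod r) ≠ 0 := ne_zero_of (by norm_num) (by omega) (by omega)
    push_cast at n1 n2 n3 n4 n5 n6
    rcases near _ _ ha with h | h | h | h <;> rcases near _ _ hb with h' | h' | h' | h'
    · exact absurd (by linear_combination h - h' : (2 : ZMod r) = 0) n2
    · exact absurd (by linear_combination h - h' : (3 : ZMod r) = 0) n3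
    · exact absurd (by linear_combination h - h' : (5 : ZMod r) = 0) n5
    · exact absurd (by linear_combination h - h' : (6 : ZMod r) = 0) n6
    · exact absurd (by linear_combination h - h' : (1 : ZMod r) = 0) n1
    · exact absurd (by linear_combination h - h' : (2 : ZMod r) = 0) n2
    · exact absurd (by linear_combination h - h' : (4 : ZMod r) = 0) n4
    · exact absurd (by linear_combination h - h' : (5 : ZMod r) = 0) n5
    · rw [h]; ring
    · rw [h]; ring
    · rw [h]; ring
    · rw [h]; ring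
    · exact absurd (by linear_combination h' - h : (2 : ZMod r) = 0) n2
    · rw [h']; ring
    · exact absurd (by linear_combination h - h' : (1 : ZMod r) = 0) n1
    · exact absurd (by linear_combination h - h' : (2 : ZMod r) = 0) n2
  by_cases a1 : EE a (l - 1)
  · by_cases b1 : EE b (l + 1)
    · have e : (X (l - 1) * X (l + 1) * (X a * X b) : MvPolynomial (ZMod r) k) =
        (X a * X (l - 1)) * (X b * X (l + 1)) := by ring
      rw [e]
      exact hPQ _ _ (pi_E h1 h2 a1) (pi_E h1 h2 b1)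
    · by_cases a2 : EE a (l + 1)
      · by_cases b2 : EE b (l - 1)
        · have e : (X (l - 1) * X (l + 1) * (X a * X b) : MvPolynomial (ZMod r) k) =
            (X b * X (l - 1)) * (X a * X (l + 1)) := by ring
          rw [e]
          exact hPQ _ _ (pi_E h1 h2 b2) (pi_E h1 h2 a2)
        · have := both b b2 b1
          subst this
          rw [mul_comm (X a)]
          exact B7 a hab
      · exact right a b hab a2 b1
  · by_cases a2 : EE a (l + 1)
    · by_cases b2 : EE b (l - 1)
      · have e : (X (l - 1) * X (l + 1) * (X a * X b) : MvPolynomial (ZMod r) k) =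
          (X b * X (l - 1)) * (X a * X (l + 1)) := by ring
        rw [e]
        exact hPQ _ _ (pi_E h1 h2 b2) (pi_E h1 h2 a2)
      · exact left a b hab a1 b2
    · have := both a a1 a2
      subst this
      exact B7 b hab.symm

end

end Q35.EC
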