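import Mathlib
import Pool.Agent.Q35.EC.Core

/-!
The cyclic cubic form in `r ≥ 8` variables has trivial negative tangents.
-/

set_option autoImplicit false

namespace Q35.EC

open MvPolynomial

theorem near_of_not {r : ℕ} {a b : ZMod r} (h : ¬ EE a b) :
    a = b - 2 ∨ a = b - 1 ∨ a = b + 1 ∨ a = b + 2 := by
  unfold EE at h
  by_contra hc
  push Not at hc
  obtain ⟨c1, c2, c3, c4⟩ := hc
  apply h
  refine ⟨fun h => c2 ?_, fun h => c1 ?_, c3, c4⟩
  · linear_combination -h
  · linear_combination -h

theorem both_near {r : ℕ} (hr : 8 ≤ r) {a l : ZMod r} (ha : ¬ EE a (l - 1))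
    (hb : ¬ EE a (l + 1)) : a = l := by
  have n4 : ((4 : ℤ) : ZMod r) ≠ 0 := ne_zero_of (by norm_num) (by omega) (by omega)
  have n3 : ((3 : ℤ) : ZMod r) ≠ 0 := ne_zero_of (by norm_num) (by omega) (by omega)
  have n2 : ((2 : ℤ) : ZMod r) ≠ 0 := ne_zero_of (by norm_num) (by omega) (by omega)
  have n1 : ((1 : ℤ) : ZMod r) ≠ 0 := ne_zero_of (by norm_num) (by omega) (by omega)
  have n5 : ((5 : ℤ) : ZMod r) ≠ 0 := ne_zero_of (by norm_num) (by omega) (by omega)
  have n6 : ((6 : ℤ) : ZMod r) ≠ 0 := ne_zero_of (by norm_num) (by omega) (by omega)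
  push_cast at n1 n2 n3 n4 n5 n6
  rcases near_of_not ha with h | h | h | h <;> rcases near_of_not hb with h' | h' | h' | h'
  · exact absurd (by linear_combination h - h' : (2 : ZMod r) = 0) n2
  · exact absurd (by linear_combination h - h' : (3 : ZMod r) = 0) n3
  · exact absurd (by linear_combination h - h' : (5 : ZMod r) = 0) n5
  · exact absurd (by linear_combination h - h' : (6 : ZMod r) = 0) n6
  · exact absurd (by linear_combination h - h' : (1 : ZMod r) = 0) n1
  · exact absurd (by linear_combination h - h' : (2 : ZMod r) = 0) n2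
  · exact absurd (by linear_combination h - h' : (4 : ZMod r) = 0) n4
  · exact absurd (by linear_combination h - h' : (5 : ZMod r) = 0) n5
  · rw [h]; ring
  · rw [h]; ring
  · rw [h]; ring
  · rw [h]; ring
  · exact absurd (by linear_combination h' - h : (2 : ZMod r) = 0) n2
  · rw [h']; ring
  · exact absurd (by linear_combination h - h' : (1 : ZMod r) = 0) n1
  · exact absurd (by linear_combination h - h' : (2 : ZMod r) = 0) n2

theorem EE_self {r : ℕ} (hr : 8 ≤ r) (a : ZMod r) : EE a a := by
  have := EE_of a 0 0 0 (by norm_num) (by omega) (by omega) (by omega)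
  push_cast at this
  rwa [add_zero] at this

theorem EE_lit {r : ℕ} (hr : 8 ≤ r) (a b : ZMod r) (m : ℤ) (h : b = a + (m : ZMod r))
    (hm : 3 ≤ m ∨ m ≤ -3) (h5 : m ≤ 5) (h5' : -5 ≤ m) : EE a b := by
  have := EE_of a 0 m 0 (by omega) (by omega) (by omega) (by omega)
  rw [h]
  rwa [Int.cast_zero, add_zero] at this

section
variable {k : Type*} [Field k] [CharZero k] {r : ℕ} [NeZero r]
  {π : MvPolynomial (ZMod r) k →ₗ[k] (Bs (ZMod r) → k)}

theorem step_monomial {ι : Type*} (e : ι →₀ ℕ) (he : e ≠ 0) : ∃ i e', e'.degree + 1 = e.degree ∧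
      (monomial e 1 : MvPolynomial ι k) = X i * monomial e' 1 := by
  classical
  obtain ⟨i, hi⟩ := Finsupp.ne_iff.1 he
  rw [Finsupp.coe_zero, Pi.zero_apply] at hi
  have hle : Finsupp.single i 1 ≤ e := by
    rw [Finsupp.single_le_iff]; omega
  have he' : e = Finsupp.single i 1 + (e - Finsupp.single i 1) :=
    (add_tsub_cancel_of_le hle).symm
  refine ⟨i, e - Finsupp.single i 1, ?_, ?_⟩
  · conv_rhs => rw [he']
    rw [map_add, Finsupp.degree_single, add_comm]
  · conv_lhs => rw [he']
    rw [X, MvPolynomial.monomial_mul, one_mul]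

theorem pi_deg {ι : Type*} [Fintype ι] [DecidableEq ι] {f : ι → ι → ι → k}
    {π : MvPolynomial ι k →ₗ[k] (Bs ι → k)} (h1 : π 1 = Pi.single Bs.one 1)
    (h2 : ∀ i g, π (X i * g) = (MM f i).mulVec (π g)) (e : ι →₀ ℕ) (l : Bs ι)
    (hne : π (monomial e 1) l ≠ 0) : l.deg = e.degree := by
  have : ∀ n (e : ι →₀ ℕ) (l : Bs ι), e.degree = n → π (monomial e 1) l ≠ 0 → l.deg = n := by
    intro n
    induction n with
    | zero =>
      intro e l he hne
      have : e = 0 := (Finsupp.degree_eq_zero_iff e).1 he
      subst this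
      have e1 : (monomial 0 1 : MvPolynomial ι k) = 1 := rfl
      rw [e1, h1, Pi.single_apply] at hne
      have : l = Bs.one := by
        by_contra hc
        rw [if_neg hc] at hne
        exact hne rfl
      rw [this]
      rfl
    | succ n ih =>
      intro e l he hne
      have he0 : e ≠ 0 := by
        rintro rfl
        simp at he
      obtain ⟨i, e', a1, a2⟩ := step_monomial (k := k) e he0
      rw [a2, h2, Matrix.mulVec, dotProduct] at hne
      obtain ⟨m, _, hm⟩ := Finset.exists_ne_zero_of_sum_ne_zero hne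
      have a3 := MM_deg f i l m (left_ne_zero_of_mul hm)
      have a4 := ih e' m (by omega) (right_ne_zero_of_mul hm)
      omega
  exact this _ e l rfl hne

/-- Main step: after normalisation the derivation-like map vanishes on the ideal. -/
theorem tnt_normalised (hr : 8 ≤ r) (h1 : π 1 = Pi.single Bs.one 1)
    (h2 : ∀ i g, π (X i * g) = (MM (fcyc k) i).mulVec (π g))
    (φ : MvPolynomial (ZMod r) k →ₗ[k] (Bs (ZMod r) → k))
    (hφ1 : ∀ f, π f = 0 → ∀ i, φ (X i * f) = (MM (fcyc k) i).mulVec (φ f))
    (hφ2 : ∀ (e : ZMod r →₀ ℕ) (l : Bs (ZMod r)), e.degree ≤ l.deg → φ (monomial e 1) l = 0)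
    (h0 : ∀ c, φ (Y k c 0 * (Y k c 3 * Y k c 4 * Y k c 5)) Bs.s = 0) :
    ∀ f, π f = 0 → φ f = 0 := by
  have hPQ := phi_PQ hr h1 h2 φ hφ1
  let L : MvPolynomial (ZMod r) k →ₗ[k] k := (LinearMap.proj Bs.s).comp φ
  have hL : ∀ g, L g = φ g Bs.s := fun g => rfl
  have hcore := core hr h1 h2 L (fun P Q hP hQ => by rw [hL, hPQ P Q hP hQ]; rfl) h0
  have hdeg2 : ∀ (a b : ZMod r) (l : Bs (ZMod r)), 2 ≤ l.deg → φ (X a * X b) l = 0 := by
    intro a b l hl
    have e : (X a * X b : MvPolynomial (ZMod r) k) =
        monomial (Finsupp.single a 1 + Finsupp.single b 1) 1 := by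
      rw [X, X, monomial_mul, one_mul]
    rw [e]
    apply hφ2
    rw [map_add, Finsupp.degree_single, Finsupp.degree_single]
    exact hl
  -- x-components through the s-component
  have hx : ∀ (q : MvPolynomial (ZMod r) k) (l : ZMod r), π q = 0 →
      φ q (Bs.x l) = L (X (l - 1) * X (l + 1) * q) := by
    intro q l hq
    have e1 : π (X (l + 1) * q) = 0 := by rw [h2, hq, Matrix.mulVec_zero]
    rw [hL, mul_assoc, hφ1 _ e1, mulVec_s, hφ1 _ hq, mulVec_z]
    have : ∀ b, fcyc k (l + 1) b (l - 1) = if b = l then 1 else 0 := by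
      intro b
      rw [(fcyc_sym k r).2, (fcyc_sym k r).1, fcyc_mid hr]
    simp only [this]
    simp
  have hE : ∀ a b, EE a b → φ (X a * X b) = 0 := by
    intro a b hab
    apply Bs.ext
    · by_cases hne : a = b
      · subst hne
        have hc : EE a (a + 3) := EE_lit hr a (a + 3) 3 (by push_cast; ring) (by norm_num)
          (by norm_num) (by norm_num)
        have e1 := hφ1 _ (pi_E h1 h2 hab) (a + 3)
        have e2 := hφ1 _ (pi_E h1 h2 hc) a
        have e3 : (X (a + 3) * (X a * X a) : MvPolynomial (ZMod r) k) =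
          X a * (X a * X (a + 3)) := by ring
        rw [e3, e2] at e1
        have e4 := congrFun e1 (Bs.x (a + 3))
        rw [mulVec_x, mulVec_x, if_pos rfl, if_neg] at e4
        · exact e4.symm
        · intro h
          have n3 : ((3 : ℤ) : ZMod r) ≠ 0 := ne_zero_of (by norm_num) (by omega) (by omega)
          apply n3
          push_cast
          linear_combination h
      · have e1 := hφ1 _ (pi_E h1 h2 hab) a
        have e2 := hφ1 _ (pi_E h1 h2 (EE_self hr a)) b
        have e3 : (X a * (X a * X b) : MvPolynomial (ZMod r) k) =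
          X b * (X a * X a) := by ring
        rw [e3, e2] at e1
        have e4 := congrFun e1 (Bs.x a)
        rw [mulVec_x, mulVec_x, if_pos rfl, if_neg hne] at e4
        exact e4.symm
    · intro l
      rw [hx _ _ (pi_E h1 h2 hab), hcore a b l hab]
      rfl
    · intro l
      exact hdeg2 a b _ (by simp)
    · exact hdeg2 a b _ (by simp)
  -- anything containing an equal-or-far pair is killed
  have hE2 : ∀ a b, EE a b → ∀ g, φ (g * (X a * X b)) = 0 := by
    intro a b hab g
    have hp := pi_E h1 h2 hab
    have : ∀ g, π (g * (X a * X b)) = 0 ∧ φ (g * (X a * X b)) = 0 := by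
      intro g
      induction g using MvPolynomial.induction_on with
      | C c =>
        rw [← MvPolynomial.smul_eq_C_mul, map_smul, map_smul, hp, hE a b hab]
        simp
      | add p q hp hq =>
        rw [add_mul, map_add, map_add, hp.1, hp.2, hq.1, hq.2]
        simp
      | mul_X p i hp =>
        have e : p * X i * (X a * X b) = X i * (p * (X a * X b)) := by ring
        rw [e, h2, hφ1 _ hp.1, hp.1, hp.2]
        simp
    exact (this g).2
  have all4 : ∀ l a b, L (X (l - 1) * X (l + 1) * (X a * X b)) = 0 := by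
    intro l a b
    by_cases hab : EE a b
    · exact hcore a b l hab
    by_cases a1 : EE a (l - 1)
    · have e : (X (l - 1) * X (l + 1) * (X a * X b) : MvPolynomial (ZMod r) k) =
        (X (l + 1) * X b) * (X a * X (l - 1)) := by ring
      rw [hL, e, hE2 _ _ a1]; rfl
    by_cases a2 : EE a (l + 1)
    · have e : (X (l - 1) * X (l + 1) * (X a * X b) : MvPolynomial (ZMod r) k) =
        (X (l - 1) * X b) * (X a * X (l + 1)) := by ring
      rw [hL, e, hE2 _ _ a2]; rfl
    by_cases b1 : EE b (l - 1)
    · have e : (X (l - 1) * X (l + 1) * (X a * X b) : MvPolynomial (ZMod r) k) =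
        (X (l + 1) * X a) * (X b * X (l - 1)) := by ring
      rw [hL, e, hE2 _ _ b1]; rfl
    by_cases b2 : EE b (l + 1)
    · have e : (X (l - 1) * X (l + 1) * (X a * X b) : MvPolynomial (ZMod r) k) =
        (X (l - 1) * X a) * (X b * X (l + 1)) := by ring
      rw [hL, e, hE2 _ _ b2]; rfl
    exfalso
    apply hab
    rw [both_near hr a1 a2, both_near hr b1 b2]
    exact EE_self hr l
  have pq : ∀ i : ZMod r, π (X i * X (i + 1) - X (i - 2) * X i - X (i + 1) * X (i + 3)) = 0 := by
    intro i
    have := pi_q hr h1 h2 i 0 1 (-2) 3 (by norm_num) (by norm_num) (by norm_num)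
    unfold Y at this
    push_cast at this
    rw [add_zero, ← sub_eq_add_neg] at this
    exact this
  have hq : ∀ i : ZMod r, φ (X i * X (i + 1) - X (i - 2) * X i - X (i + 1) * X (i + 3)) = 0 := by
    intro i
    apply Bs.ext
    · have c1 : EE (i + 5) i := (EE_lit hr i (i + 5) 5 (by push_cast; ring) (by norm_num)
        (by norm_num) (by norm_num)).symm
      have c2 : EE (i + 5) (i + 1) := (EE_lit hr (i + 1) (i + 5) 4 (by push_cast; ring)
        (by norm_num) (by norm_num) (by norm_num)).symm
      have e1 := hφ1 _ (pq i) (i + 5)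
      have e3 : (X (i + 5) * (X i * X (i + 1) - X (i - 2) * X i - X (i + 1) * X (i + 3)) :
          MvPolynomial (ZMod r) k) =
          (X (i + 1) - X (i - 2)) * (X (i + 5) * X i) - X (i + 3) * (X (i + 5) * X (i + 1)) := by
        ring
      rw [e3, map_sub, hE2 _ _ c1, hE2 _ _ c2, sub_zero] at e1
      have e4 := congrFun e1 (Bs.x (i + 5))
      rw [mulVec_x, if_pos rfl] at e4
      exact e4.symm
    · intro l
      rw [hx _ _ (pq i), mul_sub, mul_sub, map_sub, map_sub, all4, all4, all4]
      simp
    · intro l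
      rw [map_sub, map_sub, Pi.sub_apply, Pi.sub_apply, hdeg2 _ _ _ (by simp),
        hdeg2 _ _ _ (by simp), hdeg2 _ _ _ (by simp)]
      simp
    · rw [map_sub, map_sub, Pi.sub_apply, Pi.sub_apply, hdeg2 _ _ _ (by simp),
        hdeg2 _ _ _ (by simp), hdeg2 _ _ _ (by simp)]
      simp
  -- constancy of the triple values
  have tau : ∀ j : ZMod r, φ (X j * X (j + 1) * X (j + 2)) =
      φ (X (j + 1) * X (j + 1 + 1) * X (j + 1 + 2)) := by
    intro j
    have e1 := hφ1 _ (pq j) (j + 2)
    rw [hq j, Matrix.mulVec_zero] at e1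
    have c1 : EE (j + 2) (j - 2) := EE_lit hr (j + 2) (j - 2) (-4) (by push_cast; ring)
      (by norm_num) (by norm_num) (by norm_num)
    have e3 : (X (j + 2) * (X j * X (j + 1) - X (j - 2) * X j - X (j + 1) * X (j + 3)) :
        MvPolynomial (ZMod r) k) =
        X j * X (j + 1) * X (j + 2) - X j * (X (j + 2) * X (j - 2)) -
          X (j + 1) * X (j + 2) * X (j + 3) := by ring
    rw [e3, map_sub, map_sub, hE2 _ _ c1, sub_zero, sub_eq_zero] at e1
    rw [e1, show j + 1 + 1 = j + 2 by ring, show j + 1 + 2 = j + 3 by ring]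
  have tau0 : ∀ n : ℕ, φ (X (n : ZMod r) * X ((n : ZMod r) + 1) * X ((n : ZMod r) + 2)) =
      φ (X (0 : ZMod r) * X (0 + 1) * X (0 + 2)) := by
    intro n
    induction n with
    | zero => simp
    | succ n ih =>
      rw [← ih, tau (n : ZMod r)]
      push_cast
      rfl
  have tau1 : ∀ j : ZMod r, φ (X j * X (j + 1) * X (j + 2)) =
      φ (X (0 : ZMod r) * X (0 + 1) * X (0 + 2)) := by
    intro j
    have := tau0 j.val
    rw [ZMod.natCast_zmod_val] at this
    exact this
  -- the star relation
  have star : ∀ i m, φ (X i * bb k r m) = ∑ l, MM (fcyc k) i l m • φ (bb k r l) := by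
    intro i m
    rw [Bs.sum_eq]
    rcases m with (_ | b) | (_ | c)
    · simp [MM, bb]
    · -- m = x b
      have e0 : φ (X i * bb k r (Sum.inl (some b))) = φ (X i * X b) := rfl
      have e1 : (MM (fcyc k) i Bs.one (Sum.inl (some b)) • φ (bb k r Bs.one) +
          ∑ j, MM (fcyc k) i (Bs.x j) (Sum.inl (some b)) • φ (bb k r (Bs.x j)) +
          (MM (fcyc k) i Bs.s (Sum.inl (some b)) • φ (bb k r Bs.s) +
          ∑ j, MM (fcyc k) i (Bs.z j) (Sum.inl (some b)) • φ (bb k r (Bs.z j)))) =
          ∑ c, fcyc k i b c • φ (X (c - 1) * X (c + 1)) := by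
        simp only [MM, zero_smul, Finset.sum_const_zero, zero_add]
        rfl
      rw [e0, e1]
      -- symmetric statement
      have key : ∀ i b : ZMod r, (b = i + 1 ∨ b = i + 2) →
          φ (X i * X b) = ∑ c, fcyc k i b c • φ (X (c - 1) * X (c + 1)) := by
        intro i b hib
        rcases hib with rfl | rfl
        · have e2 := hq i
          rw [map_sub, map_sub, sub_sub, sub_eq_zero] at e2
          rw [e2]
          have : ∀ c, fcyc k i (i + 1) c = (if c = i - 1 then 1 else 0) +
              (if c = i + 2 then 1 else 0) := by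
            intro c
            rw [fcyc_q hr]
            have a1 := fcyc_mid (k := k) hr (i - 1) c
            have a2 := fcyc_mid (k := k) hr (i + 2) c
            rw [show i - 1 - 1 = i - 2 by ring, show i - 1 + 1 = i by ring] at a1
            rw [show i + 2 - 1 = i + 1 by ring, show i + 2 + 1 = i + 3 by ring] at a2
            rw [a1, a2]
          simp only [this, add_smul, Finset.sum_add_distrib, ite_smul, one_smul, zero_smul,
            Finset.sum_ite_eq', Finset.mem_univ, if_true]
          rw [show i - 1 - 1 = i - 2 by ring, show i - 1 + 1 = i by ring,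
            show i + 2 - 1 = i + 1 by ring, show i + 2 + 1 = i + 3 by ring]
        · have : ∀ c, fcyc k i (i + 2) c = (if c = i + 1 then 1 else 0) := by
            intro c
            have a1 := fcyc_mid (k := k) hr (i + 1) c
            rw [show i + 1 - 1 = i by ring, show i + 1 + 1 = i + 2 by ring] at a1
            rw [a1]
          simp only [this, ite_smul, one_smul, zero_smul,
            Finset.sum_ite_eq', Finset.mem_univ, if_true]
          rw [show i + 1 - 1 = i by ring, show i + 1 + 1 = i + 2 by ring]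
      by_cases hib : EE i b
      · rw [hE i b hib]
        simp [fcyc_of_EE hib]
      · rcases near_of_not hib with h | h | h | h
        · exact key i b (Or.inr (by rw [h]; ring))
        · exact key i b (Or.inl (by rw [h]; ring))
        · rw [mul_comm (X i) (X b), key b i (Or.inl h)]
          simp only [(fcyc_sym k r).1 b i]
        · rw [mul_comm (X i) (X b), key b i (Or.inr h)]
          simp only [(fcyc_sym k r).1 b i]
    · -- m = s
      have e0 : φ (X i * bb k r (Sum.inr none)) =
        φ (X i * (X 1 * (X (1 - 1) * X (1 + 1)))) := rfl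
      have e1 : (MM (fcyc k) i Bs.one (Sum.inr none) • φ (bb k r Bs.one) +
          ∑ j, MM (fcyc k) i (Bs.x j) (Sum.inr none) • φ (bb k r (Bs.x j)) +
          (MM (fcyc k) i Bs.s (Sum.inr none) • φ (bb k r Bs.s) +
          ∑ j, MM (fcyc k) i (Bs.z j) (Sum.inr none) • φ (bb k r (Bs.z j)))) = 0 := by
        simp [MM]
      rw [e0, e1]
      by_cases a1 : EE i (1 - 1)
      · have e : (X i * (X 1 * (X (1 - 1) * X (1 + 1))) : MvPolynomial (ZMod r) k) =
          X 1 * X (1 + 1) * (X i * X (1 - 1)) := by ring
        rw [e, hE2 _ _ a1]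
      by_cases a2 : EE i (1 + 1)
      · have e : (X i * (X 1 * (X (1 - 1) * X (1 + 1))) : MvPolynomial (ZMod r) k) =
          X 1 * X (1 - 1) * (X i * X (1 + 1)) := by ring
        rw [e, hE2 _ _ a2]
      have := both_near hr a1 a2
      subst this
      have e : (X 1 * (X 1 * (X (1 - 1) * X (1 + 1))) : MvPolynomial (ZMod r) k) =
          X (1 - 1) * X (1 + 1) * (X 1 * X 1) := by ring
      rw [e, hE2 _ _ (EE_self hr 1)]
    · -- m = z c
      have e0 : φ (X i * bb k r (Sum.inr (some c))) =
        φ (X i * (X (c - 1) * X (c + 1))) := rfl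
      have e1 : (MM (fcyc k) i Bs.one (Sum.inr (some c)) • φ (bb k r Bs.one) +
          ∑ j, MM (fcyc k) i (Bs.x j) (Sum.inr (some c)) • φ (bb k r (Bs.x j)) +
          (MM (fcyc k) i Bs.s (Sum.inr (some c)) • φ (bb k r Bs.s) +
          ∑ j, MM (fcyc k) i (Bs.z j) (Sum.inr (some c)) • φ (bb k r (Bs.z j)))) =
          if c = i then φ (X 1 * (X (1 - 1) * X (1 + 1))) else 0 := by
        simp only [MM, zero_smul, Finset.sum_const_zero, zero_add, add_zero, ite_smul, one_smul]
        rfl
      rw [e0, e1]
      by_cases hci : c = i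
      · subst hci
        rw [if_pos rfl]
        have g1 := tau1 (c - 1)
        have g2 := tau1 (1 - 1)
        rw [← g2] at g1
        have e2 : (X c * (X (c - 1) * X (c + 1)) : MvPolynomial (ZMod r) k) =
          X (c - 1) * X (c - 1 + 1) * X (c - 1 + 2) := by
          rw [show c - 1 + 1 = c by ring, show c - 1 + 2 = c + 1 by ring]; ring
        have e3 : (X 1 * (X (1 - 1) * X (1 + 1)) : MvPolynomial (ZMod r) k) =
          X (1 - 1) * X (1 - 1 + 1) * X (1 - 1 + 2) := by
          rw [show (1 : ZMod r) - 1 + 1 = 1 by ring, show (1 : ZMod r) - 1 + 2 = 1 + 1 by ring]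
          ring
        rw [e2, e3, g1]
      · rw [if_neg hci]
        by_cases a1 : EE i (c - 1)
        · have e : (X i * (X (c - 1) * X (c + 1)) : MvPolynomial (ZMod r) k) =
            X (c + 1) * (X i * X (c - 1)) := by ring
          rw [e, hE2 _ _ a1]
        by_cases a2 : EE i (c + 1)
        · have e : (X i * (X (c - 1) * X (c + 1)) : MvPolynomial (ZMod r) k) =
            X (c - 1) * (X i * X (c + 1)) := by ring
          rw [e, hE2 _ _ a2]
        exact absurd (both_near hr a1 a2).symm hci
  -- φ factors through π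
  have hfac : ∀ f, φ f = ∑ m, π f m • φ (bb k r m) := by
    intro f
    induction f using MvPolynomial.induction_on with
    | C a =>
      have e : (C a : MvPolynomial (ZMod r) k) = a • 1 := by
        rw [MvPolynomial.smul_eq_C_mul, mul_one]
      rw [e, map_smul, map_smul, h1]
      simp only [Pi.smul_apply, smul_eq_mul, Pi.single_apply, mul_ite, mul_one, mul_zero,
        ite_smul, zero_smul, Finset.sum_ite_eq', Finset.mem_univ, if_true]
      rfl
    | add p q hp hq =>
      rw [map_add, map_add, hp, hq, ← Finset.sum_add_distrib]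
      apply Finset.sum_congr rfl
      intro m _
      rw [Pi.add_apply, add_smul]
    | mul_X f i hf =>
      have e0 : π (f - ∑ m, π f m • bb k r m) = 0 := by
        rw [map_sub, map_sum, sub_eq_zero]
        simp only [map_smul, pi_bb hr h1 h2]
        funext l
        rw [Finset.sum_apply]
        simp [Pi.single_apply]
      have e1 : φ (f - ∑ m, π f m • bb k r m) = 0 := by
        rw [map_sub, map_sum, sub_eq_zero]
        simp only [map_smul]
        exact hf
      have e2 := hφ1 _ e0 i
      rw [e1, Matrix.mulVec_zero, mul_sub, map_sub, sub_eq_zero, Finset.mul_sum, map_sum] at e2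
      rw [mul_comm, e2]
      have e3 : ∀ m, φ (X i * π f m • bb k r m) =
          ∑ l, (MM (fcyc k) i l m * π f m) • φ (bb k r l) := by
        intro m
        rw [mul_smul_comm, map_smul, star, Finset.smul_sum]
        apply Finset.sum_congr rfl
        intro l _
        rw [smul_smul, mul_comm]
      simp only [e3]
      rw [Finset.sum_comm]
      apply Finset.sum_congr rfl
      intro l _
      rw [← Finset.sum_smul, h2]
      rfl
  intro f hf
  rw [hfac, hf]
  simp

/-- the cyclic cubic form has trivial negative tangents -/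
theorem tnt_cyc (hr : 8 ≤ r) (h1 : π 1 = Pi.single Bs.one 1)
    (h2 : ∀ i g, π (X i * g) = (MM (fcyc k) i).mulVec (π g)) :
    TNT Bs.deg (MM (fcyc k) : ZMod r → Matrix (Bs (ZMod r)) (Bs (ZMod r)) k) π := by
  intro φ hφ1 hφ2
  let a : ZMod r → k := fun c => φ (Y k c 0 * (Y k c 3 * Y k c 4 * Y k c 5)) Bs.s
  let D : Derivation k (MvPolynomial (ZMod r) k) (MvPolynomial (ZMod r) k) :=
    mkDerivation k (fun i => C (a i))
  have hDX : ∀ i, D (X i) = C (a i) := fun i => mkDerivation_X _ _ _
  have hD : ∀ f, D f = ∑ i, a i • pderiv i f := by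
    intro f
    induction f using MvPolynomial.induction_on with
    | C c =>
      have e : (C c : MvPolynomial (ZMod r) k) = algebraMap k _ c := rfl
      rw [e, Derivation.map_algebraMap]
      simp
    | add p q hp hq => simp only [map_add, hp, hq, smul_add, Finset.sum_add_distrib]
    | mul_X p i hp =>
      rw [Derivation.leibniz, hp, hDX]
      have : ∀ j, a j • pderiv j (p * X i) =
          p * (if i = j then C (a j) else 0) + X i * (a j • pderiv j p) := by
        intro j
        rw [Derivation.leibniz, pderiv_X, smul_add, smul_eq_mul, smul_eq_mul]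
        congr 1
        · by_cases hij : i = j
          · subst hij
            rw [Pi.single_eq_same, if_pos rfl, mul_one, MvPolynomial.smul_eq_C_mul, mul_comm]
          · rw [Pi.single_apply, if_neg hij, if_neg hij, mul_zero, smul_zero]
        · rw [mul_smul_comm]
      simp only [this, Finset.sum_add_distrib, ← Finset.mul_sum]
      simp
  let ψ : MvPolynomial (ZMod r) k →ₗ[k] (Bs (ZMod r) → k) := π.comp D.toLinearMap
  have hψ : ∀ f, ψ f = π (D f) := fun f => rfl
  have key : ∀ f, π f = 0 → (φ - ψ) f = 0 := by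
    apply tnt_normalised hr h1 h2
    · intro f hf i
      rw [LinearMap.sub_apply, LinearMap.sub_apply, hφ1 f hf i, hψ, hψ, Derivation.leibniz,
        hDX, Matrix.mulVec_sub]
      congr 1
      rw [map_add, smul_eq_mul, smul_eq_mul, h2, mul_comm f, ← MvPolynomial.smul_eq_C_mul,
        map_smul, hf, smul_zero, add_zero]
    · intro e l hel
      rw [LinearMap.sub_apply, Pi.sub_apply, hφ2 e l hel, hψ, hD, zero_sub, neg_eq_zero,
        map_sum, Finset.sum_apply]
      apply Finset.sum_eq_zero
      intro i _
      rw [map_smul, Pi.smul_apply, smul_eq_mul]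
      by_cases hi : e i = 0
      · have : pderiv i (monomial e (1 : k)) = 0 := by
          rw [pderiv_monomial, hi]
          simp
        rw [this, map_zero]
        simp
      · rw [pderiv_monomial, one_mul]
        have e1 : (monomial (e - Finsupp.single i 1) ((e i : ℕ) : k) : MvPolynomial (ZMod r) k) =
            ((e i : ℕ) : k) • monomial (e - Finsupp.single i 1) 1 := by
          rw [smul_monomial, smul_eq_mul, mul_one]
        rw [e1, map_smul, Pi.smul_apply, smul_eq_mul]
        have e2 : π (monomial (e - Finsupp.single i 1) 1) l = 0 := by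
          by_contra hne
          have a1 := pi_deg h1 h2 _ _ hne
          have hle : Finsupp.single i 1 ≤ e := by
            rw [Finsupp.single_le_iff]; omega
          have a2 : e = Finsupp.single i 1 + (e - Finsupp.single i 1) :=
            (add_tsub_cancel_of_le hle).symm
          have a3 : e.degree = 1 + (e - Finsupp.single i 1).degree := by
            conv_lhs => rw [a2]
            rw [map_add, Finsupp.degree_single]
          omega
        rw [e2]
        ring
    · intro c
      rw [LinearMap.sub_apply, Pi.sub_apply, hψ]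
      have e1 : D (Y k c 0 * (Y k c 3 * Y k c 4 * Y k c 5)) =
          a (c + ((5 : ℤ) : ZMod r)) • (Y k c 4 * (Y k c 0 * Y k c 3)) +
          a (c + ((4 : ℤ) : ZMod r)) • (Y k c 5 * (Y k c 0 * Y k c 3)) +
          a (c + ((3 : ℤ) : ZMod r)) • (Y k c 4 * (Y k c 0 * Y k c 5)) +
          a c • (Y k c 5 * (Y k c 3 * Y k c 4)) := by
        unfold Y
        rw [Derivation.leibniz, Derivation.leibniz, Derivation.leibniz, hDX, hDX, hDX, hDX]
        simp only [smul_eq_mul, MvPolynomial.smul_eq_C_mul, Int.cast_zero, add_zero]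
        ring
      rw [e1]
      have z1 : ∀ (x : ZMod r) (m n : ℤ), EE (c + (m : ZMod r)) (c + (n : ZMod r)) →
          π (X x * (Y k c m * Y k c n)) Bs.s = 0 := by
        intro x m n h
        unfold Y
        rw [pi_XXX_s h1 h2, fcyc_of_EE h]
      have z2 : EE (c + ((0 : ℤ) : ZMod r)) (c + ((3 : ℤ) : ZMod r)) :=
        EE_of c 0 3 0 (by norm_num) (by omega) (by omega) (by omega)
      have z3 : EE (c + ((0 : ℤ) : ZMod r)) (c + ((5 : ℤ) : ZMod r)) :=
        EE_of c 0 5 0 (by norm_num) (by omega) (by omega) (by omega)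
      have z4 : π (Y k c 5 * (Y k c 3 * Y k c 4)) Bs.s = 1 := by
        unfold Y
        rw [pi_XXX_s h1 h2]
        unfold fcyc
        rw [if_pos]
        left
        constructor <;> (push_cast; ring)
      simp only [map_add, map_smul, Pi.add_apply, Pi.smul_apply, smul_eq_mul]
      have w1 : π (Y k c 4 * (Y k c 0 * Y k c 3)) Bs.s = 0 := z1 _ 0 3 z2
      have w2 : π (Y k c 5 * (Y k c 0 * Y k c 3)) Bs.s = 0 := z1 _ 0 3 z2
      have w3 : π (Y k c 4 * (Y k c 0 * Y k c 5)) Bs.s = 0 := z1 _ 0 5 z3
      rw [w1, w2, w3, z4]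
      show a c - _ = 0
      ring
  refine ⟨a, fun f hf => ?_⟩
  have e1 := key f hf
  rw [LinearMap.sub_apply, sub_eq_zero, hψ, hD, map_sum] at e1
  rw [e1]
  apply Finset.sum_congr rfl
  intro i _
  rw [map_smul]

end

end Q35.EC
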