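import Mathlib
import Pool.Agent.Q35.EC.TntCyc

/-!
The chart around the cyclic form, with variables indexed by `Fin r`.
-/

set_option autoImplicit false

namespace Q35.EC

open MvPolynomial

/-- the variable used to reach a basis element from its parent -/
def vrOf {ι : Type*} (p : ι → ι) (i0 : ι) : Bs ι → ι
  | Sum.inl none => i0
  | Sum.inl (some a) => a
  | Sum.inr (some c) => p c
  | Sum.inr none => i0

/-- the parent of a basis element -/
def parOf {ι : Type*} (q : ι → ι) (i0 : ι) : Bs ι → Bs ι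
  | Sum.inl none => Bs.one
  | Sum.inl (some _) => Bs.one
  | Sum.inr (some c) => Bs.x (q c)
  | Sum.inr none => Bs.z i0

theorem parOf_deg {ι : Type*} (q : ι → ι) (i0 : ι) (m : Bs ι) (hm : m ≠ Bs.one) :
    m.deg = (parOf q i0 m).deg + 1 := by
  rcases m with (_ | m) | (_ | m)
  · exact absurd rfl hm
  · rfl
  · rfl
  · rfl

theorem chartEq_MM {k ι : Type*} [Field k] [Fintype ι] [DecidableEq ι] {f : ι → ι → ι → k}
    (hf : Sym3 f) (p q : ι → ι) (i0 : ι) (hpq : ∀ c l, f (p c) (q c) l = if l = c then 1 else 0) :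
    chartEq Bs.one (vrOf p i0) (parOf q i0) (MM f) := by
  refine ⟨fun i j => MM_comm hf i j, ?_, ?_⟩
  · intro m hm l
    rcases m with (_ | m) | (_ | m)
    · exact absurd rfl hm
    · rcases l with (_ | l) | (_ | l)
      · simp [MM, vrOf, parOf]
      · by_cases h : l = m
        · simp [MM, vrOf, parOf, h]
        · simp [MM, vrOf, parOf, h]
      · simp [MM, vrOf, parOf]
      · simp [MM, vrOf, parOf]
    · rcases l with (_ | l) | (_ | l) <;> simp [MM, vrOf, parOf]
    · rcases l with (_ | l) | (_ | l)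
      · simp [MM, vrOf, parOf]
      · simp [MM, vrOf, parOf]
      · simp [MM, vrOf, parOf]
      · by_cases h : l = m
        · simp [MM, vrOf, parOf, h, hpq]
        · simp [MM, vrOf, parOf, h, hpq]
  · intro i
    rw [Matrix.trace]
    apply Finset.sum_eq_zero
    intro m _
    rw [Matrix.diag_apply]
    by_contra h
    have := MM_deg f i m m h
    omega

theorem exists_rigid_zmod (k : Type*) [Field k] [CharZero k] (r : ℕ) [NeZero r] (hr : 8 ≤ r) :
    ∃ (f : ZMod r → ZMod r → ZMod r → k) (p q : ZMod r → ZMod r) (i0 : ZMod r),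
      Sym3 f ∧ (∀ c l, f (p c) (q c) l = if l = c then 1 else 0) ∧
      Rigid Bs.deg Bs.one (vrOf p i0) (parOf q i0) (MM f) := by
  obtain ⟨π, h1, h2⟩ := exists_pi (fcyc_sym k r)
  refine ⟨fcyc k, fun c => c - 1, fun c => c + 1, 1, fcyc_sym k r, fun c l => fcyc_mid hr c l, ?_⟩
  apply rigid_of_TNT Bs.deg Bs.one _ _ (MM (fcyc k)) π h2 (bb k r) (pi_bb hr h1 h2) rfl
  · intro m hm
    rcases m with (_ | m) | (_ | m)
    · exact absurd rfl hm
    · show (X m : MvPolynomial (ZMod r) k) = X m * 1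
      rw [mul_one]
    · rfl
    · rfl
  · intro i l m h
    exact MM_deg _ i l m h
  · exact parOf_deg _ _
  · rfl
  · exact MM_comm (fcyc_sym k r)
  · exact tnt_cyc hr h1 h2

theorem exists_rigid (k : Type*) [Field k] [CharZero k] (r : ℕ) (hr : 8 ≤ r) :
    ∃ (f : Fin r → Fin r → Fin r → k) (p q : Fin r → Fin r) (i0 : Fin r),
      Sym3 f ∧ (∀ c l, f (p c) (q c) l = if l = c then 1 else 0) ∧
      Rigid Bs.deg Bs.one (vrOf p i0) (parOf q i0) (MM f) := by
  obtain ⟨n, rfl⟩ : ∃ n, r = n + 1 := ⟨r - 1, by omega⟩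
  have := exists_rigid_zmod k (n + 1) hr
  exact this

end Q35.EC
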