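import Mathlib
import Pool.Agent.Q35.EC.Alg

/-!
Cubic forms, contraction, annihilators.
-/

set_option autoImplicit false

namespace Q35.EC

open MvPolynomial

/-- A cubic form in `r` dual variables, given by its coefficients: one for each monomial of
degree `3`, i.e. for each multiset of size `3` in `Fin r`. -/
abbrev Cubic (k : Type*) (r : ℕ) := Sym (Fin r) 3 → k

/-- The cubic form with the given coefficients, as a polynomial. -/
noncomputable def form {k : Type*} [Field k] {r : ℕ} (F : Cubic k r) :
    MvPolynomial (Fin r) k :=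
  ∑ s : Sym (Fin r) 3, monomial (Multiset.toFinsupp (s : Multiset (Fin r))) (F s)

/-- The action of `g` on `F` by contraction: it is linear in `g`, and the monomial `x^a` sends
the monomial `X^b` to `X^(b-a)` if `a ≤ b` and to `0` otherwise. -/
noncomputable def contract {k : Type*} [Field k] {r : ℕ} (g F : MvPolynomial (Fin r) k) :
    MvPolynomial (Fin r) k :=
  ∑ a ∈ g.support, coeff a g • (F.divMonomial a)

section
variable {k : Type*} [Field k] {r : ℕ}

/-- the functional `g ↦ (g ∘ F)_0` -/
noncomputable def lam (F : MvPolynomial (Fin r) k) : MvPolynomial (Fin r) k →ₗ[k] k :=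
  (basisMonomials (Fin r) k).constr k (fun a => coeff a F)

theorem lam_monomial (F : MvPolynomial (Fin r) k) (a : Fin r →₀ ℕ) (t : k) :
    lam F (monomial a t) = t * coeff a F := by
  have h1 : (monomial a t : MvPolynomial (Fin r) k) = t • monomial a 1 := by
    rw [smul_monomial, smul_eq_mul, mul_one]
  have h2 : (basisMonomials (Fin r) k) a = monomial a 1 := by
    rw [coe_basisMonomials]
  rw [h1, map_smul, ← h2, lam, Module.Basis.constr_basis, smul_eq_mul]

theorem coeff_contract (g F : MvPolynomial (Fin r) k) (c : Fin r →₀ ℕ) :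
    coeff c (contract g F) = lam F (monomial c 1 * g) := by
  conv_rhs => rw [as_sum g]
  rw [Finset.mul_sum, map_sum, contract, coeff_sum]
  apply Finset.sum_congr rfl
  intro a _
  rw [coeff_smul, coeff_divMonomial, monomial_mul, lam_monomial, one_mul, smul_eq_mul, add_comm c a]

theorem contract_eq_zero (g F : MvPolynomial (Fin r) k) :
    contract g F = 0 ↔ ∀ h, lam F (h * g) = 0 := by
  constructor
  · intro hg h
    rw [as_sum h, Finset.sum_mul, map_sum]
    apply Finset.sum_eq_zero
    intro a _
    have h1 : (monomial a (coeff a h) : MvPolynomial (Fin r) k) = coeff a h • monomial a 1 := by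
      rw [smul_monomial, smul_eq_mul, mul_one]
    rw [h1, smul_mul_assoc, map_smul, ← coeff_contract, hg, coeff_zero, smul_zero]
  · intro hg
    ext c
    rw [coeff_contract, hg, coeff_zero]

end

/-- The annihilator `Ann(F)` of `F` under contraction. -/
noncomputable def ann {k : Type*} [Field k] {r : ℕ} (F : MvPolynomial (Fin r) k) :
    Ideal (MvPolynomial (Fin r) k) where
  carrier := {g | contract g F = 0}
  zero_mem' := by
    show contract 0 F = 0
    rw [contract_eq_zero]
    intro h
    rw [mul_zero, map_zero]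
  add_mem' := by
    intro a b ha hb
    show contract (a + b) F = 0
    rw [contract_eq_zero]
    intro h
    rw [mul_add, map_add, (contract_eq_zero a F).1 ha h, (contract_eq_zero b F).1 hb h, add_zero]
  smul_mem' := by
    intro c a ha
    show contract (c * a) F = 0
    rw [contract_eq_zero]
    intro h
    rw [← mul_assoc]
    exact (contract_eq_zero a F).1 ha (h * c)

section
variable {k : Type*} [Field k] {r : ℕ}

theorem mem_ann (g F : MvPolynomial (Fin r) k) : g ∈ ann F ↔ ∀ h, lam F (h * g) = 0 :=
  contract_eq_zero g F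

/-- the symmetric tensor of a cubic form -/
noncomputable def tens (F : Cubic k r) (a b c : Fin r) : k :=
  coeff (Finsupp.single a 1 + Finsupp.single b 1 + Finsupp.single c 1) (form F)

theorem tens_sym (F : Cubic k r) : Sym3 (tens F) := by
  constructor
  · intro a b c
    rw [tens, tens, add_comm (Finsupp.single a 1) (Finsupp.single b 1)]
  · intro a b c
    rw [tens, tens]
    congr 1
    rw [add_assoc, add_comm (Finsupp.single b 1), ← add_assoc]

theorem degree_toFinsupp (s : Multiset (Fin r)) : (Multiset.toFinsupp s).degree = s.card := by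
  induction s using Multiset.induction_on with
  | empty => simp
  | cons a s ih =>
    rw [← Multiset.singleton_add, Multiset.toFinsupp_add, map_add, ih,
      Multiset.toFinsupp_singleton, Finsupp.degree_single, Multiset.card_add,
      Multiset.card_singleton]

theorem coeff_form_deg (F : Cubic k r) (e : Fin r →₀ ℕ) (he : e.degree ≠ 3) :
    coeff e (form F) = 0 := by
  rw [form, coeff_sum]
  apply Finset.sum_eq_zero
  intro s _
  rw [coeff_monomial, if_neg]
  rintro rfl
  apply he
  rw [degree_toFinsupp]
  exact s.2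

theorem coeff_form_sym (F : Cubic k r) (s : Sym (Fin r) 3) :
    coeff (Multiset.toFinsupp (s : Multiset (Fin r))) (form F) = F s := by
  rw [form, coeff_sum, Finset.sum_eq_single s]
  · rw [coeff_monomial, if_pos rfl]
  · intro t _ ht
    rw [coeff_monomial, if_neg]
    intro h
    apply ht
    exact Subtype.ext (Multiset.toFinsupp.injective h)
  · simp

theorem coeff_form_poly (e : Fin r →₀ ℕ) :
    (fun F : Cubic k r => coeff e (form F)) ∈ polyFun (Sym (Fin r) 3) k := by
  have : (fun F : Cubic k r => coeff e (form F)) = fun F => ∑ s : Sym (Fin r) 3,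
      (if Multiset.toFinsupp (s : Multiset (Fin r)) = e then (1 : k) else 0) * F s := by
    funext F
    rw [form, coeff_sum]
    apply Finset.sum_congr rfl
    intro s _
    rw [coeff_monomial]
    split_ifs <;> simp
  rw [this]
  exact fsum_mem _ (fun s _ => fmul_mem (const_mem _) (coord_mem s))

theorem tens_poly (a b c : Fin r) :
    (fun F : Cubic k r => tens F a b c) ∈ polyFun (Sym (Fin r) 3) k := coeff_form_poly _

/-- vanishing of linear functionals -/
theorem van_step {ι : Type*} (L : MvPolynomial ι k →ₗ[k] k) (m : MvPolynomial ι k)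
    (h0 : L m = 0) (h1 : ∀ d g, L (m * X d * g) = 0) (g : MvPolynomial ι k) : L (m * g) = 0 := by
  induction g using MvPolynomial.induction_on with
  | C a =>
    have : m * C a = a • m := by rw [MvPolynomial.smul_eq_C_mul, mul_comm]
    rw [this, map_smul, h0, smul_zero]
  | add p q hp hq => rw [mul_add, map_add, hp, hq, add_zero]
  | mul_X p i _ =>
    have : m * (p * X i) = m * X i * p := by ring
    rw [this, h1]

theorem van {ι : Type*} (L : MvPolynomial ι k →ₗ[k] k) (h0 : L 1 = 0) (h1 : ∀ a, L (X a) = 0)
    (h2 : ∀ a b, L (X a * X b) = 0) (h3 : ∀ a b c, L (X a * X b * X c) = 0)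
    (h4 : ∀ a b c d g, L (X a * X b * X c * X d * g) = 0) (g : MvPolynomial ι k) : L g = 0 := by
  have e3 : ∀ a b c g, L (X a * X b * X c * g) = 0 := fun a b c g =>
    van_step L _ (h3 a b c) (h4 a b c) g
  have e2 : ∀ a b g, L (X a * X b * g) = 0 := fun a b g =>
    van_step L _ (h2 a b) (e3 a b) g
  have e1 : ∀ a g, L (X a * g) = 0 := fun a g => van_step L _ (h1 a) (e2 a) g
  have := van_step L 1 h0 (fun d g => by rw [one_mul]; exact e1 d g) g
  rwa [one_mul] at this

theorem X_eq_mon (a : Fin r) : (X a : MvPolynomial (Fin r) k) = monomial (Finsupp.single a 1) 1 :=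
  rfl

theorem lam_XXX (F : Cubic k r) (a b c : Fin r) :
    lam (form F) (X a * X b * X c) = tens F a b c := by
  rw [X_eq_mon, X_eq_mon, X_eq_mon, monomial_mul, monomial_mul, lam_monomial, tens]
  simp

/-- A functional vanishing outside degree `3` comes from a cubic form. -/
theorem lam_unique (F : Cubic k r) (L : MvPolynomial (Fin r) k →ₗ[k] k) (h0 : L 1 = 0)
    (h1 : ∀ a, L (X a) = 0) (h2 : ∀ a b, L (X a * X b) = 0)
    (h3 : ∀ a b c, L (X a * X b * X c) = tens F a b c)
    (h4 : ∀ a b c d g, L (X a * X b * X c * X d * g) = 0) (g : MvPolynomial (Fin r) k) :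
    L g = lam (form F) g := by
  have := van (L - lam (form F)) (by
      rw [LinearMap.sub_apply, h0, zero_sub, neg_eq_zero]
      have : (1 : MvPolynomial (Fin r) k) = monomial 0 1 := rfl
      rw [this, lam_monomial, coeff_form_deg]
      · simp
      · simp) (by
      intro a
      rw [LinearMap.sub_apply, h1, zero_sub, neg_eq_zero]
      rw [X_eq_mon, lam_monomial, coeff_form_deg]
      · simp
      · simp) (by
      intro a b
      rw [LinearMap.sub_apply, h2, zero_sub, neg_eq_zero]
      rw [X_eq_mon, X_eq_mon, monomial_mul, lam_monomial, coeff_form_deg]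
      · simp
      · simp) (by
      intro a b c
      rw [LinearMap.sub_apply, h3, lam_XXX, sub_self]) (by
      intro a b c d g
      rw [LinearMap.sub_apply, h4, zero_sub, neg_eq_zero]
      rw [as_sum g, Finset.mul_sum, map_sum]
      apply Finset.sum_eq_zero
      intro e _
      rw [X_eq_mon, X_eq_mon, X_eq_mon, X_eq_mon, monomial_mul, monomial_mul, monomial_mul,
        monomial_mul, lam_monomial, coeff_form_deg]
      · simp
      · simp only [map_add, Finsupp.degree_single]
        omega) g
  rw [LinearMap.sub_apply, sub_eq_zero] at this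
  exact this

/-- the cubic form of a functional -/
noncomputable def cub (L : MvPolynomial (Fin r) k →ₗ[k] k) : Cubic k r :=
  fun s => L (monomial (Multiset.toFinsupp (s : Multiset (Fin r))) 1)

theorem tens_cub (L : MvPolynomial (Fin r) k →ₗ[k] k) (a b c : Fin r) :
    tens (cub L) a b c = L (X a * X b * X c) := by
  let s : Sym (Fin r) 3 := ⟨{a} + {b} + {c}, by simp⟩
  have hs : Multiset.toFinsupp (s : Multiset (Fin r)) =
      Finsupp.single a 1 + Finsupp.single b 1 + Finsupp.single c 1 := by
    show Multiset.toFinsupp ({a} + {b} + {c}) = _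
    rw [Multiset.toFinsupp_add, Multiset.toFinsupp_add, Multiset.toFinsupp_singleton,
      Multiset.toFinsupp_singleton, Multiset.toFinsupp_singleton]
  rw [tens, ← hs, coeff_form_sym, cub, hs, X_eq_mon, X_eq_mon, X_eq_mon, monomial_mul,
    monomial_mul]
  simp

section
variable {F : Cubic k r} {π : MvPolynomial (Fin r) k →ₗ[k] (Bs (Fin r) → k)}

theorem pi_s_eq_lam (h1 : π 1 = Pi.single Bs.one 1)
    (h2 : ∀ i g, π (X i * g) = (MM (tens F) i).mulVec (π g)) (g : MvPolynomial (Fin r) k) :
    π g Bs.s = lam (form F) g := by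
  have h4 : ∀ a b c d g, π (X a * X b * X c * X d * g) Bs.s = 0 := by
    intro a b c d g
    rw [mul_assoc, mul_assoc, mul_assoc, h2, mulVec_s, h2, mulVec_z]
    apply Finset.sum_eq_zero
    intro e _
    rw [h2, mulVec_x, h2, mulVec_one]
    simp
  refine lam_unique F ((LinearMap.proj Bs.s).comp π) ?_ ?_ ?_ ?_ ?_ g
  · show π 1 Bs.s = 0
    rw [h1]; simp
  · intro a
    show π (X a) Bs.s = 0
    rw [pi_X h1 h2]; simp
  · intro a b
    show π (X a * X b) Bs.s = 0
    rw [pi_XX_s h1 h2]
  · intro a b c
    show π (X a * X b * X c) Bs.s = _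
    rw [mul_assoc, pi_XXX_s h1 h2]
    have hf := tens_sym F
    rw [hf.2 b c a, hf.1 b a c]
  · intro a b c d g
    exact h4 a b c d g

theorem mem_ann_of_pi (h1 : π 1 = Pi.single Bs.one 1)
    (h2 : ∀ i g, π (X i * g) = (MM (tens F) i).mulVec (π g)) (g : MvPolynomial (Fin r) k)
    (hg : π g = 0) : g ∈ ann (form F) := by
  rw [mem_ann]
  intro h
  rw [← pi_s_eq_lam h1 h2, pi_mul (tens_sym F) h1 h2, hg, mu_s]
  simp

theorem mem_ann_iff_pi (h1 : π 1 = Pi.single Bs.one 1)
    (h2 : ∀ i g, π (X i * g) = (MM (tens F) i).mulVec (π g)) (hs : Function.Surjective π)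
    (g : MvPolynomial (Fin r) k) : π g = 0 ↔ g ∈ ann (form F) := by
  refine ⟨mem_ann_of_pi h1 h2 g, fun hg => ?_⟩
  apply pi_eq_zero_of_pairing (tens_sym F) h1 h2 hs
  intro h
  rw [pi_s_eq_lam h1 h2]
  exact (mem_ann g _).1 hg h

theorem card_Bs : Fintype.card (Bs (Fin r)) = 2 * r + 2 := by
  rw [Fintype.card_sum, Fintype.card_option, Fintype.card_fin]
  omega

/-- for concise forms, `Ann(F)` is a point of the Hilbert scheme -/
theorem ann_mem_hilb [Nonempty (Fin r)] (hc : Concise (tens F)) :
    Module.Finite k (MvPolynomial (Fin r) k ⧸ ann (form F)) ∧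
      Module.finrank k (MvPolynomial (Fin r) k ⧸ ann (form F)) = 2 * r + 2 := by
  obtain ⟨π, h1, h2⟩ := exists_pi (tens_sym F)
  have hs := pi_surj_of_concise hc h1 h2
  exact mem_hilb_of_surj card_Bs π hs (mem_ann_iff_pi h1 h2 hs)

/-- a form whose apolar algebra has dimension `2r+2` is concise -/
theorem concise_of_finrank
    (hn : Module.finrank k (MvPolynomial (Fin r) k ⧸ ann (form F)) = 2 * r + 2) :
    Concise (tens F) := by
  obtain ⟨π, h1, h2⟩ := exists_pi (tens_sym F)
  have := factor π ((ann (form F)).mkQ.restrictScalars k) (by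
      intro g hg
      have := mem_ann_of_pi h1 h2 g hg
      simpa [Ideal.Quotient.eq_zero_iff_mem] using this) (ann (form F)).mkQ_surjective (by
      rw [hn, Module.finrank_fintype_fun_eq_card, card_Bs])
  exact concise_of_pi_surj (tens_sym F) h1 h2 this.1

theorem exists_ann_equiv [Nonempty (Fin r)] (hc : Concise (tens F))
    (h1 : π 1 = Pi.single Bs.one 1)
    (h2 : ∀ i g, π (X i * g) = (MM (tens F) i).mulVec (π g)) :
    ∃ e : (MvPolynomial (Fin r) k ⧸ ann (form F)) ≃ₗ[k] (Bs (Fin r) → k),
      (∀ g, e (Ideal.Quotient.mk _ g) = π g) ∧ e 1 = Pi.single Bs.one 1 ∧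
        ∀ a b, e (a * b) = mu (tens F) (e a) (e b) := by
  have hs := pi_surj_of_concise hc h1 h2
  obtain ⟨e, he⟩ := exists_equiv_of_ker (k := k) ((ann (form F)).mkQ.restrictScalars k) π
    (ann (form F)).mkQ_surjective hs (by
      intro g
      rw [mem_ann_iff_pi h1 h2 hs]
      simp [Ideal.Quotient.eq_zero_iff_mem])
  have he' : ∀ g, e (Ideal.Quotient.mk _ g) = π g := he
  refine ⟨e, he', ?_, ?_⟩
  · rw [← h1, ← he']
    exact congrArg e (map_one (Ideal.Quotient.mk (ann (form F)))).symm
  · intro a b
    obtain ⟨a, rfl⟩ := Ideal.Quotient.mk_surjective a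
    obtain ⟨b, rfl⟩ := Ideal.Quotient.mk_surjective b
    rw [← map_mul, he', he', he', pi_mul (tens_sym F) h1 h2]

theorem ann_model [Nonempty (Fin r)] (hc : Concise (tens F)) :
    Model (tens F) (MvPolynomial (Fin r) k ⧸ ann (form F)) := by
  obtain ⟨π, h1, h2⟩ := exists_pi (tens_sym F)
  obtain ⟨e, -, he1, he2⟩ := exists_ann_equiv hc h1 h2
  exact ⟨e, he1, he2⟩

end

end

end Q35.EC
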