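import Mathlib
import Pool.Agent.Q35.EC.Cubic
import Pool.Agent.Q35.EC.Chart0

/-!
Filtered points of the chart are apolar algebras of cubic forms.
-/

set_option autoImplicit false

namespace Q35.EC

open MvPolynomial

section
variable {k : Type*} [Field k] {r : ℕ}

theorem VV_mulVec {N : Matrix (Bs (Fin r)) (Bs (Fin r)) k} {j t : ℕ}
    (hN : ∀ l m, l.deg < m.deg + t → N l m = 0) {u : Bs (Fin r) → k} (hu : VV j u) :
    VV (j + t) (N.mulVec u) := by
  intro l hl
  rw [Matrix.mulVec, dotProduct]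
  apply Finset.sum_eq_zero
  intro m _
  by_cases h : m.deg < j
  · rw [hu m h, mul_zero]
  · rw [hN l m (by omega), zero_mul]

theorem VV_four {u : Bs (Fin r) → k} (hu : VV 4 u) : u = 0 := by
  funext l
  apply hu l
  rcases l with (_ | l) | (_ | l) <;> simp

theorem structure_thm [Nonempty (Fin r)] (h2k : (2 : k) ≠ 0)
    (p q : Fin r → Fin r) (i0 : Fin r) (M : Fin r → Matrix (Bs (Fin r)) (Bs (Fin r)) k)
    (hch : chartEq Bs.one (vrOf p i0) (parOf q i0) M)
    (hneg : ∀ i l m, l.deg ≤ m.deg → M i l m = 0)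
    (P : Matrix (Fin r) (Fin r) k) (hP : ∀ a d, P a d = M a Bs.s (Bs.z d)) (hdet : P.det ≠ 0)
    (c : Fin r → k) (J : Ideal (MvPolynomial (Fin r) k))
    (π : MvPolynomial (Fin r) k →ₗ[k] (Bs (Fin r) → k))
    (hJ : ∀ g, π g = 0 ↔ g ∈ J) (h1 : π 1 = Pi.single Bs.one 1)
    (h2 : ∀ i g, π ((X i - C (c i)) * g) = (M i).mulVec (π g)) :
    ∃ F : Cubic k r, Concise (tens F) ∧
      Nonempty ((MvPolynomial (Fin r) k ⧸ J) ≃ₐ[k] (MvPolynomial (Fin r) k ⧸ ann (form F))) := by
  obtain ⟨hcomm, hcol, -⟩ := hch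
  let Q : Matrix (Fin r) (Fin r) k := fun a b => M a Bs.s (Bs.x b)
  let κ : Matrix (Fin r) (Fin r) k := P⁻¹ * (-(2 : k)⁻¹ • Q)
  have hPκ : P * κ = -(2 : k)⁻¹ • Q :=
    Matrix.mul_nonsing_inv_cancel_left _ _ (isUnit_iff_ne_zero.2 hdet)
  let Kc : Fin r → Matrix (Bs (Fin r)) (Bs (Fin r)) k :=
    fun a => ∑ d, κ d a • (M (p d) * M (q d))
  let N : Fin r → Matrix (Bs (Fin r)) (Bs (Fin r)) k := fun a => M a + Kc a
  let xt : Fin r → MvPolynomial (Fin r) k := fun i => X i - C (c i)
  let y : Fin r → MvPolynomial (Fin r) k := fun a =>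
    xt a + ∑ d, C (κ d a) * (xt (p d) * xt (q d))
  have h2' : ∀ i g, π (xt i * g) = (M i).mulVec (π g) := h2
  have hy : ∀ a g, π (y a * g) = (N a).mulVec (π g) := by
    intro a g
    have e1 : y a * g = xt a * g + ∑ d, κ d a • (xt (p d) * (xt (q d) * g)) := by
      show (xt a + ∑ d, C (κ d a) * (xt (p d) * xt (q d))) * g = _
      rw [add_mul, Finset.sum_mul]
      congr 1
      apply Finset.sum_congr rfl
      intro d _
      rw [MvPolynomial.smul_eq_C_mul]
      ring
    rw [e1, map_add, map_sum, h2']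
    show _ = (M a + Kc a).mulVec (π g)
    rw [Matrix.add_mulVec]
    congr 1
    show _ = (∑ d, κ d a • (M (p d) * M (q d))).mulVec (π g)
    rw [Matrix.sum_mulVec]
    apply Finset.sum_congr rfl
    intro d _
    rw [map_smul, h2', h2', Matrix.smul_mulVec, Matrix.mulVec_mulVec]
  -- filtration
  have hM1 : ∀ i l m, l.deg < m.deg + 1 → M i l m = 0 := fun i l m h => hneg i l m (by omega)
  have hMV : ∀ i j u, VV j u → VV (j + 1) ((M i).mulVec u) := fun i j u hu =>
    VV_mulVec (hM1 i) hu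
  have hKV : ∀ a j u, VV j u → VV (j + 2) ((Kc a).mulVec u) := by
    intro a j u hu
    show VV (j + 2) ((∑ d, κ d a • (M (p d) * M (q d))).mulVec u)
    rw [Matrix.sum_mulVec]
    intro l hl
    rw [Finset.sum_apply]
    apply Finset.sum_eq_zero
    intro d _
    rw [Matrix.smul_mulVec, ← Matrix.mulVec_mulVec, Pi.smul_apply,
      hMV _ _ _ (hMV _ _ _ hu) l hl, smul_zero]
  have hNV : ∀ a j u, VV j u → VV (j + 1) ((N a).mulVec u) := by
    intro a j u hu
    show VV (j + 1) ((M a + Kc a).mulVec u)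
    rw [Matrix.add_mulVec]
    intro l hl
    rw [Pi.add_apply, hMV a j u hu l hl, hKV a j u hu l (by omega), add_zero]
  have hV0 : ∀ u : Bs (Fin r) → k, VV 0 u := fun u l hl => absurd hl (by omega)
  -- basis columns
  let eo : Bs (Fin r) → k := Pi.single Bs.one 1
  have hMo : ∀ a, (M a).mulVec eo = Pi.single (Bs.x a) 1 := by
    intro a
    funext l
    rw [Matrix.mulVec_single_one]
    have := hcol (Bs.x a) (by simp) l
    show M a l Bs.one = _
    rw [Pi.single_apply]
    exact this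
  have hMz : ∀ d, (M (p d)).mulVec ((M (q d)).mulVec eo) = Pi.single (Bs.z d) 1 := by
    intro d
    rw [hMo]
    funext l
    rw [Matrix.mulVec_single_one]
    have := hcol (Bs.z d) (by simp) l
    show M (p d) l (Bs.x (q d)) = _
    rw [Pi.single_apply]
    exact this
  have hMc : ∀ a b u, (M a).mulVec ((M b).mulVec u) = (M b).mulVec ((M a).mulVec u) := by
    intro a b u
    rw [Matrix.mulVec_mulVec, Matrix.mulVec_mulVec, hcomm]
  have hQs : ∀ a b, Q a b = Q b a := by
    intro a b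
    have e1 : ∀ a b, Q a b = (M a).mulVec ((M b).mulVec eo) Bs.s := by
      intro a b
      rw [hMo, Matrix.mulVec_single_one]
      rfl
    rw [e1, e1, hMc]
  -- the functional
  let β : MvPolynomial (Fin r) k →ₗ[k] (Bs (Fin r) → k) := π ∘ₗ (aeval y).toLinearMap
  have hβ : ∀ g, β g = π (aeval y g) := fun g => rfl
  have hβ1 : β 1 = eo := by rw [hβ, map_one, h1]
  have hβX : ∀ a g, β (X a * g) = (N a).mulVec (β g) := by
    intro a g
    rw [hβ, map_mul, aeval_X, hy, hβ]
  let L : MvPolynomial (Fin r) k →ₗ[k] k := (LinearMap.proj Bs.s).comp β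
  have hL : ∀ g, L g = β g Bs.s := fun g => rfl
  -- β (X a)
  have hβa : ∀ a, β (X a) = Pi.single (Bs.x a) 1 + ∑ d, κ d a • Pi.single (Bs.z d) 1 := by
    intro a
    rw [← mul_one (X a), hβX, hβ1]
    show (M a + Kc a).mulVec eo = _
    rw [Matrix.add_mulVec, hMo]
    congr 1
    show (∑ d, κ d a • (M (p d) * M (q d))).mulVec eo = _
    rw [Matrix.sum_mulVec]
    apply Finset.sum_congr rfl
    intro d _
    rw [Matrix.smul_mulVec, ← Matrix.mulVec_mulVec, hMz]
  have hL0 : L 1 = 0 := by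
    rw [hL, hβ1]
    simp [eo]
  have hL1 : ∀ a, L (X a) = 0 := by
    intro a
    rw [hL, hβa]
    simp [Finset.sum_apply]
  have hL2 : ∀ a b, L (X a * X b) = 0 := by
    intro a b
    rw [hL, hβX, hβa]
    have e1 : (N a).mulVec (Pi.single (Bs.x b) 1 + ∑ d, κ d b • Pi.single (Bs.z d) 1) Bs.s =
        Q a b + (P * κ) a b + (P * κ) b a := by
      show (M a + Kc a).mulVec _ Bs.s = _
      rw [Matrix.add_mulVec, Pi.add_apply, Matrix.mulVec_add, Pi.add_apply]
      have e2 : (M a).mulVec (Pi.single (Bs.x b) 1) Bs.s = Q a b := by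
        rw [Matrix.mulVec_single_one]; rfl
      have e3 : (M a).mulVec (∑ d, κ d b • Pi.single (Bs.z d) 1) Bs.s = (P * κ) a b := by
        rw [Matrix.mulVec_sum, Finset.sum_apply, Matrix.mul_apply]
        apply Finset.sum_congr rfl
        intro d _
        rw [Matrix.mulVec_smul, Matrix.mulVec_single_one, Pi.smul_apply, smul_eq_mul, hP, mul_comm]
        rfl
      have e4 : (Kc a).mulVec (Pi.single (Bs.x b) 1 + ∑ d, κ d b • Pi.single (Bs.z d) 1) Bs.s =
          (P * κ) b a := by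
        rw [Matrix.mulVec_add, Pi.add_apply]
        have e5 : (Kc a).mulVec (∑ d, κ d b • Pi.single (Bs.z d) 1) Bs.s = 0 := by
          refine hKV a 2 _ ?_ Bs.s (by simp)
          intro l hl
          rw [Finset.sum_apply]
          apply Finset.sum_eq_zero
          intro d _
          rw [Pi.smul_apply, Pi.single_apply, if_neg, smul_zero]
          rintro rfl
          simp at hl
        rw [e5, add_zero, Matrix.mul_apply]
        show (∑ d, κ d a • (M (p d) * M (q d))).mulVec _ Bs.s = _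
        rw [Matrix.sum_mulVec, Finset.sum_apply]
        apply Finset.sum_congr rfl
        intro d _
        rw [Matrix.smul_mulVec, ← Matrix.mulVec_mulVec, ← hMo b, hMc (q d) b, hMc (p d) b, hMz,
          Pi.smul_apply, Matrix.mulVec_single_one, hP, smul_eq_mul, mul_comm]
        rfl
      rw [e2, e3, e4]
    rw [e1, hPκ, Matrix.smul_apply, Matrix.smul_apply, hQs b a, smul_eq_mul]
    have : (2 : k)⁻¹ + (2 : k)⁻¹ = 1 := by
      rw [← two_mul, mul_inv_cancel₀ h2k]
    linear_combination (-Q a b) * this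
  have hL4 : ∀ a b c d g, L (X a * X b * X c * X d * g) = 0 := by
    intro a b c d g
    rw [hL, mul_assoc, mul_assoc, mul_assoc, hβX, hβX, hβX, hβX]
    exact hNV _ _ _ (hNV _ _ _ (hNV _ _ _ (hNV _ _ _ (hV0 _)))) Bs.s (by simp)
  let F : Cubic k r := cub L
  have hLF : ∀ g, L g = lam (form F) g := by
    apply lam_unique F L hL0 hL1 hL2 _ hL4
    intro a b c
    exact (tens_cub L a b c).symm
  have hFP : ∀ d b, tens F (p d) (q d) b = P b d := by
    intro d b
    rw [tens_cub, hL]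
    have e1 : (X (p d) * X (q d) * X b : MvPolynomial (Fin r) k) = X b * (X (p d) * (X (q d) * 1)) := by
      ring
    rw [e1, hβX, hβX, hβX, hβ1]
    have e2 : VV 3 ((N (p d)).mulVec ((N (q d)).mulVec eo) - Pi.single (Bs.z d) 1) := by
      have e3 : (N (p d)).mulVec ((N (q d)).mulVec eo) - Pi.single (Bs.z d) 1 =
          (Kc (p d)).mulVec ((N (q d)).mulVec eo) + (M (p d)).mulVec ((Kc (q d)).mulVec eo) := by
        have e4 : (N (q d)).mulVec eo = (M (q d)).mulVec eo + (Kc (q d)).mulVec eo :=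
          Matrix.add_mulVec _ _ _
        have e5 : (N (p d)).mulVec ((N (q d)).mulVec eo) =
            (M (p d)).mulVec ((N (q d)).mulVec eo) + (Kc (p d)).mulVec ((N (q d)).mulVec eo) :=
          Matrix.add_mulVec _ _ _
        rw [e5]
        conv_lhs => rw [e4, Matrix.mulVec_add, hMz]
        rw [e4]
        abel
      rw [e3]
      intro l hl
      rw [Pi.add_apply, hKV _ 1 _ (hNV _ 0 _ (hV0 _)) l (by omega),
        hMV _ 2 _ (hKV _ 0 _ (hV0 _)) l (by omega), add_zero]
    have e6 : (N (p d)).mulVec ((N (q d)).mulVec eo) =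
        ((N (p d)).mulVec ((N (q d)).mulVec eo) - Pi.single (Bs.z d) 1) +
          Pi.single (Bs.z d) 1 := by abel
    rw [e6, Matrix.mulVec_add, Pi.add_apply, hNV _ _ _ e2 Bs.s (by simp), zero_add]
    show (M b + Kc b).mulVec _ Bs.s = _
    rw [Matrix.add_mulVec, Pi.add_apply, Matrix.mulVec_single_one]
    have e7 : (Kc b).mulVec (Pi.single (Bs.z d) 1) Bs.s = 0 := by
      refine hKV b 2 _ ?_ Bs.s (by simp)
      intro l hl
      rw [Pi.single_apply, if_neg]
      rintro rfl
      simp at hl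
    rw [e7, add_zero, hP]
    rfl
  have hconc : Concise (tens F) := by
    intro w hw
    apply Matrix.eq_zero_of_vecMul_eq_zero hdet
    funext d
    rw [Matrix.vecMul, dotProduct, Pi.zero_apply, ← hw (p d) (q d)]
    apply Finset.sum_congr rfl
    intro b _
    rw [hFP, mul_comm]
  refine ⟨F, hconc, ?_⟩
  obtain ⟨πF, g1, g2⟩ := exists_pi (tens_sym F)
  have gs := pi_surj_of_concise hconc g1 g2
  have hker : ∀ g, β g = 0 → πF g = 0 := by
    intro g hg
    apply pi_eq_zero_of_pairing (tens_sym F) g1 g2 gs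
    intro h
    rw [pi_s_eq_lam g1 g2, ← hLF, hL, hβ, map_mul]
    rw [hβ, hJ] at hg
    rw [(hJ _).2 (J.mul_mem_left _ hg)]
    rfl
  obtain ⟨hβs, hker'⟩ := factor β πF hker gs le_rfl
  let α : MvPolynomial (Fin r) k →ₐ[k] (MvPolynomial (Fin r) k ⧸ J) :=
    (Ideal.Quotient.mkₐ k J).comp (aeval y)
  have hαs : Function.Surjective α := by
    intro a
    obtain ⟨g, rfl⟩ := Ideal.Quotient.mk_surjective a
    obtain ⟨h, hh⟩ := hβs (π g)
    refine ⟨h, ?_⟩
    show Ideal.Quotient.mk J (aeval y h) = Ideal.Quotient.mk J g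
    rw [Ideal.Quotient.eq, ← hJ, map_sub, ← hβ, hh, sub_self]
  have hαk : RingHom.ker α = ann (form F) := by
    ext g
    rw [RingHom.mem_ker, ← mem_ann_iff_pi g1 g2 gs]
    have e1 : α g = 0 ↔ β g = 0 := by
      show Ideal.Quotient.mk J (aeval y g) = 0 ↔ _
      rw [Ideal.Quotient.eq_zero_iff_mem, ← hJ, hβ]
    rw [e1]
    exact ⟨hker g, hker' g⟩
  exact ⟨(Ideal.quotientKerAlgEquivOfSurjective hαs).symm.trans
    (Ideal.quotientEquivAlgOfEq k hαk)⟩

end

end Q35.EC
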