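import Mathlib
import Pool.Agent.Q35.EC.Str

/-!
The open chart of the Hilbert scheme.
-/

set_option autoImplicit false

namespace Q35.EC

open MvPolynomial

section
variable {k : Type*} [Field k] {r : ℕ}

/-- an enumeration of the basis -/
noncomputable def eBs (r : ℕ) : Bs (Fin r) ≃ Fin (2 * r + 2) := Fintype.equivFinOfCardEq card_Bs

/-- the matrices of a point, indexed by `Bs` -/
noncomputable def Xm (P : CVIdx r (2 * r + 2) → k) (i : Fin r) :
    Matrix (Bs (Fin r)) (Bs (Fin r)) k :=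
  fun l m => P (Sum.inl (i, eBs r l, eBs r m))

/-- the vector of a point, indexed by `Bs` -/
noncomputable def vm (P : CVIdx r (2 * r + 2) → k) : Bs (Fin r) → k :=
  fun l => P (Sum.inr (eBs r l))

/-- the point given by matrices indexed by `Bs` -/
noncomputable def mkP (A : Fin r → Matrix (Bs (Fin r)) (Bs (Fin r)) k) (v : Bs (Fin r) → k) :
    CVIdx r (2 * r + 2) → k :=
  Sum.elim (fun x => A x.1 ((eBs r).symm x.2.1) ((eBs r).symm x.2.2))
    (fun a => v ((eBs r).symm a))

theorem Xm_mkP (A : Fin r → Matrix (Bs (Fin r)) (Bs (Fin r)) k) (v : Bs (Fin r) → k) :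
    Xm (mkP A v) = A := by
  funext i l m
  simp [Xm, mkP]

theorem vm_mkP (A : Fin r → Matrix (Bs (Fin r)) (Bs (Fin r)) k) (v : Bs (Fin r) → k) :
    vm (mkP A v) = v := by
  funext l
  simp [vm, mkP]

theorem presents_iff (P : CVIdx r (2 * r + 2) → k) (J : Ideal (MvPolynomial (Fin r) k)) :
    Presents P J ↔ ∃ π : MvPolynomial (Fin r) k →ₗ[k] (Bs (Fin r) → k), Function.Surjective π ∧
      (∀ f, π f = 0 ↔ f ∈ J) ∧ π 1 = vm P ∧ ∀ i f, π (X i * f) = (Xm P i).mulVec (π f) := by
  let T : (Fin (2 * r + 2) → k) ≃ₗ[k] (Bs (Fin r) → k) :=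
    LinearEquiv.funCongrLeft k k (eBs r)
  have hT : ∀ u l, T u l = u (eBs r l) := fun u l => rfl
  constructor
  · rintro ⟨π, hs, hk, h1, h2⟩
    refine ⟨T.toLinearMap ∘ₗ π, T.surjective.comp hs, ?_, ?_, ?_⟩
    · intro f
      rw [← hk]
      simp
    · funext l
      show T (π 1) l = _
      rw [hT, h1]
      rfl
    · intro i f
      funext l
      show T (π (X i * f)) l = _
      rw [hT, h2, Matrix.mulVec, dotProduct, ← (eBs r).sum_comp]
      rfl
  · rintro ⟨π, hs, hk, h1, h2⟩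
    have hTs : ∀ u a, T.symm u a = u ((eBs r).symm a) := fun u a => rfl
    refine ⟨T.symm.toLinearMap ∘ₗ π, T.symm.surjective.comp hs, ?_, ?_, ?_⟩
    · intro f
      rw [← hk]
      simp
    · funext l
      show T.symm (π 1) l = _
      rw [hTs, h1]
      simp [vm]
    · intro i f a
      show T.symm (π (X i * f)) a = _
      rw [hTs, h2, Matrix.mulVec, dotProduct, ← (eBs r).sum_comp]
      apply Finset.sum_congr rfl
      intro m _
      show P _ * _ = _ * T.symm (π f) _
      rw [hTs, Equiv.symm_apply_apply, Equiv.apply_symm_apply]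

/-- normalised trace -/
noncomputable def tm (P : CVIdx r (2 * r + 2) → k) (i : Fin r) : k :=
  ((2 * r + 2 : ℕ) : k)⁻¹ * (Xm P i).trace

/-- traceless matrices -/
noncomputable def Xt (P : CVIdx r (2 * r + 2) → k) (i : Fin r) :
    Matrix (Bs (Fin r)) (Bs (Fin r)) k := Xm P i - tm P i • 1

/-- the columns of the base change matrix -/
noncomputable def gcol (p q : Fin r → Fin r) (i0 : Fin r) (P : CVIdx r (2 * r + 2) → k) :
    Bs (Fin r) → (Bs (Fin r) → k)
  | Sum.inl none => vm P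
  | Sum.inl (some a) => (Xt P a).mulVec (vm P)
  | Sum.inr (some c) => (Xt P (p c)).mulVec ((Xt P (q c)).mulVec (vm P))
  | Sum.inr none => (Xt P i0).mulVec ((Xt P (p i0)).mulVec ((Xt P (q i0)).mulVec (vm P)))

theorem gcol_succ (p q : Fin r → Fin r) (i0 : Fin r) (P : CVIdx r (2 * r + 2) → k)
    (m : Bs (Fin r)) (hm : m ≠ Bs.one) :
    gcol p q i0 P m = (Xt P (vrOf p i0 m)).mulVec (gcol p q i0 P (parOf q i0 m)) := by
  rcases m with (_ | m) | (_ | m)
  · exact absurd rfl hm
  · rfl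
  · rfl
  · rfl

/-- the base change matrix -/
noncomputable def Gm (p q : Fin r → Fin r) (i0 : Fin r) (P : CVIdx r (2 * r + 2) → k) :
    Matrix (Bs (Fin r)) (Bs (Fin r)) k := fun l m => gcol p q i0 P m l

/-- the chart -/
def Good (p q : Fin r → Fin r) (i0 : Fin r)
    (H : MvPolynomial (Fin r × Bs (Fin r) × Bs (Fin r)) k)
    (J : Ideal (MvPolynomial (Fin r) k)) : Prop :=
  ∃ (M : Fin r → Matrix (Bs (Fin r)) (Bs (Fin r)) k) (c : Fin r → k)
    (π : MvPolynomial (Fin r) k →ₗ[k] (Bs (Fin r) → k)), Function.Surjective π ∧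
    (∀ g, π g = 0 ↔ g ∈ J) ∧ π 1 = Pi.single Bs.one 1 ∧
    (∀ i g, π ((X i - C (c i)) * g) = (M i).mulVec (π g)) ∧
    chartEq Bs.one (vrOf p i0) (parOf q i0) M ∧
    eval (fun x => M x.1 x.2.1 x.2.2) H ≠ 0

section poly
variable {σ : Type*}

theorem fmulVec_mem {N : Type*} [Fintype N] {A : (σ → k) → Matrix N N k} {u : (σ → k) → N → k}
    (hA : ∀ i j, (fun x => A x i j) ∈ polyFun σ k) (hu : ∀ i, (fun x => u x i) ∈ polyFun σ k)
    (i : N) : (fun x => (A x).mulVec (u x) i) ∈ polyFun σ k :=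
  fsum_mem _ (fun j _ => fmul_mem (hA i j) (hu j))

theorem fmatMul_mem {N : Type*} [Fintype N] {A B : (σ → k) → Matrix N N k}
    (hA : ∀ i j, (fun x => A x i j) ∈ polyFun σ k)
    (hB : ∀ i j, (fun x => B x i j) ∈ polyFun σ k) (i j : N) :
    (fun x => (A x * B x) i j) ∈ polyFun σ k := by
  simp only [Matrix.mul_apply]
  exact fsum_mem _ (fun l _ => fmul_mem (hA i l) (hB l j))

theorem fadj_mem {N : Type*} [Fintype N] [DecidableEq N] {A : (σ → k) → Matrix N N k}
    (hA : ∀ i j, (fun x => A x i j) ∈ polyFun σ k) (i j : N) :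
    (fun x => (A x).adjugate i j) ∈ polyFun σ k := by
  simp only [Matrix.adjugate_apply]
  apply fdet_mem
  intro a b
  simp only [Matrix.updateRow_apply]
  by_cases h : a = j
  · simp only [h, if_true]
    exact const_mem _
  · simp only [h, if_false]
    exact hA a b

end poly

theorem Xt_poly (i : Fin r) (l m : Bs (Fin r)) :
    (fun P : CVIdx r (2 * r + 2) → k => Xt P i l m) ∈ polyFun (CVIdx r (2 * r + 2)) k := by
  have : (fun P : CVIdx r (2 * r + 2) → k => Xt P i l m) = fun P =>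
      P (Sum.inl (i, eBs r l, eBs r m)) - ((((2 * r + 2 : ℕ) : k)⁻¹ *
        ∑ a : Bs (Fin r), P (Sum.inl (i, eBs r a, eBs r a))) * (1 : Matrix _ _ k) l m) := by
    funext P
    rfl
  rw [this]
  exact fsub_mem (coord_mem _) (fmul_mem (fmul_mem (const_mem _)
    (fsum_mem _ (fun a _ => coord_mem _))) (const_mem _))

theorem vm_poly (l : Bs (Fin r)) :
    (fun P : CVIdx r (2 * r + 2) → k => vm P l) ∈ polyFun (CVIdx r (2 * r + 2)) k :=
  coord_mem _

theorem Gm_poly (p q : Fin r → Fin r) (i0 : Fin r) (l m : Bs (Fin r)) :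
    (fun P : CVIdx r (2 * r + 2) → k => Gm p q i0 P l m) ∈
      polyFun (CVIdx r (2 * r + 2)) k := by
  rcases m with (_ | m) | (_ | m)
  · exact vm_poly l
  · exact fmulVec_mem (Xt_poly m) vm_poly l
  · exact fmulVec_mem (Xt_poly _) (fmulVec_mem (Xt_poly _) (fmulVec_mem (Xt_poly _) vm_poly)) l
  · exact fmulVec_mem (Xt_poly _) (fmulVec_mem (Xt_poly _) vm_poly) l

theorem trace_Xt [CharZero k] (P : CVIdx r (2 * r + 2) → k) (i : Fin r) : (Xt P i).trace = 0 := by
  have hn : ((2 * r + 2 : ℕ) : k) ≠ 0 := Nat.cast_ne_zero.2 (by omega)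
  rw [Xt, Matrix.trace_sub, Matrix.trace_smul, Matrix.trace_one, card_Bs, tm, smul_eq_mul]
  field_simp
  ring

/-- The chart is open. -/
theorem good_open [CharZero k] (p q : Fin r → Fin r) (i0 : Fin r)
    (H : MvPolynomial (Fin r × Bs (Fin r) × Bs (Fin r)) k) :
    IsOpen {J : Hilb k r (2 * r + 2) | Good p q i0 H J.1} := by
  obtain ⟨n', g, hg, hgd⟩ := exists_clear (σ := CVIdx r (2 * r + 2))
    (fun (j : Fin r × Bs (Fin r) × Bs (Fin r)) P =>
      ((Gm p q i0 P).adjugate * Xt P j.1 * Gm p q i0 P) j.2.1 j.2.2)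
    (fun j => fmatMul_mem (fmatMul_mem (fadj_mem (Gm_poly p q i0)) (Xt_poly j.1))
      (Gm_poly p q i0) j.2.1 j.2.2)
    (fun P => (Gm p q i0 P).det) (fdet_mem (Gm_poly p q i0)) H
  have hn : ((2 * r + 2 : ℕ) : k) ≠ 0 := Nat.cast_ne_zero.2 (by omega)
  apply Hilb.isOpen_of_ne _ (fun P => (Gm p q i0 P).det * g P)
    (fmul_mem (fdet_mem (Gm_poly p q i0)) hg)
  intro P J hPJ
  rw [presents_iff] at hPJ
  obtain ⟨π1, hs1, hk1, h11, h12⟩ := hPJ
  -- relation between the two descriptions of `M`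
  have hMd : ∀ (i : Fin r) (l m : Bs (Fin r)), (Gm p q i0 P).det ≠ 0 →
      ((Gm p q i0 P)⁻¹ * Xt P i * Gm p q i0 P) l m =
        ((Gm p q i0 P).adjugate * Xt P i * Gm p q i0 P) l m / (Gm p q i0 P).det := by
    intro i l m hd
    rw [Matrix.inv_def, Ring.inverse_eq_inv', Matrix.smul_mul, Matrix.smul_mul,
      Matrix.smul_apply, smul_eq_mul]
    field_simp
  constructor
  · rintro ⟨M, c, π, hs, hk, h1, h2, ⟨hcomm, hcol, htr⟩, hH⟩
    obtain ⟨T, hT⟩ := exists_equiv_of_ker π π1 hs hs1 (fun f => by rw [hk, hk1])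
    let A := LinearMap.toMatrix' T.toLinearMap
    have hA : ∀ u, A.mulVec u = T u := by
      intro u
      rw [← Matrix.toLin'_apply, Matrix.toLin'_toMatrix']
      rfl
    have hAdet : A.det ≠ 0 := by
      have := LinearEquiv.isUnit_det T (Pi.basisFun k (Bs (Fin r))) (Pi.basisFun k (Bs (Fin r)))
      exact this.ne_zero
    have hX : ∀ i, Xm P i * A = A * (M i + c i • 1) := by
      intro i
      apply Matrix.toLin'.injective
      apply LinearMap.ext
      intro u
      obtain ⟨f, rfl⟩ := hs u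
      rw [Matrix.toLin'_apply, Matrix.toLin'_apply, ← Matrix.mulVec_mulVec,
        ← Matrix.mulVec_mulVec, hA, hA, hT, ← h12, Matrix.add_mulVec, ← h2, Matrix.smul_mulVec,
        Matrix.one_mulVec, ← map_smul, ← map_add, hT]
      congr 1
      rw [MvPolynomial.smul_eq_C_mul]
      ring
    have hXA : ∀ i, Xm P i = A * (M i + c i • 1) * A⁻¹ := by
      intro i
      rw [← hX, Matrix.mul_assoc, Matrix.mul_nonsing_inv _ (isUnit_iff_ne_zero.2 hAdet),
        Matrix.mul_one]
    have hc : ∀ i, tm P i = c i := by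
      intro i
      rw [tm, hXA, Matrix.trace_mul_comm, ← Matrix.mul_assoc,
        Matrix.nonsing_inv_mul _ (isUnit_iff_ne_zero.2 hAdet), Matrix.one_mul, Matrix.trace_add,
        htr, Matrix.trace_smul, Matrix.trace_one, card_Bs, zero_add, smul_eq_mul]
      field_simp
    have hXt : ∀ i, Xt P i * A = A * M i := by
      intro i
      rw [Xt, Matrix.sub_mul, hX, hc, Matrix.mul_add, Matrix.smul_mul, Matrix.one_mul,
        Matrix.mul_smul, Matrix.mul_one]
      abel
    have hAv : A.mulVec (Pi.single Bs.one 1) = vm P := by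
      rw [hA, ← h1, hT, h11]
    have hcolm : ∀ m, m ≠ Bs.one → (M (vrOf p i0 m)).mulVec (Pi.single (parOf q i0 m) 1) =
        Pi.single m 1 := by
      intro m hm
      funext l
      rw [Matrix.mulVec_single_one, Pi.single_apply]
      exact hcol m hm l
    have hG : ∀ m, gcol p q i0 P m = A.mulVec (Pi.single m 1) := by
      have hstep : ∀ m, m ≠ Bs.one →
          gcol p q i0 P (parOf q i0 m) = A.mulVec (Pi.single (parOf q i0 m) 1) →
          gcol p q i0 P m = A.mulVec (Pi.single m 1) := by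
        intro m hm h
        rw [gcol_succ p q i0 P m hm, h, Matrix.mulVec_mulVec, hXt, ← Matrix.mulVec_mulVec,
          hcolm m hm]
      have h_one : gcol p q i0 P Bs.one = A.mulVec (Pi.single Bs.one 1) := hAv.symm
      have h_x : ∀ a, gcol p q i0 P (Bs.x a) = A.mulVec (Pi.single (Bs.x a) 1) := fun a =>
        hstep _ (by simp) h_one
      have h_z : ∀ a, gcol p q i0 P (Bs.z a) = A.mulVec (Pi.single (Bs.z a) 1) := fun a =>
        hstep _ (by simp) (h_x _)
      intro m
      rcases m with (_ | m) | (_ | m)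
      · exact h_one
      · exact h_x m
      · exact hstep _ (by simp) (h_z _)
      · exact h_z m
    have hGA : Gm p q i0 P = A := by
      funext l m
      show gcol p q i0 P m l = _
      rw [hG, Matrix.mulVec_single_one]
      rfl
    have hMM : ∀ i, (Gm p q i0 P)⁻¹ * Xt P i * Gm p q i0 P = M i := by
      intro i
      rw [hGA, Matrix.mul_assoc, hXt, ← Matrix.mul_assoc,
        Matrix.nonsing_inv_mul _ (isUnit_iff_ne_zero.2 hAdet), Matrix.one_mul]
    have hdet : (Gm p q i0 P).det ≠ 0 := by rw [hGA]; exact hAdet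
    show (Gm p q i0 P).det * g P ≠ 0
    refine mul_ne_zero hdet ?_
    rw [hgd P hdet]
    refine mul_ne_zero (pow_ne_zero _ hdet) ?_
    have e1 : (fun j : Fin r × Bs (Fin r) × Bs (Fin r) =>
        ((Gm p q i0 P).adjugate * Xt P j.1 * Gm p q i0 P) j.2.1 j.2.2 / (Gm p q i0 P).det) =
        fun x => M x.1 x.2.1 x.2.2 := by
      funext j
      rw [← hMd j.1 j.2.1 j.2.2 hdet, hMM]
    rw [e1]
    exact hH
  · intro hφ
    have hdet : (Gm p q i0 P).det ≠ 0 := left_ne_zero_of_mul hφ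
    have hg0 : g P ≠ 0 := right_ne_zero_of_mul hφ
    have hu := isUnit_iff_ne_zero.2 hdet
    have hXt1 : ∀ i f, π1 ((X i - C (tm P i)) * f) = (Xt P i).mulVec (π1 f) := by
      intro i f
      have : (X i - C (tm P i)) * f = X i * f - tm P i • f := by
        rw [MvPolynomial.smul_eq_C_mul]; ring
      rw [this, map_sub, h12, map_smul, Xt, Matrix.sub_mulVec, Matrix.smul_mulVec,
        Matrix.one_mulVec]
    let π : MvPolynomial (Fin r) k →ₗ[k] (Bs (Fin r) → k) :=
      (Matrix.toLin' (Gm p q i0 P)⁻¹) ∘ₗ π1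
    have hπ : ∀ f, π f = (Gm p q i0 P)⁻¹.mulVec (π1 f) := fun f => by
      show Matrix.toLin' (Gm p q i0 P)⁻¹ (π1 f) = _
      rw [Matrix.toLin'_apply]
    have hGπ : ∀ f, (Gm p q i0 P).mulVec (π f) = π1 f := by
      intro f
      rw [hπ, Matrix.mulVec_mulVec, Matrix.mul_nonsing_inv _ hu, Matrix.one_mulVec]
    have hGe : ∀ m, (Gm p q i0 P).mulVec (Pi.single m 1) = gcol p q i0 P m := by
      intro m
      rw [Matrix.mulVec_single_one]
      rfl
    have hGi : ∀ m, (Gm p q i0 P)⁻¹.mulVec (gcol p q i0 P m) = Pi.single m 1 := by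
      intro m
      rw [← hGe, Matrix.mulVec_mulVec, Matrix.nonsing_inv_mul _ hu, Matrix.one_mulVec]
    refine ⟨fun i => (Gm p q i0 P)⁻¹ * Xt P i * Gm p q i0 P, tm P, π, ?_, ?_, ?_, ?_,
      ⟨?_, ?_, ?_⟩, ?_⟩
    · intro u
      obtain ⟨f, hf⟩ := hs1 ((Gm p q i0 P).mulVec u)
      refine ⟨f, ?_⟩
      rw [hπ, hf, Matrix.mulVec_mulVec, Matrix.nonsing_inv_mul _ hu, Matrix.one_mulVec]
    · intro f
      rw [← hk1]
      constructor
      · intro h
        rw [← hGπ, h, Matrix.mulVec_zero]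
      · intro h
        rw [hπ, h, Matrix.mulVec_zero]
    · rw [hπ, h11]
      exact hGi Bs.one
    · intro i f
      rw [hπ, hXt1, ← Matrix.mulVec_mulVec, ← Matrix.mulVec_mulVec, hGπ]
    · intro i j
      have hXX : Xt P i * Xt P j = Xt P j * Xt P i := by
        apply Matrix.toLin'.injective
        apply LinearMap.ext
        intro u
        obtain ⟨f, rfl⟩ := hs1 u
        rw [Matrix.toLin'_apply, Matrix.toLin'_apply, ← Matrix.mulVec_mulVec,
          ← Matrix.mulVec_mulVec, ← hXt1, ← hXt1, ← hXt1, ← hXt1]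
        congr 1
        ring
      have hGG : Gm p q i0 P * (Gm p q i0 P)⁻¹ = 1 := Matrix.mul_nonsing_inv _ hu
      calc (Gm p q i0 P)⁻¹ * Xt P i * Gm p q i0 P * ((Gm p q i0 P)⁻¹ * Xt P j * Gm p q i0 P)
          = (Gm p q i0 P)⁻¹ * Xt P i * (Gm p q i0 P * (Gm p q i0 P)⁻¹) * Xt P j *
              Gm p q i0 P := by noncomm_ring
        _ = (Gm p q i0 P)⁻¹ * (Xt P i * Xt P j) * Gm p q i0 P := by
              rw [hGG]; noncomm_ring
        _ = (Gm p q i0 P)⁻¹ * (Xt P j * Xt P i) * Gm p q i0 P := by rw [hXX]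
        _ = (Gm p q i0 P)⁻¹ * Xt P j * (Gm p q i0 P * (Gm p q i0 P)⁻¹) * Xt P i *
              Gm p q i0 P := by rw [hGG]; noncomm_ring
        _ = _ := by noncomm_ring
    · intro m hm l
      have : ((Gm p q i0 P)⁻¹ * Xt P (vrOf p i0 m) * Gm p q i0 P).mulVec
          (Pi.single (parOf q i0 m) 1) = Pi.single m 1 := by
        rw [← Matrix.mulVec_mulVec, ← Matrix.mulVec_mulVec, hGe, ← gcol_succ p q i0 P m hm, hGi]
      have h3 := congrFun this l
      rw [Matrix.mulVec_single_one, Pi.single_apply] at h3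
      exact h3
    · intro i
      show ((Gm p q i0 P)⁻¹ * Xt P i * Gm p q i0 P).trace = 0
      rw [Matrix.trace_mul_comm, ← Matrix.mul_assoc, Matrix.mul_nonsing_inv _ hu,
        Matrix.one_mul, trace_Xt]
    · rw [hgd P hdet] at hg0
      have e1 : (fun j : Fin r × Bs (Fin r) × Bs (Fin r) =>
          ((Gm p q i0 P).adjugate * Xt P j.1 * Gm p q i0 P) j.2.1 j.2.2 / (Gm p q i0 P).det) =
          fun x => ((Gm p q i0 P)⁻¹ * Xt P x.1 * Gm p q i0 P) x.2.1 x.2.2 := by
        funext j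
        rw [← hMd j.1 j.2.1 j.2.2 hdet]
      rw [e1] at hg0
      exact right_ne_zero_of_mul hg0

end

end Q35.EC
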