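import Mathlib
import Pool.Agent.Q35.EC.Chart1

/-!
The family of all points of the Hilbert scheme isomorphic to apolar algebras of cubic forms.
-/

set_option autoImplicit false

namespace Q35.EC

open MvPolynomial

section
variable {k : Type*} [Field k] {r : ℕ} {σ : Type*}

theorem isOpen_of_local {Θ : Set (σ → k)}
    (h : ∀ z ∈ Θ, ∃ D ∈ polyFun σ k, D z ≠ 0 ∧ ∀ w, D w ≠ 0 → w ∈ Θ) :
    @IsOpen _ (zariski σ k) Θ := by
  refine (@isOpen_iff_forall_mem_open (σ → k) (zariski σ k) Θ).2 ?_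
  intro z hz
  obtain ⟨D, hD, hz0, hsub⟩ := h z hz
  exact ⟨{w | D w ≠ 0}, hsub, isOpen_ne hD, hz0⟩

theorem poly_pi (A : (σ → k) → Fin r → Matrix (Bs (Fin r)) (Bs (Fin r)) k)
    (hA : ∀ i l m, (fun z => A z i l m) ∈ polyFun σ k) (g : MvPolynomial (Fin r) k) :
    ∃ φ : (σ → k) → (Bs (Fin r) → k), (∀ l, (fun z => φ z l) ∈ polyFun σ k) ∧
      ∀ z (π : MvPolynomial (Fin r) k →ₗ[k] (Bs (Fin r) → k)), π 1 = Pi.single Bs.one 1 →
        (∀ i f, π (X i * f) = (A z i).mulVec (π f)) → π g = φ z := by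
  induction g using MvPolynomial.induction_on with
  | C a =>
    refine ⟨fun _ => a • Pi.single Bs.one 1, fun l => const_mem _, fun z π h1 _ => ?_⟩
    have e2 : (C a : MvPolynomial (Fin r) k) = a • 1 := by
      rw [MvPolynomial.smul_eq_C_mul, mul_one]
    rw [e2, map_smul, h1]
  | add p q hp hq =>
    obtain ⟨φ, hφ, h⟩ := hp
    obtain ⟨ψ, hψ, h'⟩ := hq
    refine ⟨fun z => φ z + ψ z, fun l => fadd_mem (hφ l) (hψ l), fun z π h1 h2 => ?_⟩
    rw [map_add, h z π h1 h2, h' z π h1 h2]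
  | mul_X p i hp =>
    obtain ⟨φ, hφ, h⟩ := hp
    refine ⟨fun z => (A z i).mulVec (φ z), fun l => fmulVec_mem (hA i) hφ l,
      fun z π h1 h2 => ?_⟩
    rw [mul_comm, h2, h z π h1 h2]

theorem surj_open (A : (σ → k) → Fin r → Matrix (Bs (Fin r)) (Bs (Fin r)) k)
    (hA : ∀ i l m, (fun z => A z i l m) ∈ polyFun σ k) (z0 : σ → k)
    (π0 : MvPolynomial (Fin r) k →ₗ[k] (Bs (Fin r) → k)) (h1 : π0 1 = Pi.single Bs.one 1)
    (h2 : ∀ i f, π0 (X i * f) = (A z0 i).mulVec (π0 f)) (hs : Function.Surjective π0) :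
    ∃ D ∈ polyFun σ k, D z0 ≠ 0 ∧
      ∀ z (π : MvPolynomial (Fin r) k →ₗ[k] (Bs (Fin r) → k)), π 1 = Pi.single Bs.one 1 →
        (∀ i f, π (X i * f) = (A z i).mulVec (π f)) → D z ≠ 0 → Function.Surjective π := by
  choose g hg using fun l : Bs (Fin r) => hs (Pi.single l 1)
  choose φ hφ h using fun l => poly_pi A hA (g l)
  let B : (σ → k) → Matrix (Bs (Fin r)) (Bs (Fin r)) k := fun z l' l => φ l z l'
  refine ⟨fun z => (B z).det, fdet_mem (fun i j => hφ j i), ?_, ?_⟩
  · have : B z0 = 1 := by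
      funext l' l
      show φ l z0 l' = _
      rw [← h l z0 π0 h1 h2, hg, Pi.single_apply, Matrix.one_apply]
    show (B z0).det ≠ 0
    rw [this, Matrix.det_one]
    exact one_ne_zero
  · intro z π h1' h2' hD u
    refine ⟨∑ l, ((B z)⁻¹.mulVec u) l • g l, ?_⟩
    rw [map_sum]
    have e1 : ∀ l, π (((B z)⁻¹.mulVec u) l • g l) = ((B z)⁻¹.mulVec u) l • φ l z := by
      intro l
      rw [map_smul, h l z π h1' h2']
    simp only [e1]
    have e2 : (B z).mulVec ((B z)⁻¹.mulVec u) = u := by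
      rw [Matrix.mulVec_mulVec, Matrix.mul_nonsing_inv _ (isUnit_iff_ne_zero.2 hD),
        Matrix.one_mulVec]
    conv_rhs => rw [← e2]
    funext l'
    rw [Finset.sum_apply, Matrix.mulVec, dotProduct]
    apply Finset.sum_congr rfl
    intro l _
    rw [Pi.smul_apply, smul_eq_mul, mul_comm]

theorem MM_poly {f : (σ → k) → Fin r → Fin r → Fin r → k}
    (hf : ∀ a b c, (fun z => f z a b c) ∈ polyFun σ k) (i : Fin r) (l m : Bs (Fin r)) :
    (fun z => MM (f z) i l m) ∈ polyFun σ k := by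
  rcases m with (_ | m) | (_ | m) <;> rcases l with (_ | l) | (_ | l) <;>
    first
    | exact const_mem _
    | exact hf _ _ _

theorem mu_poly {f : (σ → k) → Fin r → Fin r → Fin r → k}
    (hf : ∀ a b c, (fun z => f z a b c) ∈ polyFun σ k) {u w : (σ → k) → Bs (Fin r) → k}
    (hu : ∀ l, (fun z => u z l) ∈ polyFun σ k) (hw : ∀ l, (fun z => w z l) ∈ polyFun σ k)
    (l : Bs (Fin r)) : (fun z => mu (f z) (u z) (w z) l) ∈ polyFun σ k := by
  rcases l with (_ | l) | (_ | l)
  · exact fmul_mem (hu _) (hw _)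
  · exact fadd_mem (fmul_mem (hu _) (hw _)) (fmul_mem (hu _) (hw _))
  · exact fadd_mem (fadd_mem (fmul_mem (hu _) (hw _)) (fmul_mem (hu _) (hw _)))
      (fsum_mem _ (fun a _ => fadd_mem (fmul_mem (hu _) (hw _)) (fmul_mem (hu _) (hw _))))
  · exact fadd_mem (fadd_mem (fmul_mem (hu _) (hw _)) (fmul_mem (hu _) (hw _)))
      (fsum_mem _ (fun a _ => fsum_mem _ (fun b _ => fmul_mem (hf _ _ _)
        (fmul_mem (hu _) (hw _)))))

/-- right multiplication is linear -/
def muLin (f : Fin r → Fin r → Fin r → k) (u : Bs (Fin r) → k) :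
    (Bs (Fin r) → k) →ₗ[k] (Bs (Fin r) → k) where
  toFun w := mu f u w
  map_add' w w' := by
    apply Bs.ext
    · simp only [mu_one, Pi.add_apply]; ring
    · intro a; simp only [mu_x, Pi.add_apply]; ring
    · intro c
      simp only [mu_z, Pi.add_apply]
      have : ∑ a, ∑ b, f a b c * (u (Bs.x a) * (w (Bs.x b) + w' (Bs.x b))) =
          ∑ a, ∑ b, f a b c * (u (Bs.x a) * w (Bs.x b)) +
            ∑ a, ∑ b, f a b c * (u (Bs.x a) * w' (Bs.x b)) := by
        rw [← Finset.sum_add_distrib]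
        apply Finset.sum_congr rfl
        intro a _
        rw [← Finset.sum_add_distrib]
        apply Finset.sum_congr rfl
        intro b _
        ring
      rw [this]; ring
    · simp only [mu_s, Pi.add_apply]
      have : ∑ a, (u (Bs.x a) * (w (Bs.z a) + w' (Bs.z a)) +
            u (Bs.z a) * (w (Bs.x a) + w' (Bs.x a))) =
          ∑ a, (u (Bs.x a) * w (Bs.z a) + u (Bs.z a) * w (Bs.x a)) +
            ∑ a, (u (Bs.x a) * w' (Bs.z a) + u (Bs.z a) * w' (Bs.x a)) := by
        rw [← Finset.sum_add_distrib]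
        apply Finset.sum_congr rfl
        intro a _
        ring
      rw [this]; ring
  map_smul' t w := by
    apply Bs.ext
    · simp only [mu_one, Pi.smul_apply, smul_eq_mul, RingHom.id_apply]; ring
    · intro a; simp only [mu_x, Pi.smul_apply, smul_eq_mul, RingHom.id_apply]; ring
    · intro c
      simp only [mu_z, Pi.smul_apply, smul_eq_mul, RingHom.id_apply]
      have : ∑ a, ∑ b, f a b c * (u (Bs.x a) * (t * w (Bs.x b))) =
          t * ∑ a, ∑ b, f a b c * (u (Bs.x a) * w (Bs.x b)) := by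
        rw [Finset.mul_sum]
        apply Finset.sum_congr rfl
        intro a _
        rw [Finset.mul_sum]
        apply Finset.sum_congr rfl
        intro b _
        ring
      rw [this]; ring
    · simp only [mu_s, Pi.smul_apply, smul_eq_mul, RingHom.id_apply]
      have : ∑ a, (u (Bs.x a) * (t * w (Bs.z a)) + u (Bs.z a) * (t * w (Bs.x a))) =
          t * ∑ a, (u (Bs.x a) * w (Bs.z a) + u (Bs.z a) * w (Bs.x a)) := by
        rw [Finset.mul_sum]
        apply Finset.sum_congr rfl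
        intro a _
        ring
      rw [this]; ring

/-- matrix of multiplication by `u` -/
noncomputable def LL (f : Fin r → Fin r → Fin r → k) (u : Bs (Fin r) → k) :
    Matrix (Bs (Fin r)) (Bs (Fin r)) k := LinearMap.toMatrix' (muLin f u)

theorem LL_mulVec (f : Fin r → Fin r → Fin r → k) (u w : Bs (Fin r) → k) :
    (LL f u).mulVec w = mu f u w := by
  rw [← Matrix.toLin'_apply, LL, Matrix.toLin'_toMatrix']
  rfl

theorem LL_poly {f : (σ → k) → Fin r → Fin r → Fin r → k}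
    (hf : ∀ a b c, (fun z => f z a b c) ∈ polyFun σ k) {u : (σ → k) → Bs (Fin r) → k}
    (hu : ∀ l, (fun z => u z l) ∈ polyFun σ k) (l m : Bs (Fin r)) :
    (fun z => LL (f z) (u z) l m) ∈ polyFun σ k := by
  have : (fun z => LL (f z) (u z) l m) = fun z => mu (f z) (u z) (Pi.single m 1) l := by
    funext z
    rw [LL, LinearMap.toMatrix'_apply]
    rfl
  rw [this]
  exact mu_poly hf hu (w := fun _ => Pi.single m 1) (fun l' => const_mem _) l

end

section
variable {k : Type*} [Field k] {r : ℕ}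

/-- parameters of the family: a cubic form and images of the variables -/
abbrev Par (r : ℕ) := Sym (Fin r) 3 ⊕ (Fin r × Bs (Fin r))

/-- the cubic form -/
def cubOf (z : Par r → k) : Cubic k r := fun s => z (Sum.inl s)

/-- the images of the variables -/
def varOf (z : Par r → k) (i : Fin r) : Bs (Fin r) → k := fun l => z (Sum.inr (i, l))

/-- the family -/
noncomputable def PP (z : Par r → k) : CVIdx r (2 * r + 2) → k :=
  mkP (fun i => LL (tens (cubOf z)) (varOf z i)) (Pi.single Bs.one 1)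

theorem pull_poly {φ : Cubic k r → k} (hφ : φ ∈ polyFun (Sym (Fin r) 3) k) :
    (fun z : Par r → k => φ (cubOf z)) ∈ polyFun (Par r) k := by
  obtain ⟨P, hP⟩ := mem_polyFun.1 hφ
  refine mem_polyFun.2 ⟨rename Sum.inl P, fun z => ?_⟩
  rw [eval_rename, ← hP]
  rfl

theorem tens_cubOf_poly (a b c : Fin r) :
    (fun z : Par r → k => tens (cubOf z) a b c) ∈ polyFun (Par r) k :=
  pull_poly (tens_poly a b c)

theorem PP_poly (j : CVIdx r (2 * r + 2)) :
    (fun z : Par r → k => PP z j) ∈ polyFun (Par r) k := by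
  rcases j with ⟨i, a, b⟩ | a
  · exact LL_poly tens_cubOf_poly (fun l => coord_mem _) _ _
  · exact const_mem _

theorem presents_PP (z : Par r → k) (J : Ideal (MvPolynomial (Fin r) k)) :
    Presents (PP z) J ↔ ∃ π : MvPolynomial (Fin r) k →ₗ[k] (Bs (Fin r) → k),
      Function.Surjective π ∧ (∀ f, π f = 0 ↔ f ∈ J) ∧ π 1 = Pi.single Bs.one 1 ∧
        ∀ i f, π (X i * f) = mu (tens (cubOf z)) (varOf z i) (π f) := by
  rw [presents_iff, PP, Xm_mkP, vm_mkP]
  simp only [LL_mulVec]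

/-- The locus of points isomorphic to apolar algebras of cubic forms in `U`. -/
def Loc (U : Set (Cubic k r)) : Set (Hilb k r (2 * r + 2)) :=
  {J | ∃ F ∈ U, Nonempty ((MvPolynomial (Fin r) k ⧸ J.1) ≃ₐ[k]
    (MvPolynomial (Fin r) k ⧸ ann (form F)))}

/-- the parameters over `U` -/
def TT (U : Set (Cubic k r)) : Set (Par r → k) :=
  {z | cubOf z ∈ U ∧ Concise (tens (cubOf z)) ∧ ∃ J : Hilb k r (2 * r + 2), Presents (PP z) J.1}

/-- concise forms are an open set -/
theorem concise_local [Nonempty (Fin r)] {F0 : Cubic k r} (h0 : Concise (tens F0)) :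
    ∃ D ∈ polyFun (Sym (Fin r) 3) k, D F0 ≠ 0 ∧ ∀ F, D F ≠ 0 → Concise (tens F) := by
  obtain ⟨π0, h1, h2⟩ := exists_pi (tens_sym F0)
  have hs := pi_surj_of_concise h0 h1 h2
  obtain ⟨D, hD, hD0, h⟩ := surj_open (fun F : Cubic k r => MM (tens F))
    (fun i l m => MM_poly tens_poly i l m) F0 π0 h1 h2 hs
  refine ⟨D, hD, hD0, fun F hF => ?_⟩
  obtain ⟨π, g1, g2⟩ := exists_pi (tens_sym F)
  exact concise_of_pi_surj (tens_sym F) g1 g2 (h F π g1 g2 hF)

theorem concise_open [Nonempty (Fin r)] :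
    @IsOpen _ (zariski (Sym (Fin r) 3) k) {F : Cubic k r | Concise (tens F)} :=
  isOpen_of_local (fun _ hF => concise_local hF)

/-- the presentation attached to a parameter with concise form -/
theorem exists_alg [Nonempty (Fin r)] (z : Par r → k) (hc : Concise (tens (cubOf z))) :
    ∃ (α : MvPolynomial (Fin r) k →ₐ[k] (MvPolynomial (Fin r) k ⧸ ann (form (cubOf z))))
      (e : (MvPolynomial (Fin r) k ⧸ ann (form (cubOf z))) ≃ₗ[k] (Bs (Fin r) → k)),
      e (α 1) = Pi.single Bs.one 1 ∧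
        ∀ i f, e (α (X i * f)) = mu (tens (cubOf z)) (varOf z i) (e (α f)) := by
  obtain ⟨π, h1, h2⟩ := exists_pi (tens_sym (cubOf z))
  obtain ⟨e, -, he1, he2⟩ := exists_ann_equiv hc h1 h2
  refine ⟨aeval (fun i => e.symm (varOf z i)), e, ?_, ?_⟩
  · rw [map_one, he1]
  · intro i f
    rw [map_mul, he2, aeval_X, LinearEquiv.apply_symm_apply]

theorem TT_open [Nonempty (Fin r)] {U : Set (Cubic k r)}
    (hU : @IsOpen _ (zariski (Sym (Fin r) 3) k) U) : @IsOpen _ (zariski (Par r) k) (TT U) := by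
  apply isOpen_of_local
  rintro z ⟨hzU, hzc, J, hJ⟩
  obtain ⟨Q, hQ, hQU⟩ := exists_poly_of_mem_open hU hzU
  obtain ⟨D2, hD2, hD20, hD2c⟩ := concise_local hzc
  rw [presents_PP] at hJ
  obtain ⟨π0, hs, -, h1, h2⟩ := hJ
  obtain ⟨D3, hD3, hD30, hD3s⟩ := surj_open
    (fun z : Par r → k => fun i => LL (tens (cubOf z)) (varOf z i))
    (fun i l m => LL_poly tens_cubOf_poly (fun l => coord_mem _) l m) z π0 h1
    (fun i f => by rw [h2, LL_mulVec]) hs
  have hQp : (fun F : Cubic k r => eval F Q) ∈ polyFun (Sym (Fin r) 3) k :=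
    mem_polyFun.2 ⟨Q, fun _ => rfl⟩
  refine ⟨fun z => eval (cubOf z) Q * (D2 (cubOf z) * D3 z),
    fmul_mem (pull_poly hQp) (fmul_mem (pull_poly hD2) hD3),
    mul_ne_zero hQ (mul_ne_zero hD20 hD30), ?_⟩
  intro w hw
  have hw1 := left_ne_zero_of_mul hw
  have hw2 := left_ne_zero_of_mul (right_ne_zero_of_mul hw)
  have hw3 := right_ne_zero_of_mul (right_ne_zero_of_mul hw)
  have hc := hD2c _ hw2
  refine ⟨hQU _ hw1, hc, ?_⟩
  obtain ⟨α, e, g1, g2⟩ := exists_alg w hc
  let π : MvPolynomial (Fin r) k →ₗ[k] (Bs (Fin r) → k) := e.toLinearMap ∘ₗ α.toLinearMap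
  have gs : Function.Surjective π := hD3s w π g1 (fun i f => by rw [LL_mulVec]; exact g2 i f) hw3
  have hk : ∀ f, π f = 0 ↔ f ∈ RingHom.ker α := by
    intro f
    rw [RingHom.mem_ker]
    show e (α f) = 0 ↔ _
    rw [e.map_eq_zero_iff]
  refine ⟨⟨RingHom.ker α, mem_hilb_of_surj card_Bs π gs hk⟩, ?_⟩
  rw [presents_PP]
  exact ⟨π, gs, hk, g1, g2⟩

theorem Loc_eq [Nonempty (Fin r)] (U : Set (Cubic k r)) :
    Loc U = (famSet PP (TT U) : Set (Hilb k r (2 * r + 2))) := by
  ext J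
  constructor
  · rintro ⟨F, hF, ⟨φ⟩⟩
    have hfr : Module.finrank k (MvPolynomial (Fin r) k ⧸ ann (form F)) = 2 * r + 2 := by
      rw [← LinearEquiv.finrank_eq φ.toLinearEquiv]
      exact J.2.2
    have hc := concise_of_finrank hfr
    obtain ⟨π, h1, h2⟩ := exists_pi (tens_sym F)
    obtain ⟨e, -, he1, he2⟩ := exists_ann_equiv hc h1 h2
    let z : Par r → k := Sum.elim F (fun x => e (φ (Ideal.Quotient.mk J.1 (X x.1))) x.2)
    have hz : cubOf z = F := rfl
    have hPz : Presents (PP z) J.1 := by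
      rw [presents_PP]
      refine ⟨e.toLinearMap ∘ₗ (φ.toLinearEquiv.toLinearMap ∘ₗ (J.1.mkQ.restrictScalars k)),
        e.surjective.comp (φ.surjective.comp J.1.mkQ_surjective), ?_, ?_, ?_⟩
      · intro f
        show e (φ (Ideal.Quotient.mk J.1 f)) = 0 ↔ _
        rw [e.map_eq_zero_iff, map_eq_zero_iff φ φ.injective, Ideal.Quotient.eq_zero_iff_mem]
      · show e (φ (Ideal.Quotient.mk J.1 1)) = _
        rw [map_one, map_one, he1]
      · intro i f
        show e (φ (Ideal.Quotient.mk J.1 (X i * f))) = mu _ _ (e (φ (Ideal.Quotient.mk J.1 f)))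
        rw [map_mul, map_mul, he2]
        rfl
    refine ⟨z, ⟨?_, ?_, J, hPz⟩, hPz⟩
    · rw [hz]; exact hF
    · rw [hz]; exact hc
  · rintro ⟨z, ⟨hzU, hzc, -⟩, hP⟩
    refine ⟨cubOf z, hzU, ?_⟩
    obtain ⟨α, e, g1, g2⟩ := exists_alg z hzc
    rw [presents_PP] at hP
    obtain ⟨π, hs, hk, h1, h2⟩ := hP
    have heq : ∀ f, π f = e (α f) := by
      intro f
      induction f using MvPolynomial.induction_on with
      | C a =>
        have e2 : (C a : MvPolynomial (Fin r) k) = a • 1 := by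
          rw [MvPolynomial.smul_eq_C_mul, mul_one]
        rw [e2, map_smul, map_smul, map_smul, h1, g1]
      | add p q hp hq => rw [map_add, map_add, map_add, hp, hq]
      | mul_X p i hp => rw [mul_comm, h2, g2, hp]
    have hαs : Function.Surjective α := by
      intro a
      obtain ⟨f, hf⟩ := hs (e a)
      refine ⟨f, ?_⟩
      apply e.injective
      rw [← heq, hf]
    have hαk : RingHom.ker α = J.1 := by
      ext f
      rw [RingHom.mem_ker, ← hk, heq, e.map_eq_zero_iff]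
    exact ⟨(Ideal.quotientEquivAlgOfEq k hαk.symm).trans
      (Ideal.quotientKerAlgEquivOfSurjective hαs)⟩

/-- the point of a concise cubic form -/
theorem exists_point [Nonempty (Fin r)] {F : Cubic k r} (hc : Concise (tens F)) :
    ∃ J : Hilb k r (2 * r + 2), J.1 = ann (form F) := ⟨⟨_, ann_mem_hilb hc⟩, rfl⟩

theorem Loc_nonempty [Nonempty (Fin r)] {U : Set (Cubic k r)} {F : Cubic k r} (hF : F ∈ U)
    (hc : Concise (tens F)) : (Loc U).Nonempty := by
  obtain ⟨J, hJ⟩ := exists_point hc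
  refine ⟨J, F, hF, ⟨?_⟩⟩
  rw [hJ]

theorem Loc_irreducible [Infinite k] [Nonempty (Fin r)] {U : Set (Cubic k r)}
    (hU : @IsOpen _ (zariski (Sym (Fin r) 3) k) U) {F : Cubic k r} (hF : F ∈ U)
    (hc : Concise (tens F)) : IsIrreducible (Loc U) := by
  have hne := Loc_nonempty hF hc
  rw [Loc_eq] at hne ⊢
  apply famSet_irreducible PP PP_poly (TT_open hU)
  · obtain ⟨J, z, hz, -⟩ := hne
    exact ⟨z, hz⟩
  · rintro z ⟨-, -, h⟩
    exact h

/-- density of sub-loci -/
theorem Loc_closure [Infinite k] [Nonempty (Fin r)] {U : Set (Cubic k r)}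
    (hU : @IsOpen _ (zariski (Sym (Fin r) 3) k) U) (hUn : U.Nonempty) {F0 : Cubic k r}
    (hc0 : Concise (tens F0)) : closure (Loc U) = closure (Loc Set.univ) := by
  obtain ⟨F, hF, hc⟩ := inter_nonempty hU concise_open hUn ⟨F0, hc0⟩
  have hne := Loc_nonempty hF hc
  rw [Loc_eq] at hne
  rw [Loc_eq, Loc_eq]
  apply famSet_closure PP PP_poly (TT_open (@isOpen_univ _ (zariski (Sym (Fin r) 3) k)))
    (TT_open hU)
  · rintro z ⟨-, h2, h3⟩
    exact ⟨trivial, h2, h3⟩
  · obtain ⟨J, z, hz, -⟩ := hne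
    exact ⟨z, hz⟩
  · rintro z ⟨-, -, h⟩
    exact h

end

end Q35.EC
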