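import Mathlib
import Pool.Agent.Q35.EC.Fam

/-!
The closed set of points supported at one point, and the final assembly.
-/

set_option autoImplicit false

namespace Q35.EC

open MvPolynomial

section
variable {k : Type*} [Field k] {r n : ℕ}

/-- the points supported at one point -/
def KK (k : Type*) [Field k] (r n : ℕ) : Set (Hilb k r n) :=
  {J | ∃ c : Fin r → k, ∀ i, (X i - C (c i)) ^ n ∈ J.1}

theorem KK_closed [CharZero k] (hn0 : n ≠ 0) : IsClosed (KK k r n) := by
  have hn : (n : k) ≠ 0 := Nat.cast_ne_zero.2 hn0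
  let XM : (CVIdx r n → k) → Fin r → Matrix (Fin n) (Fin n) k :=
    fun p i => fun a b => p (Sum.inl (i, a, b))
  let t : (CVIdx r n → k) → Fin r → k := fun p i => (n : k)⁻¹ * (XM p i).trace
  let XT : (CVIdx r n → k) → Fin r → Matrix (Fin n) (Fin n) k :=
    fun p i => XM p i - t p i • 1
  have hXT : ∀ i a b, (fun p => XT p i a b) ∈ polyFun (CVIdx r n) k := by
    intro i a b
    have : (fun p => XT p i a b) = fun p : CVIdx r n → k =>
        p (Sum.inl (i, a, b)) - (((n : k)⁻¹ * ∑ c, p (Sum.inl (i, c, c))) *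
          (1 : Matrix (Fin n) (Fin n) k) a b) := by
      funext p
      rfl
    rw [this]
    exact fsub_mem (coord_mem _) (fmul_mem (fmul_mem (const_mem _)
      (fsum_mem _ (fun a _ => coord_mem _))) (const_mem _))
  have hpow : ∀ i (m : ℕ) a b, (fun p => (XT p i ^ m) a b) ∈ polyFun (CVIdx r n) k := by
    intro i m
    induction m with
    | zero => intro a b; simp only [pow_zero]; exact const_mem _
    | succ m ih =>
      intro a b
      simp only [pow_succ]
      exact fmatMul_mem (A := fun p => XT p i ^ m) (B := fun p => XT p i) ih (hXT i) a b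
  let v : (CVIdx r n → k) → Fin n → k := fun p a => p (Sum.inr a)
  apply Hilb.isClosed_of_polyFun (KK k r n)
    {g | ∃ i a, g = fun p => (XT p i ^ n).mulVec (v p) a}
  · rintro g ⟨i, a, rfl⟩
    exact fmulVec_mem (A := fun p => XT p i ^ n) (u := v) (hpow i n) (fun a => coord_mem _) a
  · intro p J hpJ
    obtain ⟨π, hs, hk, h1, h2⟩ := hpJ
    have hX : ∀ i f, π (X i * f) = (XM p i).mulVec (π f) := by
      intro i f
      funext a
      rw [h2]
      rfl
    have hc : ∀ i (c : k) f, π ((X i - C c) * f) = (XM p i - c • 1).mulVec (π f) := by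
      intro i c f
      have : (X i - C c) * f = X i * f - c • f := by
        rw [MvPolynomial.smul_eq_C_mul]; ring
      rw [this, map_sub, hX, map_smul, Matrix.sub_mulVec, Matrix.smul_mulVec, Matrix.one_mulVec]
    have hcp : ∀ i (c : k) (m : ℕ) f,
        π ((X i - C c) ^ m * f) = ((XM p i - c • 1) ^ m).mulVec (π f) := by
      intro i c m
      induction m with
      | zero => intro f; rw [pow_zero, one_mul, pow_zero, Matrix.one_mulVec]
      | succ m ih =>
        intro f
        rw [pow_succ, mul_assoc, ih, hc, Matrix.mulVec_mulVec, pow_succ]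
    have hv : π 1 = v p := h1
    constructor
    · rintro ⟨c, hcJ⟩ g ⟨i, a, rfl⟩
      have hnil : (XM p i - c i • 1) ^ n = 0 := by
        apply Matrix.toLin'.injective
        apply LinearMap.ext
        intro u
        obtain ⟨f, rfl⟩ := hs u
        rw [Matrix.toLin'_apply, ← hcp, (hk _).2 (J.1.mul_mem_right _ (hcJ i))]
        simp
      have htr : (XM p i - c i • 1).trace = 0 := by
        have := Matrix.isNilpotent_trace_of_isNilpotent ⟨n, hnil⟩
        exact this.eq_zero
      have htc : t p i = c i := by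
        rw [Matrix.trace_sub, Matrix.trace_smul, Matrix.trace_one, Fintype.card_fin, smul_eq_mul,
          sub_eq_zero] at htr
        show (n : k)⁻¹ * (XM p i).trace = c i
        rw [htr]
        field_simp
      show ((XM p i - t p i • 1) ^ n).mulVec (v p) a = 0
      rw [htc, hnil, Matrix.zero_mulVec]
      rfl
    · intro h
      refine ⟨t p, fun i => ?_⟩
      rw [← hk, ← mul_one ((X i - C (t p i)) ^ n), hcp, hv]
      funext a
      exact h _ ⟨i, a, rfl⟩

/-- points of `KK` are local algebras -/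
theorem KK_local (hn0 : n ≠ 0) {J : Hilb k r n} (hJ : J ∈ KK k r n) :
    IsLocalRing (MvPolynomial (Fin r) k ⧸ J.1) := by
  obtain ⟨c, hc⟩ := hJ
  have hnt : Nontrivial (MvPolynomial (Fin r) k ⧸ J.1) := by
    have := J.2.2
    apply Module.nontrivial_of_finrank_pos (R := k)
    omega
  have hx : ∀ i, IsNilpotent (Ideal.Quotient.mk J.1 (X i) -
      algebraMap k (MvPolynomial (Fin r) k ⧸ J.1) (c i)) := by
    intro i
    refine ⟨n, ?_⟩
    have : Ideal.Quotient.mk J.1 (X i) - algebraMap k (MvPolynomial (Fin r) k ⧸ J.1) (c i) =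
        Ideal.Quotient.mk J.1 (X i - C (c i)) := by
      rw [map_sub]; rfl
    rw [this, ← map_pow, Ideal.Quotient.eq_zero_iff_mem]
    exact hc i
  have hall : ∀ a : MvPolynomial (Fin r) k ⧸ J.1, ∃ t : k,
      IsNilpotent (a - algebraMap k (MvPolynomial (Fin r) k ⧸ J.1) t) := by
    intro a
    obtain ⟨f, rfl⟩ := Ideal.Quotient.mk_surjective a
    induction f using MvPolynomial.induction_on with
    | C a =>
      refine ⟨a, 1, ?_⟩
      rw [pow_one, sub_eq_zero]
      rfl
    | add p q hp hq =>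
      obtain ⟨s, hs⟩ := hp
      obtain ⟨t, ht⟩ := hq
      refine ⟨s + t, ?_⟩
      have : Ideal.Quotient.mk J.1 (p + q) - algebraMap k (MvPolynomial (Fin r) k ⧸ J.1) (s + t) =
          (Ideal.Quotient.mk J.1 p - algebraMap k _ s) +
            (Ideal.Quotient.mk J.1 q - algebraMap k _ t) := by
        rw [map_add, map_add]; ring
      rw [this]
      exact Commute.isNilpotent_add (Commute.all _ _) hs ht
    | mul_X p i hp =>
      obtain ⟨s, hs⟩ := hp
      refine ⟨s * c i, ?_⟩
      have : Ideal.Quotient.mk J.1 (p * X i) -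
          algebraMap k (MvPolynomial (Fin r) k ⧸ J.1) (s * c i) =
          (Ideal.Quotient.mk J.1 p - algebraMap k _ s) * Ideal.Quotient.mk J.1 (X i) +
            algebraMap k _ s * (Ideal.Quotient.mk J.1 (X i) - algebraMap k _ (c i)) := by
        rw [map_mul, map_mul]; ring
      rw [this]
      exact Commute.isNilpotent_add (Commute.all _ _)
        (Commute.isNilpotent_mul_right (Commute.all _ _) hs)
        (Commute.isNilpotent_mul_left (Commute.all _ _) (hx i))
  have hnu : ∀ a : MvPolynomial (Fin r) k ⧸ J.1, a ∈ nonunits _ → IsNilpotent a := by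
    intro a ha
    obtain ⟨t, ht⟩ := hall a
    by_cases h0 : t = 0
    · rwa [h0, map_zero, sub_zero] at ht
    · exfalso
      apply ha
      have h2 : a = algebraMap k _ t + (a - algebraMap k _ t) := by ring
      rw [h2]
      apply IsNilpotent.isUnit_add_left_of_commute ht
      · exact (IsUnit.mk0 _ h0).map (algebraMap k _)
      · exact Commute.all _ _
  apply IsLocalRing.of_nonunits_add
  intro a b ha hb
  have := Commute.isNilpotent_add (Commute.all a b) (hnu a ha) (hnu b hb)
  exact this.not_isUnit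

end

section
variable {k : Type*} [Field k] {r : ℕ}

theorem Loc_model [Nonempty (Fin r)] {J : Hilb k r (2 * r + 2)} {F : Cubic k r}
    (φ : (MvPolynomial (Fin r) k ⧸ J.1) ≃ₐ[k] (MvPolynomial (Fin r) k ⧸ ann (form F))) :
    Concise (tens F) ∧ Model (tens F) (MvPolynomial (Fin r) k ⧸ J.1) := by
  have hfr : Module.finrank k (MvPolynomial (Fin r) k ⧸ ann (form F)) = 2 * r + 2 := by
    rw [← LinearEquiv.finrank_eq φ.toLinearEquiv]
    exact J.2.2
  have hc := concise_of_finrank hfr
  refine ⟨hc, ?_⟩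
  obtain ⟨e, he1, he2⟩ := ann_model hc
  refine ⟨φ.toLinearEquiv.trans e, ?_, ?_⟩
  · show e (φ 1) = _
    rw [map_one, he1]
  · intro a b
    show e (φ (a * b)) = mu _ (e (φ a)) (e (φ b))
    rw [map_mul, he2]

theorem Loc_sub_KK [Nonempty (Fin r)] : Loc (Set.univ : Set (Cubic k r)) ⊆
    KK k r (2 * r + 2) := by
  rintro J ⟨F, -, ⟨φ⟩⟩
  obtain ⟨-, e, h1, hm⟩ := Loc_model φ
  refine ⟨fun i => e (Ideal.Quotient.mk J.1 (X i)) Bs.one, fun i => ?_⟩
  rw [← Ideal.Quotient.eq_zero_iff_mem, map_pow]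
  have hr : 0 < r := Fin.pos_iff_nonempty.2 inferInstance
  have hmem : Ideal.Quotient.mk J.1 (X i - C (e (Ideal.Quotient.mk J.1 (X i)) Bs.one)) ∈
      VI e hm 1 := by
    have e1 : Ideal.Quotient.mk J.1 (C (e (Ideal.Quotient.mk J.1 (X i)) Bs.one)) =
        algebraMap k (MvPolynomial (Fin r) k ⧸ J.1) (e (Ideal.Quotient.mk J.1 (X i)) Bs.one) := rfl
    rw [mem_VI, map_sub, map_sub, e1, Algebra.algebraMap_eq_smul_one, map_smul, h1]
    intro l hl
    rcases l with (_ | l) | (_ | l)
    · simp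
    · simp at hl
    · simp at hl
    · simp at hl
  have h4 := VI_pow_le hm 4 (Ideal.pow_mem_pow hmem 4)
  rw [mem_VI] at h4
  have h5 : (Ideal.Quotient.mk J.1 (X i - C (e (Ideal.Quotient.mk J.1 (X i)) Bs.one))) ^ 4 = 0 := by
    rw [← e.map_eq_zero_iff]
    exact VV_four h4
  exact pow_eq_zero_of_le (by omega) h5

/-- an irreducible set with a nonempty open subset inside its closure is dense in a component -/
theorem component_of_open {Y : Type*} [TopologicalSpace Y] {E W : Set Y} (hE : IsIrreducible E)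
    (hW : IsOpen W) (hWn : W.Nonempty) (hWE : W ⊆ E) :
    closure E ∈ irreducibleComponents Y := by
  refine ⟨hE.closure, ?_⟩
  intro D hD hCD x hxD
  by_contra hx
  obtain ⟨w, hw⟩ := hWn
  obtain ⟨y, -, hy1, hy2⟩ := hD.2 (closure E)ᶜ W isClosed_closure.isOpen_compl hW ⟨x, hxD, hx⟩
    ⟨w, hCD (subset_closure (hWE hw)), hw⟩
  exact hy1 (subset_closure (hWE hy2))

/-- the Hilbert function `(1,r,r,1)` -/
def H1rr1 (r : ℕ) : ℕ → ℕ := fun i => if i = 0 ∨ i = 3 then 1 else if i = 1 ∨ i = 2 then r else 0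

theorem Model.isAG' [Nonempty (Fin r)] {F : Cubic k r} {A : Type*} [CommRing A] [Algebra k A]
    (hc : Concise (tens F)) (h : Model (tens F) A) : IsAG k A (H1rr1 r) := by
  have := Model.isAG (tens_sym F) hc h
  rw [Fintype.card_fin] at this
  exact this

/-- The open chart around the cyclic form. -/
theorem chart_thm [CharZero k] (hr : 8 ≤ r) :
    ∃ (F0 : Cubic k r) (W : Set (Hilb k r (2 * r + 2))), Concise (tens F0) ∧ IsOpen W ∧
      (∃ J ∈ W, J.1 = ann (form F0)) ∧ ∀ J ∈ W, ∃ F : Cubic k r, Concise (tens F) ∧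
        Nonempty ((MvPolynomial (Fin r) k ⧸ J.1) ≃ₐ[k]
          (MvPolynomial (Fin r) k ⧸ ann (form F))) := by
  have : Nonempty (Fin r) := ⟨⟨0, by omega⟩⟩
  obtain ⟨f, p, q, i0, hf, hpq, hrig⟩ := exists_rigid k r hr
  obtain ⟨h, hh1, hh2⟩ := naka Bs.deg Bs.one (vrOf p i0) (parOf q i0) (MM f) (MM_deg f)
    (parOf_deg q i0) (chartEq_MM hf p q i0 hpq) hrig
  let dP : MvPolynomial (Fin r × Bs (Fin r) × Bs (Fin r)) k :=
    Matrix.det (Matrix.of fun a d => X (a, Bs.s, Bs.z d))
  have hdP : ∀ M : Fin r → Matrix (Bs (Fin r)) (Bs (Fin r)) k,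
      eval (fun x => M x.1 x.2.1 x.2.2) dP =
        Matrix.det (Matrix.of fun a d => M a Bs.s (Bs.z d)) := by
    intro M
    show eval _ (Matrix.det _) = _
    rw [RingHom.map_det]
    congr 1
    ext a d
    simp
  obtain ⟨π, h1, h2⟩ := exists_pi hf
  have hcf : Concise f := by
    intro w hw
    funext c
    have := hw (p c) (q c)
    simp only [hpq] at this
    simpa using this
  have hs := pi_surj_of_concise hcf h1 h2
  let F0 : Cubic k r := cub ((LinearMap.proj Bs.s).comp π)
  have hF0 : tens F0 = f := by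
    funext a b c
    rw [tens_cub]
    show π (X a * X b * X c) Bs.s = _
    rw [mul_assoc, pi_XXX_s h1 h2, hf.2 b c a, hf.1 b a c]
  have hc0 : Concise (tens F0) := by rw [hF0]; exact hcf
  refine ⟨F0, {J | Good p q i0 (h * dP) J.1}, hc0, good_open p q i0 (h * dP), ?_, ?_⟩
  · refine ⟨⟨ann (form F0), ann_mem_hilb hc0⟩, ?_, rfl⟩
    refine ⟨MM f, 0, π, hs, ?_, h1, ?_, chartEq_MM hf p q i0 hpq, ?_⟩
    · intro g
      exact mem_ann_iff_pi h1 (by rw [hF0]; exact h2) hs g
    · intro i g
      rw [Pi.zero_apply, C_0, sub_zero, h2]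
    · rw [map_mul, hh1, one_mul, hdP]
      have : (Matrix.of fun a d => MM f a Bs.s (Bs.z d)) = (1 : Matrix (Fin r) (Fin r) k) := by
        ext a d
        rw [Matrix.of_apply, Matrix.one_apply]
        show (if d = a then (1 : k) else 0) = _
        by_cases hda : d = a
        · rw [if_pos hda, if_pos hda.symm]
        · rw [if_neg hda, if_neg (Ne.symm hda)]
      rw [this, Matrix.det_one]
      exact one_ne_zero
  · rintro J ⟨M, c, π', hs', hk', h1', h2', hch, hH⟩
    rw [map_mul, hdP] at hH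
    exact structure_thm two_ne_zero p q i0 M hch (hh2 M hch (left_ne_zero_of_mul hH))
      (Matrix.of fun a d => M a Bs.s (Bs.z d)) (fun _ _ => rfl) (right_ne_zero_of_mul hH) c J.1 π'
      hk' h1' h2'

/-- the main theorem, in the language of the helper files -/
theorem main_thm [CharZero k] (hr : 8 ≤ r) :
    ∃ U : Set (Cubic k r), @IsOpen _ (zariski (Sym (Fin r) 3) k) U ∧ U.Nonempty ∧
      (∀ F ∈ U, IsAG k (MvPolynomial (Fin r) k ⧸ ann (form F)) (H1rr1 r) ∧
        ∃ W : Set (Hilb k r (2 * r + 2)), IsOpen W ∧ (∃ J ∈ W, J.1 = ann (form F)) ∧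
          ∀ J ∈ W, IsAG k (MvPolynomial (Fin r) k ⧸ J.1) (H1rr1 r)) ∧
      ∃ C ∈ irreducibleComponents (Hilb k r (2 * r + 2)),
        (∀ J ∈ C, IsLocalRing (MvPolynomial (Fin r) k ⧸ J.1)) ∧
        ∀ V : Set (Cubic k r), @IsOpen _ (zariski (Sym (Fin r) 3) k) V → V.Nonempty →
          closure {J : Hilb k r (2 * r + 2) | ∃ F ∈ V, Nonempty
            ((MvPolynomial (Fin r) k ⧸ J.1) ≃ₐ[k] (MvPolynomial (Fin r) k ⧸ ann (form F)))} =
            C := by
  have : Nonempty (Fin r) := ⟨⟨0, by omega⟩⟩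
  obtain ⟨F0, W, hc0, hW, ⟨J0, hJ0W, hJ0⟩, hWm⟩ := chart_thm (k := k) hr
  have hWL : W ⊆ Loc (Set.univ : Set (Cubic k r)) := by
    intro J hJ
    obtain ⟨F, -, hφ⟩ := hWm J hJ
    exact ⟨F, trivial, hφ⟩
  -- the point of a concise form in the family `MM`
  let PM : Cubic k r → (CVIdx r (2 * r + 2) → k) := fun F => mkP (MM (tens F)) (Pi.single Bs.one 1)
  have hPM : ∀ F : Cubic k r, Concise (tens F) → Presents (PM F) (ann (form F)) := by
    intro F hc
    obtain ⟨π, h1, h2⟩ := exists_pi (tens_sym F)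
    have hs := pi_surj_of_concise hc h1 h2
    rw [presents_iff, Xm_mkP, vm_mkP]
    exact ⟨π, hs, mem_ann_iff_pi h1 h2 hs, h1, h2⟩
  obtain ⟨W', hW', hWW'⟩ := famSet_open PM (by
    intro j
    rcases j with ⟨i, a, b⟩ | a
    · exact MM_poly tens_poly _ _ _
    · exact const_mem _) hW
  refine ⟨{F | Concise (tens F)} ∩ W', ?_, ?_, ?_, ?_⟩
  · exact (zariski (Sym (Fin r) 3) k).isOpen_inter _ _ concise_open hW'
  · refine ⟨F0, hc0, ?_⟩
    rw [← hWW' F0 J0 (by rw [hJ0]; exact hPM F0 hc0)]
    exact hJ0W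
  · rintro F ⟨hc, hFW'⟩
    refine ⟨Model.isAG' hc (ann_model hc), W, hW, ?_, ?_⟩
    · obtain ⟨J, hJ⟩ := exists_point hc
      refine ⟨J, ?_, hJ⟩
      rw [hWW' F J (by rw [hJ]; exact hPM F hc)]
      exact hFW'
    · intro J hJ
      obtain ⟨F', -, ⟨φ⟩⟩ := hWm J hJ
      obtain ⟨hc', hmod⟩ := Loc_model φ
      exact Model.isAG' hc' hmod
  · refine ⟨closure (Loc Set.univ), ?_, ?_, ?_⟩
    · exact component_of_open
        (Loc_irreducible (@isOpen_univ _ (zariski (Sym (Fin r) 3) k)) (Set.mem_univ F0) hc0)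
        hW ⟨J0, hJ0W⟩ hWL
    · intro J hJ
      have : closure (Loc (Set.univ : Set (Cubic k r))) ⊆ KK k r (2 * r + 2) :=
        closure_minimal Loc_sub_KK (KK_closed (by omega))
      exact KK_local (by omega) (this hJ)
    · intro V hV hVn
      exact Loc_closure hV hVn hc0

end

end Q35.EC
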